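import Mathlib

set_option autoImplicit false

namespace Pool.Agent.Helper9.FU

open Finset
open scoped Pointwise Nat

/-- Height of a rational number: `H(p/q) = max(|p|, q)` in lowest terms. -/
def ht (x : ℚ) : ℕ := max x.num.natAbs x.den

/-- Logarithmic height on the multiplicative group of the nonzero rationals. -/
noncomputable def ell (x : ℚˣ) : ℝ := Real.log (ht (x : ℚ))

/-- Length functions on a commutative group. -/
structure IsLen {G : Type} [CommGroup G] (l : G → ℝ) : Prop where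
  nonneg : ∀ x, 0 ≤ l x
  one : l 1 = 0
  inv : ∀ x, l x⁻¹ = l x
  mul : ∀ x y, l (x * y) ≤ l x + l y
  pow : ∀ (x : G) (j : ℕ), l (x ^ j) = j * l x

/-- The set of `j`-th powers of the elements of `A`. -/
def pw {G : Type} [CommGroup G] [DecidableEq G] (j : ℕ) (A : Finset G) : Finset G :=
  A.image (fun x => x ^ j)

/-- Points of `A` in the ball with centre `c` and radius `r`. -/
noncomputable def ball {G : Type} [CommGroup G] (l : G → ℝ) (A : Finset G) (c : G) (r : ℝ) :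
    Finset G :=
  A.filter (fun y => l (y / c) ≤ r)

/-- Number of points of `A` in the fullest ball of radius `r`. -/
noncomputable def V {G : Type} [CommGroup G] (l : G → ℝ) (A : Finset G) (r : ℝ) : ℕ :=
  ⨆ c : G, #(ball l A c r)

/-- Multiplicative doubling of `A`. -/
noncomputable def Kd {G : Type} [CommGroup G] [DecidableEq G] (A : Finset G) : ℝ :=
  (#(A * A) : ℝ) / #A

/-- `1 + floor (log_2 |A|)`. -/
noncomputable def Ld {G : Type} (A : Finset G) : ℝ := (Nat.log 2 #A : ℝ) + 1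

/-- `x` is a solution, with entries in `A` and without vanishing subsum, of
`∑ a_i x_i = 1`. -/
def IsSol {ι : Type} [Fintype ι] (A : Finset ℚˣ) (a x : ι → ℚˣ) : Prop :=
  (∀ i, x i ∈ A) ∧ ∑ i, (a i : ℚ) * (x i : ℚ) = 1 ∧
    ∀ I : Finset ι, I.Nonempty → ∑ i ∈ I, (a i : ℚ) * (x i : ℚ) ≠ 0

/-- `z` is a solution, with entries in `A`, of `∑ a_i z_i = 0` without proper vanishing
subsum. -/
def IsMin {ι : Type} [Fintype ι] (A : Finset ℚˣ) (a z : ι → ℚˣ) : Prop :=
  (∀ i, z i ∈ A) ∧ ∑ i, (a i : ℚ) * (z i : ℚ) = 0 ∧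
    ∀ I : Finset ι, I.Nonempty → I ≠ univ → ∑ i ∈ I, (a i : ℚ) * (z i : ℚ) ≠ 0

/-- `z` is a solution, with entries in `A`, of `∑ a_i z_i = 0` all of whose nonempty
vanishing subsums have at least three terms. -/
def IsRel {ι : Type} [Fintype ι] (A : Finset ℚˣ) (a z : ι → ℚˣ) : Prop :=
  (∀ i, z i ∈ A) ∧ ∑ i, (a i : ℚ) * (z i : ℚ) = 0 ∧
    ∀ I : Finset ι, I.Nonempty → ∑ i ∈ I, (a i : ℚ) * (z i : ℚ) = 0 → 3 ≤ #I

/-- Every equation `∑ a_i x_i = 1` in `j` unknowns has at most `N` solutions in `A`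
without vanishing subsum. -/
def Bd (A : Finset ℚˣ) (j : ℕ) (N : ℝ) : Prop :=
  ∀ (ι : Type) [Fintype ι] (a : ι → ℚˣ), Fintype.card ι = j →
    ∀ S : Finset (ι → ℚˣ), (∀ x ∈ S, IsSol A a x) → (#S : ℝ) ≤ N

/-- The same for `IsMin`. -/
def BM (A : Finset ℚˣ) (j : ℕ) (N : ℝ) : Prop :=
  ∀ (ι : Type) [Fintype ι] (a : ι → ℚˣ), Fintype.card ι = j →
    ∀ S : Finset (ι → ℚˣ), (∀ z ∈ S, IsMin A a z) → (#S : ℝ) ≤ N

/-- The same for `IsRel`. -/
def BR (A : Finset ℚˣ) (j : ℕ) (N : ℝ) : Prop :=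
  ∀ (ι : Type) [Fintype ι] (a : ι → ℚˣ), Fintype.card ι = j →
    ∀ S : Finset (ι → ℚˣ), (∀ z ∈ S, IsRel A a z) → (#S : ℝ) ≤ N

/-- The exponents `c_m`: `c_0 = c_1 = 0`, `c_m = c_{m-1} + m (4 m + 7)`. -/
def cexp : ℕ → ℕ
  | 0 => 0
  | 1 => 0
  | (m + 2) => cexp (m + 1) + (m + 2) * (4 * (m + 2) + 7)

/-- A nonzero integer as a unit of `ℚ` (and `0` is sent to `1`). -/
noncomputable def toU (z : ℤ) : ℚˣ := if h : (z : ℚ) ≠ 0 then Units.mk0 (z : ℚ) h else 1

/-- A finite set of nonzero integers as a finite set of units of `ℚ`. -/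
noncomputable def toQ (A : Finset ℤ) : Finset ℚˣ := A.image toU

/-- `X` is a set of `k` integers without nonempty zero-sum subset. -/
def good (k : ℕ) (X : Finset ℤ) : Prop :=
  #X = k ∧ ∀ Y ⊆ X, Y.Nonempty → ∑ y ∈ Y, y ≠ 0

/-- The set `kA` of all sums of `k` elements of `A` (repetitions allowed). -/
def ksum (k : ℕ) (A : Finset ℤ) : Finset ℤ :=
  (Fintype.piFinset fun _ : Fin k => A).image (fun x => ∑ i, x i)

end Pool.Agent.Helper9.FU
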