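import Mathlib
import Pool.Agent.Helper9.FU.Defs

set_option autoImplicit false

/-! Project FU (MP_cc0731_co): sharp few-products theorem. Paper proof:
/team-store/MP_cc0731-FU.md. Each `StX` is a statement whose docstring contains its proof.
Module X proves `theorem hX (deps) : StX` in `Pool/Agent/Helper9/FU/M_X.lean`. -/

namespace Pool.Agent.Helper9.FU

open Finset
open scoped Pointwise Nat

/-- Module HTD. Height of a quotient of two nonzero integers.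
PROOF. `Rat.num_div_den`-type facts: for `x = p/q` one has `x.num.natAbs ∣ p.natAbs` and
`x.den ∣ q.natAbs` (`Rat.num_dvd`, `Rat.den_dvd` or `Rat.divInt`), so both are at most `|p|`, `|q|`. -/
def StHTD : Prop := ∀ p q : ℤ, p ≠ 0 → q ≠ 0 → ht ((p : ℚ) / (q : ℚ)) ≤ max p.natAbs q.natAbs

/-- Module LEN. `ell = log ht` is a length function on `ℚˣ`.
PROOF. `ht x ≥ 1` since `x.den ≥ 1`, so `ell ≥ 0`; `ht 1 = 1`. Inverse: `x⁻¹ = x.den / x.num`, so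
`ht x⁻¹ ≤ ht x` by HTD, and the same for `x⁻¹` in place of `x`. Product:
`x y = (x.num y.num)/(x.den y.den)`, so HTD gives `ht (x y) ≤ ht x * ht y`; take logs.
Powers: `(x^j).num = x.num^j`, `(x^j).den = x.den^j` (`Rat.num_pow`, `Rat.den_pow`), so
`ht (x^j) = (ht x)^j`. -/
def StLEN : Prop := IsLen ell

/-- Module FH. Finitely many rationals of bounded height.
PROOF. `ell x ≤ h` gives `x.num.natAbs ≤ H` and `x.den ≤ H` with `H = ⌊exp h⌋₊`; the map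
`x ↦ (x.num, x.den)` into `Icc (-H) H ×ˢ range (H+1)` is injective. -/
def StFH : Prop := ∀ h : ℝ, ∃ N : ℕ, ∀ S : Finset ℚˣ, (∀ x ∈ S, ell x ≤ h) → #S ≤ N

/-- Module VB. Basic properties of the fullest ball number `V` (a supremum of natural numbers
bounded by `#A`, hence attained).
PROOF. `#(ball l A c r) ≤ #A` for all `c` (a filter), so the range is bounded: `le_ciSup`,
attained by `Nat.sSup_mem` (or `exists_eq_ciSup_of_finite`-like lemmas for ℕ). Monotone: the ball of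
radius `r` is contained in the ball of radius `r'` with the same centre. `1 ≤ V` : centre `a ∈ A`,
`l (a / a) = l 1 = 0 ≤ r`. -/
def StVB : Prop := ∀ (G : Type) [CommGroup G] (l : G → ℝ), IsLen l → ∀ A : Finset G,
  (∀ r c, #(ball l A c r) ≤ V l A r) ∧ (∀ r, ∃ c, #(ball l A c r) = V l A r) ∧
  (∀ r r', r ≤ r' → V l A r ≤ V l A r') ∧ (∀ r, V l A r ≤ #A) ∧
  (A.Nonempty → ∀ r, 0 ≤ r → 1 ≤ V l A r)

/-- Module COV. Cover lemma.
PROOF. Let `U = ball l A c r` (elements `y ∈ A` with `l (y/c) ≤ r`). If `U` is empty take `X = ∅`.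
Let `X ⊆ U` be maximal (w.r.t. inclusion; finite) such that for distinct `x, x' ∈ X` there are no
`b, b' ∈ B` with `x^lam * b = x'^lam * b'`. Let `A' ⊆ A` be maximal such that
`l (a/a') > 2 r + 2 ρ/lam` for distinct `a, a' ∈ A'`.
(i) Covering by `X`: let `y ∈ U`. If `y ∈ X` take `x = y` (`l 1 = 0`). Otherwise maximality gives
`x ∈ X`, `b, b' ∈ B` with `y^lam b = x^lam b'` (or the symmetric relation), so
`(y/x)^lam = b'/b`, `lam * l (y/x) = l (b'/b) ≤ 2 ρ`.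
(ii) `#A ≤ #A' * τ * #B`: by maximality of `A'` every `y ∈ A` lies in `ball l A a (2r+2ρ/lam)` for
some `a ∈ A'` (`l` is symmetric: `l (a/y) = l (y/a)`), and each such ball has at most `τ #B` elements.
(iii) The map `A' × X × B → pw lam A * pw lam A * A`, `(a,x,b) ↦ a^lam * x^lam * b` is injective:
if `a^lam x^lam b = a'^lam x'^lam b'` then `(a/a')^lam = (x'/x)^lam * (b'/b)`, so
`lam l (a/a') ≤ lam l (x'/x) + l (b'/b) ≤ lam * 2 r + 2 ρ` (`l (x'/x) ≤ l (x'/c) + l (c/x) ≤ 2 r`), hence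
`a = a'`; then `x^lam b = x'^lam b'`, so `x = x'` by the property of `X`, and `b = b'`.
Hence `#A' #X #B ≤ #(pw lam A * pw lam A * A)`, and `#X #A ≤ #X #A' τ #B ≤ τ #(...)`. Note that
`τ * #B ≥ 0` because it bounds a cardinality (if `A` is empty then `B` would be empty). -/
def StCOV : Prop := ∀ (G : Type) [CommGroup G] [DecidableEq G] (l : G → ℝ), IsLen l →
  ∀ A B : Finset G, B ⊆ A → B.Nonempty → ∀ (c : G) (r ρ τ : ℝ) (lam : ℕ), 0 ≤ r → 0 ≤ ρ →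
  1 ≤ lam → (∀ b ∈ B, ∀ b' ∈ B, l (b / b') ≤ 2 * ρ) →
  (∀ a ∈ A, (#(ball l A a (2 * r + 2 * ρ / lam)) : ℝ) ≤ τ * #B) →
  ∃ X ⊆ A, (#X : ℝ) * #A ≤ τ * #(pw lam A * pw lam A * A) ∧
    ∀ y ∈ A, l (y / c) ≤ r → ∃ x ∈ X, l (y / x) ≤ 2 * ρ / lam

/-- Module CLS. Covers for a class of radii.
PROOF (from COV, VB). Case 1: `V (3 h2) ≤ 2 V h1`. Let `B` be a fullest ball of radius `h1`
(`#B = V h1 ≥ 1`); two of its points have `l (b/b') ≤ 2 h1`. Apply COV with `r = h2`, `ρ = h1`,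
`τ = 2`: `2 h2 + 2 h1/lam ≤ 3 h2`, so `#(ball l A a (2 h2 + 2 h1/lam)) ≤ V (3 h2) ≤ 2 #B`. The radius is
`2 h1/lam ≤ 6 h1/(lam-2)`.
Case 2: `h2 ≤ (3/2) h1`. Put `ρ = 2 lam h2/(lam-2)`, so that `2 h2 + 2 ρ/lam = ρ`. Let `B` be a fullest ball
of radius `ρ`, and apply COV with `r = h2`, `τ = 1`. The radius is
`2 ρ/lam = 4 h2/(lam-2) ≤ 6 h1/(lam-2)`; and `1 * # ≤ 2 * #`. -/
def StCLS : Prop := ∀ (G : Type) [CommGroup G] [DecidableEq G] (l : G → ℝ), IsLen l →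
  ∀ A : Finset G, A.Nonempty → ∀ lam : ℕ, 3 ≤ lam → ∀ h1 h2 : ℝ, 0 < h1 → h1 ≤ h2 →
  (V l A (3 * h2) ≤ 2 * V l A h1 ∨ h2 ≤ 3 / 2 * h1) → ∀ c : G,
  ∃ X ⊆ A, (#X : ℝ) * #A ≤ 2 * #(pw lam A * pw lam A * A) ∧
    ∀ y ∈ A, l (y / c) ≤ h2 → ∃ x ∈ X, l (y / x) ≤ 6 * h1 / ((lam : ℝ) - 2)

/-- Module SC. Splitting into `4 (1 + floor (log_2 #A))` classes of scales.
PROOF (from VB). Put `t(h) = Nat.log 2 (V l A h)` for `h > 0`, a number in `{0, ..., T}`,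
`T = Nat.log 2 #A`, nondecreasing in `h`. Split `S` according to `(t(h), t(3h))`:
(alpha, `t = 0..T`) `S_t = {x ∈ S : t(h x) = t(3 h x) = t}`. If nonempty let `h1`, `h2` be the
minimum and maximum of `h` on it. `V (3 h2) < 2^(t+1) ≤ 2 V h1`, so `#S_t ≤ Z`.
(beta, `s = 1..T`) `R_s = {x ∈ S : t(h x) + 1 = s ≤ t(3 h x)}`. For `x, x' ∈ R_s`:
`V (h x') < 2^s ≤ V (3 h x)`, so `h x' < 3 h x` by monotonicity. If `R_s` is nonempty let `g` be the minimum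
of `h` on it; `R_s` is the union of the three sets where `g (3/2)^j ≤ h x < g (3/2)^(j+1)`,
`j = 0, 1, 2` (note `(3/2)^3 > 3`); on each of them (if nonempty) max `≤ (3/2)` min, so each has at most `Z`
elements.
Every `x ∈ S` is in one of these: if `t(h x) ≠ t(3 h x)` then `s = t(h x)+1 ≤ t(3 h x) ≤ T`.
Total `≤ (T+1) Z + 3 T Z ≤ 4 (T+1) Z`. -/
def StSC : Prop := ∀ (G : Type) [CommGroup G] (l : G → ℝ), IsLen l → ∀ A : Finset G,
  A.Nonempty → ∀ (α : Type) (S : Finset α) (h : α → ℝ) (Z : ℝ), 0 ≤ Z → (∀ x ∈ S, 0 < h x) →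
  (∀ S' ⊆ S, ∀ h1 h2 : ℝ, 0 < h1 → h1 ≤ h2 →
    (V l A (3 * h2) ≤ 2 * V l A h1 ∨ h2 ≤ 3 / 2 * h1) → (∃ x ∈ S', h x = h1) →
    (∀ x ∈ S', h1 ≤ h x ∧ h x ≤ h2) → (#S' : ℝ) ≤ Z) →
  (#S : ℝ) ≤ 4 * Ld A * Z

/-- Module DIL. Sums of dilates.
PROOF. Write `P_j = pw j A`, `n = #A`, `K = Kd A = #(A*A)/n`. Since `x ↦ x^3` is injective so is
`x ↦ x^(3^t)`; hence `#(pw (3^t) Y) = #Y` for every finite `Y`, and `pw j Y * pw j Y' = pw j (Y * Y')`,
`pw (i*j) A = pw j (pw i A)`.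
Plunnecke (`Finset.pluennecke_ruzsa_inequality_pow_mul` or similar in Mathlib):
`#(A^j) ≤ K^j n` for `j ≥ 1`. Sum triangle inequality
(`Finset.ruzsa_triangle_inequality_mul_mul_mul`): `#(U * W) * #Y ≤ #(U * Y) * #(Y * W)`.
(i) `k_t := #(pw (3^t) A * A)/n`. `k_1 ≤ K^4` since `pw 3 A * A ⊆ A^4`. With
`U = pw (3^(t+1)) A`, `Y = pw 3 A`, `W = A`: `#(pw (3^(t+1)) A * A) * n ≤ #(pw (3^(t+1)) A * pw 3 A) * #(pw 3 A * A)`
and `pw (3^(t+1)) A * pw 3 A = pw 3 (pw (3^t) A * A)`. So `k_(t+1) ≤ k_t k_1`, hence `k_t ≤ K^(4t)` for `t ≥ 1`.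
(ii) `U = pw (3^t) A * pw (3^t) A`, `Y = pw (3^t) A`, `W = A`:
`#(U * A) * n ≤ #(pw (3^t) (A*A*A)) * #(pw (3^t) A * A) ≤ K^3 n * K^(4t) n`. -/
def StDIL : Prop := ∀ (G : Type) [CommGroup G] [DecidableEq G],
  Function.Injective (fun x : G => x ^ 3) → ∀ A : Finset G, A.Nonempty → ∀ t : ℕ, 1 ≤ t →
  (#(pw (3 ^ t) A * pw (3 ^ t) A * A) : ℝ) ≤ Kd A ^ (4 * t + 3) * #A

/-- Module DET. Gap principle: `m` independent solutions of `∑ a_i x_i = 1` in one cell are all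
of small height (`m = Fintype.card ι`).
PROOF (from HTD, LEN). Let `x k i / ξ i = u_ki / v_ki` (num and den), `S = exp σ ≥ 1`:
`1 ≤ |u_ki| ≤ S`, `1 ≤ v_ki ≤ S`. (`ell (y) ≤ σ` gives `ht y ≤ exp σ`.) Put `V_i = ∏_k v_ki`,
`w_ki = u_ki ∏_{l ≠ k} v_li ∈ ℤ`, so `1 ≤ |w_ki| ≤ S^m` and `x k i = (ξ i / V_i) w_ki`.
Then `det (x k i) = (∏_i ξ i / V_i) det W ≠ 0`, so `det W ≠ 0` (`W = (w_ki)`, an integer matrix).
`β_i = a_i ξ_i / V_i` solves `W β = (1,...,1)`, so by Cramer (`Matrix.cramer`, `Matrix.mulVec_cramer` /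
`Matrix.cramer_eq_adjugate_mulVec`) `det W * β_i = D_i`, `D_i = det (W.updateCol i 1) ∈ ℤ`.
Leibniz: every term of `D_i` has one factor 1 (from column `i`) and `m-1` factors of absolute value
`≤ S^m`, so `|D_i| ≤ m! S^(m(m-1))`; `|det W| ≤ m! S^(m^2)` (`Matrix.det_le`).
`a_i x_ki = β_i w_ki = D_i w_ki / det W` and `|D_i w_ki| ≤ m! S^(m^2)`, `D_i ≠ 0` (as `a_i x_ki ≠ 0`), so
HTD gives `ht (a_i x_ki) ≤ m! S^(m^2)`; take logs. -/
def StDET : Prop := ∀ (ι : Type) [Fintype ι] [DecidableEq ι] [Nonempty ι] (a : ι → ℚˣ)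
  (x : ι → ι → ℚˣ) (ξ : ι → ℚˣ) (σ : ℝ), (∀ k i, ell (x k i / ξ i) ≤ σ) →
  (∀ k, ∑ i, (a i : ℚ) * (x k i : ℚ) = 1) →
  Matrix.det (Matrix.of fun k i => (x k i : ℚ)) ≠ 0 →
  ∀ k i, ell (a i * x k i) ≤
    Real.log ((Fintype.card ι)! : ℝ) + (Fintype.card ι : ℝ) ^ 2 * σ

/-- Module LIN. Linear algebra.
PROOF. If `span S = ⊤` one can choose a basis inside `S` indexed by `ι`
(`exists_linearIndependent`, `Basis.ofSpan`..., cardinality `Fintype.card ι`), and its matrix has nonzero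
determinant. So `span S ≠ ⊤`, and there is a nonzero linear functional vanishing on it
(`Submodule.exists_le_ker_of_lt_top`); write it as `x ↦ ∑ b_i x_i`. -/
def StLIN : Prop := ∀ (ι : Type) [Fintype ι] [DecidableEq ι] [Nonempty ι] (S : Set (ι → ℚ)),
  (∀ f : ι → ι → ℚ, (∀ k, f k ∈ S) → Matrix.det (Matrix.of f) = 0) →
  ∃ b : ι → ℚ, b ≠ 0 ∧ ∀ x ∈ S, ∑ i, b i * x i = 0

/-- Module ELIM. Solutions satisfying a second equation.
PROOF. Let `b i0 ≠ 0` and `c_j = a_j - (a_{i0}/b_{i0}) b_j ∈ ℚ`, so `c_{i0} = 0` and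
`∑ c_j x_j = 1` for `x ∈ S`. For `x ∈ S` let `J = J(x) ⊆ ι` be a subset of least cardinality with
`∑_{j ∈ J} c_j x_j = 1` (`univ` is one). Then `J` is nonempty; `c_j ≠ 0` for `j ∈ J` (otherwise remove `j`), so
`i0 ∉ J`; and no nonempty `I ⊆ J` has `∑_I c_j x_j = 0` (otherwise `J \ I` is smaller). So the restriction
of `x` to `J` is `IsSol A (c restricted to J)` on the index type `{j // j ∈ J}` with `1 ≤ #J < m`:
there are at most `F #J` possibilities for it. Given this restriction `y`,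
`t = 1 - ∑_J a_j x_j = ∑_{i ∉ J} a_i x_i` is nonzero (no vanishing subsum of `x`; the complement is
nonempty), and the restriction of `x` to the complement is `IsSol A (a_i/t)` on `{i // i ∉ J}`, which has
`m - #J` elements: at most `F (m - #J)` possibilities. Sum over the at most `2^m` sets `J`
(`#S ≤ ∑_J #{x ∈ S : J(x) = J} ≤ ∑_J F #J * F (m - #J) ≤ 2^m Z`). Inner count: fibre over `y`
(`Finset.card_eq_sum_card_fiberwise`), the image set of the restrictions has `≤ F #J` elements and each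
fibre `≤ F (m-#J)` elements (restriction to the complement is injective on a fibre).
If `m = 0` then `b ≠ 0` is impossible; `m = 1`: `J` nonempty and `i0 ∉ J` impossible, so `S` is empty. -/
def StELIM : Prop := ∀ (A : Finset ℚˣ) (m : ℕ) (F : ℕ → ℝ) (Z : ℝ), 0 ≤ Z → (∀ j, 0 ≤ F j) →
  (∀ j, 1 ≤ j → j < m → Bd A j (F j)) → (∀ j, 1 ≤ j → j < m → F j * F (m - j) ≤ Z) →
  ∀ (ι : Type) [Fintype ι] (a : ι → ℚˣ) (b : ι → ℚ), Fintype.card ι = m → b ≠ 0 →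
  ∀ S : Finset (ι → ℚˣ), (∀ x ∈ S, IsSol A a x ∧ ∑ i, b i * (x i : ℚ) = 0) →
  (#S : ℝ) ≤ 2 ^ m * Z

/-- Module CL. Solutions whose height lies in one class of scales.
PROOF (from LEN, CLS, DIL, DET, LIN). Put `lam = 3^(m+1)`. For each `i` apply CLS (with `l = ell`,
`c = (a i)⁻¹`): `X_i ⊆ A`, `#X_i * #A ≤ 2 #(pw lam A * pw lam A * A) ≤ 2 Kd A^(4(m+1)+3) #A` by DIL
(`x ↦ x^3` is injective on `ℚˣ`), so `#X_i ≤ 2 Kd A^(4m+7)`; and every `y ∈ A` with `ell (a i * y) ≤ h2` has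
`ξ ∈ X_i` with `ell (y/ξ) ≤ σ := 6 h1/(lam - 2)` (`y / (a i)⁻¹ = y * a i`). Choose `ξ(x) ∈ ∏ X_i` for
each `x ∈ S`. It is enough to bound each fibre `S_ξ` by `Z`, because there are at most
`∏ #X_i ≤ (2 Kd A^(4m+7))^m` values of `ξ`. Let `k ↦ x^(k)` be any family (indexed by `ι`) of
elements of `S_ξ`. If its determinant were nonzero then DET and the hypothesis
`∃ i, h1 ≤ ell (a i * x i)` (for one of them) give `h1 ≤ log m! + m^2 * 6 h1/(3^(m+1) - 2)`. But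
`6 m^2 / (3^(m+1)-2) ≤ 24/25` for `m ≥ 2` (i.e. `150 m^2 + 48 ≤ 24 * 3^(m+1)`, equality at `m = 2`,
induction), so `h1/25 ≤ log m!`, a contradiction. So all determinants vanish and LIN gives `b ≠ 0` with
`∑ b_i x_i = 0` on `S_ξ`; the hypothesis on `Z` applies. -/
def StCL : Prop := ∀ m : ℕ, 2 ≤ m → ∀ A : Finset ℚˣ, A.Nonempty →
  ∀ (ι : Type) [Fintype ι] (a : ι → ℚˣ), Fintype.card ι = m → ∀ Z : ℝ, 0 ≤ Z →
  (∀ b : ι → ℚ, b ≠ 0 → ∀ S : Finset (ι → ℚˣ),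
    (∀ x ∈ S, IsSol A a x ∧ ∑ i, b i * (x i : ℚ) = 0) → (#S : ℝ) ≤ Z) →
  ∀ h1 h2 : ℝ, 0 < h1 → 25 * Real.log (m ! : ℝ) < h1 → h1 ≤ h2 →
  (V ell A (3 * h2) ≤ 2 * V ell A h1 ∨ h2 ≤ 3 / 2 * h1) →
  ∀ S : Finset (ι → ℚˣ),
  (∀ x ∈ S, IsSol A a x ∧ (∀ i, ell (a i * x i) ≤ h2) ∧ ∃ i, h1 ≤ ell (a i * x i)) →
  (#S : ℝ) ≤ (2 * Kd A ^ (4 * m + 7)) ^ m * Z

/-- Module REC. The recursion.
PROOF (from LEN, FH, SC, ELIM, CL). Let `h0 = 25 log m!` and `N0` from FH for `h0`, `N = N0^m`.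
Let `S` be a set of solutions (`IsSol A a x`), `h(x) = max_i ell (a i * x i)` (`Finset.sup'`, `ι` is
nonempty). The solutions with `h(x) ≤ h0`: `x ↦ (a i * x i)_i` is injective into the functions with values in
a set of at most `N0` units, so there are at most `N0^m` of them. The others have `h(x) > h0 ≥ 0`: apply SC
(`G = ℚˣ`, `l = ell`) with the function `h` and the bound `(2 Kd A^(4m+7))^m (2^m Z)`: a class `S'` with
bounds `h1` (attained, so `h1 > h0`), `h2` is bounded by CL, whose hypothesis on `Z` is ELIM (with `2^m Z`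
in place of `Z`). -/
def StREC : Prop := ∀ m : ℕ, 2 ≤ m → ∃ N : ℝ, 0 ≤ N ∧ ∀ A : Finset ℚˣ, A.Nonempty →
  ∀ (F : ℕ → ℝ) (Z : ℝ), 0 ≤ Z → (∀ j, 0 ≤ F j) →
  (∀ j, 1 ≤ j → j < m → Bd A j (F j)) → (∀ j, 1 ≤ j → j < m → F j * F (m - j) ≤ Z) →
  Bd A m (N + 4 * Ld A * ((2 * Kd A ^ (4 * m + 7)) ^ m * (2 ^ m * Z)))

/-- Module CX. Numerical facts about the exponents.
PROOF. `6 c_m = 8 m^3 + 33 m^2 + 25 m - 66` for `m ≥ 1` (induction). Everything follows: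
first claim: fix `m`; `c_j + c_(m-j)` is convex in `j`, equivalently by induction/`nlinarith` on
`6 c_m - 6 c_j - 6 c_(m-j) - 6 m(4m+7) = (with i = m-j) 24 i j m + 66 i j + 66 - 24 m^2 - 42 m`
which is `≥ 0` since `i j ≥ m - 1` for `i, j ≥ 1`, `i + j = m` (it equals 0 when `i j = m-1`).
Third claim: `6 c_(2k-1) = 64 k^3 + 36 k^2 - 34 k - 66 ≤ 72 k^3`. -/
def StCX : Prop := (∀ m j, 1 ≤ j → j < m → cexp j + cexp (m - j) + m * (4 * m + 7) ≤ cexp m) ∧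
  (∀ i j, i ≤ j → cexp i ≤ cexp j) ∧ (∀ k, 2 ≤ k → cexp (2 * k - 1) ≤ 12 * k ^ 3)

/-- Module F. Unit equation theorem for sets with few products.
PROOF (from REC, CX). Strong induction on `m`. `m = 1`: `a x = 1` has at most one solution, `C = 1`.
`m ≥ 2`: let `C_j` (`1 ≤ j < m`) be the constants, `C' ≥ 1` a common upper bound. With `K = Kd A ≥ 1`
(`#A ≤ #(A*A)`), `L = Ld A ≥ 1` put `F j = C' K^(c_j) L^(j-1)` for `1 ≤ j < m` (and 0 otherwise) and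
`Z = C'^2 K^(c_m - m(4m+7)) L^(m-2)`; CX gives `F j F (m-j) ≤ Z`. REC gives the bound
`N + 4 L (2 K^(4m+7))^m 2^m Z = N + 4 * 4^m C'^2 K^(c_m) L^(m-1) ≤ (N + 4^(m+1) C'^2) K^(c_m) L^(m-1)`. -/
def StF : Prop := ∀ m : ℕ, 1 ≤ m → ∃ C : ℝ, 0 < C ∧ ∀ A : Finset ℚˣ, A.Nonempty →
  Bd A m (C * Kd A ^ cexp m * Ld A ^ (m - 1))

/-- Module HOM. Homogeneous equations.
PROOF. Let `S` be a set of `z` with `IsMin A a z`, card `ι = s+1`, `s ≥ 1`; fix `i0 : ι`. Split `S`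
according to `z i0 ∈ A` (`#A` values). For fixed `z i0 = v` the restriction of `z` to `{i // i ≠ i0}` (card `s`)
is injective and is `IsSol A (fun i => - a i / (a i0 * v))`: the sum is `1`, and for a nonempty `I` not
containing `i0` the sum over `I` is nonzero by `IsMin` (`I ≠ univ`). So at most `N` for each `v`. -/
def StHOM : Prop := ∀ (A : Finset ℚˣ) (s : ℕ) (N : ℝ), 1 ≤ s → 0 ≤ N → Bd A s N →
  BM A (s + 1) (#A * N)

/-- Module BLK. Recursion for `IsRel`.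
PROOF. Let `S` be a set of `z` with `IsRel A a z`, card `ι = s ≥ 1`; fix `i0 : ι`. For `z ∈ S` let
`B = B(z)` be a subset of least cardinality with `i0 ∈ B` and `∑_B a_i z_i = 0` (`univ` is one). Then `3 ≤ #B ≤ s`.
No nonempty proper subset `I` of `B` vanishes: if `i0 ∈ I` it contradicts minimality, if `i0 ∉ I` then `B \ I`
vanishes, contains `i0` and is smaller. So the restriction of `z` to `{i // i ∈ B}` is `IsMin`, and the
restriction to the complement is `IsRel` (sum `0 - 0`; vanishing subsets have `≥ 3` elements). The pair of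
restrictions determines `z`, so for each `B` there are at most `M #B * D (s - #B) ≤ W` elements with `B(z) = B`
(the set of first restrictions has `≤ M #B` elements, the set of second ones `≤ D (s-#B)`), and there
are at most `2^s` sets `B`. -/
def StBLK : Prop := ∀ (A : Finset ℚˣ) (s : ℕ) (M D : ℕ → ℝ) (W : ℝ), 1 ≤ s → 0 ≤ W →
  (∀ b, 0 ≤ M b) → (∀ r, 0 ≤ D r) → (∀ b, 3 ≤ b → b ≤ s → BM A b (M b)) →
  (∀ b, 3 ≤ b → b ≤ s → BR A (s - b) (D (s - b))) →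
  (∀ b, 3 ≤ b → b ≤ s → M b * D (s - b) ≤ W) → BR A s (2 ^ s * W)

/-- Module DS. Number of relations all of whose vanishing subsums have at least three terms.
PROOF (from F, HOM, BLK, CX). Strong induction on `s ≥ 1` (with the convention for `s = 0`: `BR A 0 1`,
since a function on an empty type is unique; this is the same formula with `C = 1`). Let `C'≥1` be a common
upper bound of the constants of F for `m ≤ s` and of the constants for `r < s`. Put `n = #A ≥ 1`, `K = Kd A ≥ 1`,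
`L = Ld A ≥ 1`, `M b = n * C' K^(c_(b-1)) L^(b-2)` (F + HOM), `D r = C' n^(r/3) K^(c_(r-1)) L^(r-2)`. For
`3 ≤ b ≤ s`: `1 + (s-b)/3 ≤ s/3`, `c_(b-1) + c_(s-b-1) ≤ c_(s-1)` (CX; if `s - b ≤ 1` the second term is 0),
`(b-2) + (s-b-2) ≤ s-2`, so `M b * D (s-b) ≤ W := C'^2 n^(s/3) K^(c_(s-1)) L^(s-2)` and BLK gives the claim with
`C = 2^s C'^2`. -/
def StDS : Prop := ∀ s : ℕ, 1 ≤ s → ∃ C : ℝ, 0 < C ∧ ∀ A : Finset ℚˣ, A.Nonempty →
  BR A s (C * (#A : ℝ) ^ (s / 3) * Kd A ^ cexp (s - 1) * Ld A ^ (s - 2))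

/-- Module GOOD. Most `k`-subsets have no zero-sum subset.
PROOF. A `k`-subset `X ⊆ A` which is not good has a nonempty `Y ⊆ X` with sum 0. Choose `y0 ∈ Y`; then
`y0 = - ∑ (Y \ {y0})`, so `X` is determined by the `(k-1)`-subset `X' = X \ {y0}` of `A` and its subset
`Y' = Y \ {y0}`. So the number of bad `X` is at most `choose n (k-1) * 2^(k-1) ≤ 2^k n^(k-1)`
(`Nat.choose_le_pow`), by an injection `X ↦ (X', Y')` into a sigma type (or
`Finset.card_le_card_of_surjOn`). -/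
def StGOOD : Prop := ∀ k : ℕ, 1 ≤ k → ∀ (A : Finset ℤ) (T : Finset (Finset ℤ)),
  (∀ X, X ∈ T ↔ X ⊆ A ∧ good k X) →
  ((#A).choose k : ℝ) - 2 ^ k * (#A : ℝ) ^ (k - 1) ≤ #T

/-- Module SUMS. Distinct values.
PROOF. For each value `v ∈ T.image f` choose a representative; the elements `x ∈ T` which are not the
representative `ρ(f x)` are injected into `P` by `x ↦ (x, ρ(f x))`. So `#T - #(image) ≤ #P`. -/
def StSUMS : Prop := ∀ (α β : Type) [DecidableEq β] (T : Finset α) (f : α → β)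
  (P : Finset (α × α)), (∀ x ∈ T, ∀ y ∈ T, x ≠ y → f x = f y → (x, y) ∈ P) →
  (#T : ℝ) - #P ≤ #(T.image f)

/-- Module TOQ. Passage to `ℚˣ`.
PROOF. `(toU z : ℚ) = z` for `z ≠ 0`; so `toU` is injective on nonzero integers and
`toU (x y) = toU x * toU y` for nonzero `x, y`; `toQ A * toQ A = (A * A).image toU` and `0 ∉ A * A`. -/
def StTOQ : Prop := ∀ A : Finset ℤ, 0 ∉ A → #(toQ A) = #A ∧ #(toQ A * toQ A) = #(A * A) ∧
  ∀ z ∈ A, toU z ∈ toQ A ∧ ((toU z : ℚˣ) : ℚ) = z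

/-- Module COL. Number of colliding pairs of good `k`-subsets.
PROOF (from TOQ). Let `(X, Y) ∈ P`, `U = X \ Y`, `W = Y \ X`, `Z = X ∩ Y`. `#U = #W = j`, and
`1 ≤ j ≤ k` since `X ≠ Y` and `#X = #Y = k`; `∑ U = ∑ W`; `#Z = k - j`. Let `u, w : Fin j → ℤ` enumerate
`U`, `W` (e.g. `Finset.orderEmbOfFin`) and `z : Fin j ⊕ Fin j → ℚˣ`, `z (inl i) = toU (u i)`,
`z (inr i) = toU (w i)`. With the coefficients `a (inl i) = 1`, `a (inr i) = -1` we claim `IsRel (toQ A) a z`: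
the total sum is `∑ U - ∑ W = 0`; a vanishing subset `I` of one element is impossible (the entries are nonzero);
for two elements: `inl i, inl i'` would give `u i + u i' = 0`, a zero-sum subset `{u i, u i'}` of the good set
`X`; the same for `inr, inr` and `Y`; `inl i, inr i'` would give `u i = w i'` but `U`, `W` are disjoint.
The index type has `2 j` elements. `(X, Y)` is determined by `j`, `Z` (a subset of `A` with `k-j` elements:
at most `choose n (k-j) ≤ n^(k-j)` of them) and `z` (`X = Z ∪ range u`, `Y = Z ∪ range w`). So the number of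
pairs with given `j` is at most `n^(k-j) D j`. -/
def StCOL : Prop := ∀ (k : ℕ) (A : Finset ℤ), 0 ∉ A → ∀ D : ℕ → ℝ, (∀ j, 0 ≤ D j) →
  (∀ j, 1 ≤ j → j ≤ k → BR (toQ A) (2 * j) (D j)) →
  ∀ P : Finset (Finset ℤ × Finset ℤ),
  (∀ p ∈ P, p.1 ⊆ A ∧ p.2 ⊆ A ∧ good k p.1 ∧ good k p.2 ∧ p.1 ≠ p.2 ∧
    ∑ x ∈ p.1, x = ∑ y ∈ p.2, y) →
  (#P : ℝ) ≤ ∑ j ∈ Finset.Icc 1 k, (#A : ℝ) ^ (k - j) * D j

/-- Module CH. Binomial coefficients.
PROOF. `choose n' k ≥ (n'-k)^k / k!` (if `n' ≥ k`; use `Nat.pow_sub_le_descFactorial` or similar) and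
`(n - 1 - k)^k ≥ n^k - k (k+1) n^(k-1)` for `n ≥ k+1` (Bernoulli). For `n ≤ k + 1` the left side is `≤ 0` if
`C ≥ k + 1`. -/
def StCH : Prop := ∀ k : ℕ, 1 ≤ k → ∃ C : ℝ, 0 < C ∧ ∀ n n' : ℕ, n ≤ n' + 1 →
  (n : ℝ) ^ k / (k ! : ℝ) - C * (n : ℝ) ^ (k - 1) ≤ (n'.choose k : ℝ)

/-- Module FIN. The final theorem.
PROOF (from DS, GOOD, SUMS, TOQ, COL, CH, CX). Let `n = #A ≥ 2`, `A' = A.erase 0`, `n' = #A' ≥ n - 1 ≥ 1`,
`Q = toQ A'`. `#Q = n'`, `Kd Q = #(A' * A')/n' ≤ 2 #(A * A)/n` (`n' ≥ n/2`), `Kd Q ≥ 1`, and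
`1 ≤ Ld Q ≤ 1 + log_2 n ≤ 3 log n`. DS: `D j = C_j n'^(2j/3) (Kd Q)^(c_(2j-1)) (Ld Q)^(2j-2)`, and for
`1 ≤ j ≤ k`: `n'^(k-j) D j ≤ C_j n^(k-1) (Kd Q)^(12 k^3) (Ld Q)^(2k-2)` since `2j/3 ≤ j - 1` (natural division, `j ≥ 1`),
and `c_(2j-1) ≤ c_(2k-1) ≤ 12 k^3`. Let `T` be the set of good `k`-subsets of `A'`
(`(A'.powersetCard k).filter ..`), `f X = ∑ X`. `T.image f ⊆ ksum k A` (enumerate `X`). With SUMS, COL, GOOD, CH:
`#(ksum k A) ≥ #T - #P ≥ choose n' k - 2^k n'^(k-1) - C n^(k-1) K^(12k^3) (log n)^(2k-2)`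
`≥ n^k/k! - C' n^(k-1) K^(12 k^3) (log n)^(2k-2)`, where `K = #(A*A)/n ≥ 1/2`... note `K` may be `< 1` only if
`0 ∈ A`; `#(A*A) ≥ n` always holds for `n ≥ 2`: multiply by a nonzero element. And `log n ≥ log 2 > 0`, so the
terms `C n^(k-1)` are absorbed: `(log n)^(2k-2) ≥ (log 2)^(2k-2)`. -/
def StFIN : Prop := ∀ k : ℕ, 2 ≤ k → ∃ C : ℝ, 0 < C ∧ ∀ A : Finset ℤ, 2 ≤ #A →
  (#A : ℝ) ^ k / (k ! : ℝ) - C * ((#(A * A) : ℝ) / #A) ^ (12 * k ^ 3) * (#A : ℝ) ^ (k - 1) *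
    (Real.log #A) ^ (2 * k - 2) ≤ (#(ksum k A) : ℝ)

end Pool.Agent.Helper9.FU
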