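import Mathlib
import Pool.Agent.Helper9.FU.St

set_option autoImplicit false

namespace Pool.Agent.Helper9.FU

open Finset
open scoped Pointwise Nat

/-- the restriction to a minimal vanishing block is minimal -/
private theorem isMin_BLK {ι : Type} [Fintype ι] [DecidableEq ι] {A : Finset ℚˣ} {a z : ι → ℚˣ}
    (hz : IsRel A a z) {i0 : ι} {B : Finset ι} (hi : i0 ∈ B)
    (hB : ∑ i ∈ B, (a i : ℚ) * (z i : ℚ) = 0)
    (hmin : ∀ B' : Finset ι, i0 ∈ B' → ∑ i ∈ B', (a i : ℚ) * (z i : ℚ) = 0 → #B ≤ #B') :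
    IsMin A (fun i : {i // i ∈ B} => a i.1) (fun i : {i // i ∈ B} => z i.1) := by
  refine ⟨fun i => hz.1 i.1, ?_, ?_⟩
  · have h1 := Finset.sum_coe_sort B (fun i => (a i : ℚ) * (z i : ℚ))
    rw [hB] at h1
    exact h1
  · intro I hI hIu h0
    have hmap : ∑ i ∈ I.map (Function.Embedding.subtype _), (a i : ℚ) * (z i : ℚ) = 0 := by
      rw [Finset.sum_map]
      exact h0
    have hsub : I.map (Function.Embedding.subtype _) ⊆ B := by
      intro x hx
      obtain ⟨y, _, rfl⟩ := Finset.mem_map.1 hx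
      exact y.2
    have hlt : #I < #B := by
      have h1 := Finset.card_lt_univ_of_notMem (s := I)
        (Classical.not_forall.1 (fun h => hIu (Finset.eq_univ_iff_forall.2 h))).choose_spec
      rwa [Fintype.card_coe] at h1
    by_cases h1 : i0 ∈ I.map (Function.Embedding.subtype _)
    · have h2 := hmin _ h1 hmap
      rw [Finset.card_map] at h2
      omega
    · have h2 : ∑ i ∈ B \ I.map (Function.Embedding.subtype _), (a i : ℚ) * (z i : ℚ) = 0 := by
        have h3 := Finset.sum_sdiff (f := fun i => (a i : ℚ) * (z i : ℚ)) hsub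
        rw [hmap, hB, add_zero] at h3
        exact h3
      have h3 := hmin _ (Finset.mem_sdiff.2 ⟨hi, h1⟩) h2
      rw [Finset.card_sdiff_of_subset hsub, Finset.card_map] at h3
      have h4 := hI.card_pos
      omega

/-- the restriction to the complement of a vanishing block -/
private theorem isRel_BLK {ι : Type} [Fintype ι] [DecidableEq ι] {A : Finset ℚˣ} {a z : ι → ℚˣ}
    (hz : IsRel A a z) {B : Finset ι} (hB : ∑ i ∈ B, (a i : ℚ) * (z i : ℚ) = 0) :
    IsRel A (fun i : {i // i ∉ B} => a i.1) (fun i : {i // i ∉ B} => z i.1) := by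
  refine ⟨fun i => hz.1 i.1, ?_, ?_⟩
  · have h1 : ∑ i ∈ Bᶜ, (a i : ℚ) * (z i : ℚ) = ∑ i : {i // i ∉ B}, (a i : ℚ) * (z i : ℚ) :=
      Finset.sum_subtype Bᶜ (fun x => Finset.mem_compl) (fun i => (a i : ℚ) * (z i : ℚ))
    have h2 := Finset.sum_add_sum_compl B (fun i => (a i : ℚ) * (z i : ℚ))
    rw [hB, hz.2.1, zero_add] at h2
    rw [h1] at h2
    exact h2
  · intro I hI h0
    have hmap : ∑ i ∈ I.map (Function.Embedding.subtype _), (a i : ℚ) * (z i : ℚ) = 0 := by
      rw [Finset.sum_map]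
      exact h0
    have h1 := hz.2.2 (I.map (Function.Embedding.subtype _)) (hI.map) hmap
    rwa [Finset.card_map] at h1

theorem hBLK : StBLK := by
  classical
  intro A s M D W hs hW hM hD hBM hBR hMD ι _ a hι S hS
  obtain ⟨i0⟩ : Nonempty ι := Fintype.card_pos_iff.1 (by omega)
  have hB : ∀ z ∈ S, ∃ B : Finset ι, i0 ∈ B ∧ ∑ i ∈ B, (a i : ℚ) * (z i : ℚ) = 0 ∧
      ∀ B' : Finset ι, i0 ∈ B' → ∑ i ∈ B', (a i : ℚ) * (z i : ℚ) = 0 → #B ≤ #B' := by
    intro z hz
    obtain ⟨B, hB1, hB2⟩ := Finset.exists_min_image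
      ((univ : Finset (Finset ι)).filter (fun B => i0 ∈ B ∧ ∑ i ∈ B, (a i : ℚ) * (z i : ℚ) = 0))
      Finset.card ⟨univ, by
        rw [Finset.mem_filter]
        exact ⟨Finset.mem_univ _, Finset.mem_univ _, (hS z hz).2.1⟩⟩
    rw [Finset.mem_filter] at hB1
    exact ⟨B, hB1.2.1, hB1.2.2, fun B' h1 h2 =>
      hB2 B' (Finset.mem_filter.2 ⟨Finset.mem_univ _, h1, h2⟩)⟩
  choose! Bf hBf using hB
  have hcard := Finset.card_eq_sum_card_fiberwise (f := Bf) (s := S)
    (t := (univ : Finset (Finset ι))) (fun z _ => by simp)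
  have hfib : ∀ B ∈ (univ : Finset (Finset ι)), (#(S.filter (fun z => Bf z = B)) : ℝ) ≤ W := by
    intro B _
    rcases (S.filter (fun z => Bf z = B)).eq_empty_or_nonempty with h0 | ⟨z0, hz0⟩
    · rw [h0, Finset.card_empty, Nat.cast_zero]
      exact hW
    · have hmem : ∀ z ∈ S.filter (fun z => Bf z = B), z ∈ S ∧ i0 ∈ B ∧
          ∑ i ∈ B, (a i : ℚ) * (z i : ℚ) = 0 ∧
          ∀ B' : Finset ι, i0 ∈ B' → ∑ i ∈ B', (a i : ℚ) * (z i : ℚ) = 0 → #B ≤ #B' := by
        intro z hz
        obtain ⟨h1, h2⟩ := Finset.mem_filter.1 hz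
        have h3 := hBf z h1
        rw [h2] at h3
        exact ⟨h1, h3⟩
      obtain ⟨hzS, hi0, hsum, -⟩ := hmem z0 hz0
      have h3 : 3 ≤ #B := (hS z0 hzS).2.2 B ⟨i0, hi0⟩ hsum
      have hBs : #B ≤ s := by rw [← hι]; exact Finset.card_le_univ B
      have hc2 : Fintype.card {i // i ∉ B} = s - #B := by
        rw [Fintype.card_of_subtype Bᶜ (fun x => Finset.mem_compl), Finset.card_compl, hι]
      have hT1 := hBM #B h3 hBs {i // i ∈ B} (fun i => a i.1) (Fintype.card_coe B)
        ((S.filter (fun z => Bf z = B)).image (fun z => fun i : {i // i ∈ B} => z i.1)) (by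
          intro w hw
          obtain ⟨z, hz, rfl⟩ := Finset.mem_image.1 hw
          obtain ⟨h4, h5, h6, h7⟩ := hmem z hz
          exact isMin_BLK (hS z h4) h5 h6 h7)
      have hT2 := hBR #B h3 hBs {i // i ∉ B} (fun i => a i.1) hc2
        ((S.filter (fun z => Bf z = B)).image (fun z => fun i : {i // i ∉ B} => z i.1)) (by
          intro w hw
          obtain ⟨z, hz, rfl⟩ := Finset.mem_image.1 hw
          obtain ⟨h4, h5, h6, h7⟩ := hmem z hz
          exact isRel_BLK (hS z h4) h6)
      have hle := Finset.card_le_card_of_injOn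
        (s := S.filter (fun z => Bf z = B))
        (t := ((S.filter (fun z => Bf z = B)).image (fun z => fun i : {i // i ∈ B} => z i.1)) ×ˢ
          ((S.filter (fun z => Bf z = B)).image (fun z => fun i : {i // i ∉ B} => z i.1)))
        (fun z => (fun i : {i // i ∈ B} => z i.1, fun i : {i // i ∉ B} => z i.1))
        (by
          intro z hz
          exact Finset.mem_product.2 ⟨Finset.mem_image_of_mem _ hz, Finset.mem_image_of_mem _ hz⟩)
        (by
          intro z _ z' _ h
          have h4 := congrArg Prod.fst h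
          have h5 := congrArg Prod.snd h
          funext i
          by_cases hi : i ∈ B
          · exact congrFun h4 ⟨i, hi⟩
          · exact congrFun h5 ⟨i, hi⟩)
      rw [Finset.card_product] at hle
      have hle' : (#(S.filter (fun z => Bf z = B)) : ℝ) ≤
          (#((S.filter (fun z => Bf z = B)).image (fun z => fun i : {i // i ∈ B} => z i.1)) : ℝ) *
          (#((S.filter (fun z => Bf z = B)).image (fun z => fun i : {i // i ∉ B} => z i.1)) : ℝ) := by
        exact_mod_cast hle
      exact hle'.trans ((mul_le_mul hT1 hT2 (Nat.cast_nonneg _) (hM _)).trans (hMD #B h3 hBs))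
  rw [hcard]
  push_cast
  refine (Finset.sum_le_sum hfib).trans ?_
  rw [Finset.sum_const, nsmul_eq_mul, Finset.card_univ, Fintype.card_finset, hι]
  push_cast
  exact le_refl _

end Pool.Agent.Helper9.FU
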