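import Mathlib
import Pool.Agent.Helper9.FU.St

set_option autoImplicit false

/-! Module CH of project FU. -/

namespace Pool.Agent.Helper9.FU

open Finset
open scoped Pointwise Nat

theorem hCH : StCH := by
  intro k hk
  refine ⟨(k : ℝ) ^ 2 + k + 1, by positivity, fun n n' hn => ?_⟩
  have hfac : (1 : ℝ) ≤ (k ! : ℝ) := by exact_mod_cast Nat.succ_le_of_lt (Nat.factorial_pos k)
  have hfac0 : (0 : ℝ) < (k ! : ℝ) := by linarith
  have hn0 : (0 : ℝ) ≤ n := Nat.cast_nonneg n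
  have hk0 : (0 : ℝ) ≤ k := Nat.cast_nonneg k
  have hpk : (n : ℝ) ^ k = n * (n : ℝ) ^ (k - 1) := by
    rw [← pow_succ']
    congr 1
    omega
  have hp0 : (0 : ℝ) ≤ (n : ℝ) ^ (k - 1) := by positivity
  rcases Nat.lt_or_ge (k + 1) n with h | h
  · -- large `n`
    have hkn : k ≤ n := by omega
    have hn1 : (0 : ℝ) < n := by
      have : 0 < n := by omega
      exact_mod_cast this
    have h1 : (n - k) ^ k ≤ n'.descFactorial k :=
      le_trans (Nat.pow_le_pow_left (by omega) k) (Nat.pow_sub_le_descFactorial n' k)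
    have h2 : ((n : ℝ) - k) ^ k ≤ (n'.descFactorial k : ℝ) := by
      have : (((n - k) ^ k : ℕ) : ℝ) ≤ (n'.descFactorial k : ℝ) := by exact_mod_cast h1
      rwa [Nat.cast_pow, Nat.cast_sub hkn] at this
    have h3 : (n'.descFactorial k : ℝ) = (k ! : ℝ) * (n'.choose k : ℝ) := by
      exact_mod_cast Nat.descFactorial_eq_factorial_mul_choose n' k
    have hkn' : (k : ℝ) / n ≤ 1 := by
      rw [div_le_one hn1]
      exact_mod_cast hkn
    have h4 : 1 + (k : ℝ) * (-(k / n)) ≤ (1 + (-((k : ℝ) / n))) ^ k :=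
      one_add_mul_le_pow (by linarith) k
    have h5 : (n : ℝ) ^ k - k ^ 2 * (n : ℝ) ^ (k - 1) ≤ ((n : ℝ) - k) ^ k := by
      have e1 : ((n : ℝ) - k) ^ k = (n : ℝ) ^ k * (1 + (-((k : ℝ) / n))) ^ k := by
        rw [← mul_pow]
        congr 1
        field_simp
        ring
      have e2 : (n : ℝ) ^ k - k ^ 2 * (n : ℝ) ^ (k - 1) =
          (n : ℝ) ^ k * (1 + (k : ℝ) * (-(k / n))) := by
        rw [hpk]
        field_simp
        ring
      rw [e1, e2]
      exact mul_le_mul_of_nonneg_left h4 (by positivity)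
    have h6 : ((n : ℝ) ^ k - k ^ 2 * (n : ℝ) ^ (k - 1)) / (k ! : ℝ) ≤ (n'.choose k : ℝ) := by
      rw [div_le_iff₀ hfac0]
      linarith [h5, h2, h3, mul_comm (k ! : ℝ) (n'.choose k : ℝ)]
    have h7 : (k : ℝ) ^ 2 * (n : ℝ) ^ (k - 1) / (k ! : ℝ) ≤
        ((k : ℝ) ^ 2 + k + 1) * (n : ℝ) ^ (k - 1) := by
      refine (div_le_self (by positivity) hfac).trans ?_
      refine mul_le_mul_of_nonneg_right ?_ hp0
      linarith
    rw [sub_div] at h6
    linarith
  · have h1 : (n : ℝ) ^ k / (k ! : ℝ) ≤ ((k : ℝ) ^ 2 + k + 1) * (n : ℝ) ^ (k - 1) := by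
      refine (div_le_self (by positivity) hfac).trans ?_
      rw [hpk]
      refine mul_le_mul_of_nonneg_right ?_ hp0
      have : (n : ℝ) ≤ k + 1 := by exact_mod_cast h
      nlinarith [sq_nonneg (k : ℝ)]
    have h2 : (0 : ℝ) ≤ (n'.choose k : ℝ) := Nat.cast_nonneg _
    linarith

end Pool.Agent.Helper9.FU
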