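import Mathlib
import Pool.Agent.Helper9.FU.St

/-!
# Project FU (MP_cc0731_co), module CL (helper45): solutions whose height lies in one class of scales
-/

set_option autoImplicit false

namespace Pool.Agent.Helper9.FU

open Finset
open scoped Pointwise Nat

theorem num_CL (m : ℕ) (hm : 2 ≤ m) : 150 * m ^ 2 + 48 ≤ 24 * 3 ^ (m + 1) := by
  induction m, hm using Nat.le_induction with
  | base => norm_num
  | succ n hn ih =>
    have h1 : 24 * 3 ^ (n + 1 + 1) = 3 * (24 * 3 ^ (n + 1)) := by ring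
    rw [h1]
    nlinarith

theorem cube_inj_CL : Function.Injective (fun x : ℚˣ => x ^ 3) := by
  intro x y hxy
  have h : (x : ℚ) ^ 3 = (y : ℚ) ^ 3 := by
    have := congrArg (fun u : ℚˣ => (u : ℚ)) hxy
    simpa using this
  have h3 : Odd 3 := by decide
  exact Units.ext (h3.strictMono_pow.injective h)

theorem hCL (hLEN : StLEN) (hCLS : StCLS) (hDIL : StDIL) (hDET : StDET) (hLIN : StLIN) : StCL := by
  intro m hm A hA ι _ a hcard Z hZ hZb h1 h2 hh1 hh1' hh12 hcase S hS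
  classical
  have hι : Nonempty ι := by
    rw [← Fintype.card_pos_iff, hcard]
    omega
  have hA0 : (0 : ℝ) < #A := by exact_mod_cast hA.card_pos
  set lam : ℕ := 3 ^ (m + 1) with hlam
  have hlam3 : 3 ≤ lam := by
    calc 3 = 3 ^ 1 := by norm_num
      _ ≤ 3 ^ (m + 1) := Nat.pow_le_pow_right (by norm_num) (by omega)
  have hlamR : (3 : ℝ) ≤ (lam : ℝ) := by exact_mod_cast hlam3
  set σ : ℝ := 6 * h1 / ((lam : ℝ) - 2) with hσ
  have hdil : (#(pw lam A * pw lam A * A) : ℝ) ≤ Kd A ^ (4 * m + 7) * #A := by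
    have := hDIL ℚˣ cube_inj_CL A hA (m + 1) (by omega)
    have he : 4 * (m + 1) + 3 = 4 * m + 7 := by ring
    rw [he] at this
    exact this
  have hcov : ∀ i : ι, ∃ X ⊆ A, (#X : ℝ) ≤ 2 * Kd A ^ (4 * m + 7) ∧
      ∀ y ∈ A, ell (a i * y) ≤ h2 → ∃ x ∈ X, ell (y / x) ≤ σ := by
    intro i
    obtain ⟨X, hXA, hX1, hX2⟩ := hCLS ℚˣ ell hLEN A hA lam hlam3 h1 h2 hh1 hh12 hcase (a i)⁻¹
    refine ⟨X, hXA, ?_, ?_⟩
    · have h3 : (#X : ℝ) * #A ≤ (2 * Kd A ^ (4 * m + 7)) * #A := by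
        calc (#X : ℝ) * #A ≤ 2 * #(pw lam A * pw lam A * A) := hX1
          _ ≤ 2 * (Kd A ^ (4 * m + 7) * #A) := by linarith
          _ = (2 * Kd A ^ (4 * m + 7)) * #A := by ring
      exact le_of_mul_le_mul_right h3 hA0
    · intro y hy hyh
      refine hX2 y hy ?_
      have : y / (a i)⁻¹ = a i * y := by rw [div_inv_eq_mul, mul_comm]
      rw [this]
      exact hyh
  choose X hXA hXc hXcov using hcov
  have hξ : ∀ x : ι → ℚˣ, ∃ ξ : ι → ℚˣ, x ∈ S → ∀ i, ξ i ∈ X i ∧ ell (x i / ξ i) ≤ σ := by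
    intro x
    by_cases hx : x ∈ S
    · have hx' := hS x hx
      have : ∀ i, ∃ z, z ∈ X i ∧ ell (x i / z) ≤ σ := fun i =>
        (hXcov i (x i) (hx'.1.1 i) (hx'.2.1 i))
      choose z hz using this
      exact ⟨z, fun _ => hz⟩
    · exact ⟨x, fun h => absurd h hx⟩
  choose ξ hξ' using hξ
  have hmaps : ∀ x ∈ S, ξ x ∈ Fintype.piFinset X := by
    intro x hx
    rw [Fintype.mem_piFinset]
    exact fun i => (hξ' x hx i).1
  have hfib : ∀ η ∈ Fintype.piFinset X, ((#{x ∈ S | ξ x = η} : ℕ) : ℝ) ≤ Z := by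
    intro η _
    set T : Set (ι → ℚ) := (fun (x : ι → ℚˣ) (i : ι) => (x i : ℚ)) '' {x | x ∈ S ∧ ξ x = η} with hT
    obtain ⟨b, hb0, hb⟩ := hLIN ι T (by
      intro f hf
      by_contra hdet
      have hf' : ∀ k, ∃ x : ι → ℚˣ, (x ∈ S ∧ ξ x = η) ∧ (fun i => (x i : ℚ)) = f k := by
        intro k
        obtain ⟨x, hx, hxf⟩ := hf k
        exact ⟨x, hx, hxf⟩
      choose x hx hxf using hf'
      have hfx : (Matrix.of fun k i => (x k i : ℚ)) = Matrix.of f := by
        ext k i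
        have := congrFun (hxf k) i
        simpa using this
      have hD := hDET ι a x η σ (fun k i => by
        have := (hξ' (x k) (hx k).1 i).2
        rwa [(hx k).2] at this) (fun k => (hS (x k) (hx k).1).1.2.1) (by rwa [hfx])
      obtain ⟨k0⟩ := hι
      obtain ⟨i0, hi0⟩ := (hS (x k0) (hx k0).1).2.2
      have h3 := hD k0 i0
      rw [hcard] at h3
      have h4 : h1 ≤ Real.log (m ! : ℝ) + (m : ℝ) ^ 2 * σ := le_trans hi0 h3
      have hnum : (150 : ℝ) * (m : ℝ) ^ 2 + 48 ≤ 24 * (lam : ℝ) := by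
        have := num_CL m hm
        rw [hlam]
        exact_mod_cast this
      have h5 : (m : ℝ) ^ 2 * σ ≤ 24 / 25 * h1 := by
        rw [hσ]
        have hl2 : (0 : ℝ) < (lam : ℝ) - 2 := by linarith
        rw [← mul_div_assoc, div_le_iff₀ hl2]
        nlinarith
      linarith)
    refine hZb b hb0 _ ?_
    intro x hx
    rw [Finset.mem_filter] at hx
    refine ⟨(hS x hx.1).1, ?_⟩
    exact hb (fun i => (x i : ℚ)) ⟨x, hx, rfl⟩
  have hcount : (#S : ℝ) = ∑ η ∈ Fintype.piFinset X, ((#{x ∈ S | ξ x = η} : ℕ) : ℝ) := by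
    rw [Finset.card_eq_sum_card_fiberwise (f := ξ) (t := Fintype.piFinset X) (by
      intro x hx
      exact hmaps x (by simpa using hx))]
    push_cast
    rfl
  have hprod : ((#(Fintype.piFinset X) : ℕ) : ℝ) ≤ (2 * Kd A ^ (4 * m + 7)) ^ m := by
    rw [Fintype.card_piFinset]
    push_cast
    calc ∏ i, (#(X i) : ℝ) ≤ ∏ _i : ι, (2 * Kd A ^ (4 * m + 7)) :=
          Finset.prod_le_prod (fun i _ => Nat.cast_nonneg _) (fun i _ => hXc i)
      _ = (2 * Kd A ^ (4 * m + 7)) ^ m := by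
          rw [Finset.prod_const, Finset.card_univ, hcard]
  calc (#S : ℝ) = ∑ η ∈ Fintype.piFinset X, ((#{x ∈ S | ξ x = η} : ℕ) : ℝ) := hcount
    _ ≤ ∑ _η ∈ Fintype.piFinset X, Z := Finset.sum_le_sum hfib
    _ = (#(Fintype.piFinset X) : ℝ) * Z := by rw [Finset.sum_const, nsmul_eq_mul]
    _ ≤ (2 * Kd A ^ (4 * m + 7)) ^ m * Z := mul_le_mul_of_nonneg_right hprod hZ

end Pool.Agent.Helper9.FU
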