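import Mathlib
import Pool.Agent.Helper9.FU.St

set_option autoImplicit false

/-! Project FU, module CLS: covers for a class of radii. -/

namespace Pool.Agent.Helper9.FU

open Finset
open scoped Pointwise Nat

private theorem ball_diam_CLS {G : Type} [CommGroup G] {l : G → ℝ} (hl : IsLen l) (A : Finset G)
    (c : G) (r : ℝ) : ∀ b ∈ ball l A c r, ∀ b' ∈ ball l A c r, l (b / b') ≤ 2 * r := by
  intro b hb b' hb'
  have h1 : l (b / c) ≤ r := (mem_filter.1 hb).2
  have h2 : l (b' / c) ≤ r := (mem_filter.1 hb').2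
  have h3 : b / b' = (b / c) * (b' / c)⁻¹ := by
    rw [inv_div, div_mul_div_cancel]
  have h4 := hl.mul (b / c) (b' / c)⁻¹
  rw [hl.inv] at h4
  rw [h3]
  linarith

theorem hCLS (hVB : StVB) (hCOV : StCOV) : StCLS := by
  intro G _ _ l hl A hA lam hlam h1 h2 h10 h12 hV c
  obtain ⟨hb1, hb2, hb3, -, hb5⟩ := hVB G l hl A
  have hlamR : (3 : ℝ) ≤ lam := by exact_mod_cast hlam
  have hlam0 : (0 : ℝ) < lam := by linarith
  have hlam2 : (0 : ℝ) < (lam : ℝ) - 2 := by linarith
  rcases hV with hV | hV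
  · obtain ⟨c0, hc0⟩ := hb2 h1
    have hBne : (ball l A c0 h1).Nonempty := by
      rw [← card_pos, hc0]
      exact hb5 hA h1 h10.le
    obtain ⟨X, hXA, hX1, hX2⟩ := hCOV G l hl A (ball l A c0 h1) (filter_subset _ _) hBne c h2 h1 2
      lam (by linarith) h10.le (by omega) (ball_diam_CLS hl A c0 h1) (fun a _ => by
        have h3 : 2 * h2 + 2 * h1 / lam ≤ 3 * h2 := by
          have h4 : 2 * h1 / lam ≤ h1 := by
            rw [div_le_iff₀ hlam0]
            nlinarith
          linarith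
        have h4 : #(ball l A a (2 * h2 + 2 * h1 / lam)) ≤ 2 * #(ball l A c0 h1) := by
          rw [hc0]
          exact le_trans (hb1 _ a) (le_trans (hb3 _ _ h3) hV)
        exact_mod_cast h4)
    refine ⟨X, hXA, hX1, fun y hy hyc => ?_⟩
    obtain ⟨x, hx, hxy⟩ := hX2 y hy hyc
    refine ⟨x, hx, le_trans hxy ?_⟩
    rw [div_le_div_iff₀ hlam0 hlam2]
    nlinarith
  · set ρ : ℝ := 2 * lam * h2 / (lam - 2) with hρ
    have h20 : 0 < h2 := by linarith
    have hρ0 : 0 < ρ := by positivity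
    have hρe : 2 * h2 + 2 * ρ / lam = ρ := by
      rw [hρ]
      field_simp
      ring
    obtain ⟨c0, hc0⟩ := hb2 ρ
    have hBne : (ball l A c0 ρ).Nonempty := by
      rw [← card_pos, hc0]
      exact hb5 hA ρ hρ0.le
    obtain ⟨X, hXA, hX1, hX2⟩ := hCOV G l hl A (ball l A c0 ρ) (filter_subset _ _) hBne c h2 ρ 1
      lam h20.le hρ0.le (by omega) (ball_diam_CLS hl A c0 ρ) (fun a _ => by
        rw [hρe, one_mul, hc0]
        exact_mod_cast hb1 ρ a)
    refine ⟨X, hXA, ?_, fun y hy hyc => ?_⟩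
    · have h3 : (0 : ℝ) ≤ #(pw lam A * pw lam A * A) := Nat.cast_nonneg _
      linarith
    · obtain ⟨x, hx, hxy⟩ := hX2 y hy hyc
      refine ⟨x, hx, le_trans hxy ?_⟩
      have h3 : 2 * ρ / lam = 4 * h2 / (lam - 2) := by
        rw [hρ]
        field_simp
        ring
      rw [h3]
      exact div_le_div_of_nonneg_right (by linarith) hlam2.le

end Pool.Agent.Helper9.FU
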