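import Mathlib
import Pool.Agent.Helper9.FU.St

set_option autoImplicit false

namespace Pool.Agent.Helper9.FU

open Finset
open scoped Pointwise Nat

/-- enumeration of a finite set with `j` elements -/
noncomputable def en_COL (j : ℕ) (U : Finset ℤ) : Fin j → ℤ :=
  if h : #U = j then fun i => U.orderEmbOfFin h i else fun _ => 0

theorem en_inj_COL {j : ℕ} {U : Finset ℤ} (h : #U = j) : Function.Injective (en_COL j U) := by
  unfold en_COL
  rw [dif_pos h]
  exact (U.orderEmbOfFin h).injective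

theorem en_mem_COL {j : ℕ} {U : Finset ℤ} (h : #U = j) (i : Fin j) : en_COL j U i ∈ U := by
  unfold en_COL
  rw [dif_pos h]
  exact orderEmbOfFin_mem U h i

theorem en_image_COL {j : ℕ} {U : Finset ℤ} (h : #U = j) : univ.image (en_COL j U) = U := by
  apply eq_of_subset_of_card_le
  · intro x hx
    rw [mem_image] at hx
    obtain ⟨i, _, rfl⟩ := hx
    exact en_mem_COL h i
  · rw [card_image_of_injective _ (en_inj_COL h), card_univ, Fintype.card_fin, h]

theorem en_sum_COL {j : ℕ} {U : Finset ℤ} (h : #U = j) :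
    ∑ i, ((en_COL j U i : ℤ) : ℚ) = ((∑ u ∈ U, u : ℤ) : ℚ) := by
  conv_rhs => rw [← en_image_COL h]
  rw [sum_image (fun x _ y _ hxy => en_inj_COL h hxy)]
  push_cast
  rfl

theorem toU_coe_COL {z : ℤ} (h : z ≠ 0) : ((toU z : ℚˣ) : ℚ) = z := by
  have h' : (z : ℚ) ≠ 0 := by exact_mod_cast h
  unfold toU
  rw [dif_pos h']
  rfl

/-- the relation attached to a pair -/
noncomputable def zf_COL (j : ℕ) (p : Finset ℤ × Finset ℤ) : Fin j ⊕ Fin j → ℚˣ :=
  Sum.elim (fun i => toU (en_COL j (p.1 \ p.2) i)) (fun i => toU (en_COL j (p.2 \ p.1) i))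

/-- the coefficients -/
def af_COL (j : ℕ) : Fin j ⊕ Fin j → ℚˣ := Sum.elim (fun _ => 1) (fun _ => -1)

theorem rel_COL (hTOQ : StTOQ) (k : ℕ) (A : Finset ℤ) (hA : 0 ∉ A) (j : ℕ)
    (p : Finset ℤ × Finset ℤ) (h1 : p.1 ⊆ A) (h2 : p.2 ⊆ A) (g1 : good k p.1) (g2 : good k p.2)
    (hs : ∑ x ∈ p.1, x = ∑ y ∈ p.2, y) (hU : #(p.1 \ p.2) = j) (hW : #(p.2 \ p.1) = j) :
    IsRel (toQ A) (af_COL j) (zf_COL j p) := by
  classical
  have mU : ∀ i, en_COL j (p.1 \ p.2) i ∈ p.1 \ p.2 := en_mem_COL hU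
  have mW : ∀ i, en_COL j (p.2 \ p.1) i ∈ p.2 \ p.1 := en_mem_COL hW
  have aU : ∀ i, en_COL j (p.1 \ p.2) i ∈ A := fun i => h1 (mem_sdiff.1 (mU i)).1
  have aW : ∀ i, en_COL j (p.2 \ p.1) i ∈ A := fun i => h2 (mem_sdiff.1 (mW i)).1
  have nU : ∀ i, en_COL j (p.1 \ p.2) i ≠ 0 := fun i h => hA (h ▸ aU i)
  have nW : ∀ i, en_COL j (p.2 \ p.1) i ≠ 0 := fun i h => hA (h ▸ aW i)
  have vl : ∀ i, ((af_COL j (Sum.inl i) : ℚˣ) : ℚ) * ((zf_COL j p (Sum.inl i) : ℚˣ) : ℚ) =
      ((en_COL j (p.1 \ p.2) i : ℤ) : ℚ) := by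
    intro i
    simp only [af_COL, zf_COL, Sum.elim_inl]
    rw [toU_coe_COL (nU i)]
    simp
  have vr : ∀ i, ((af_COL j (Sum.inr i) : ℚˣ) : ℚ) * ((zf_COL j p (Sum.inr i) : ℚˣ) : ℚ) =
      - ((en_COL j (p.2 \ p.1) i : ℤ) : ℚ) := by
    intro i
    simp only [af_COL, zf_COL, Sum.elim_inr]
    rw [toU_coe_COL (nW i)]
    simp
  refine ⟨?_, ?_, ?_⟩
  · intro i
    cases i with
    | inl i => exact ((hTOQ A hA).2.2 _ (aU i)).1
    | inr i => exact ((hTOQ A hA).2.2 _ (aW i)).1
  · rw [Fintype.sum_sum_type, sum_congr rfl (fun i _ => vl i), sum_congr rfl (fun i _ => vr i),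
      sum_neg_distrib, en_sum_COL hU, en_sum_COL hW]
    have e1 : ∑ x ∈ p.1 \ p.2, x + ∑ x ∈ p.1 ∩ p.2, x = ∑ x ∈ p.1, x := by
      rw [← sum_union (disjoint_sdiff_inter p.1 p.2), sdiff_union_inter]
    have e2 : ∑ x ∈ p.2 \ p.1, x + ∑ x ∈ p.2 ∩ p.1, x = ∑ x ∈ p.2, x := by
      rw [← sum_union (disjoint_sdiff_inter p.2 p.1), sdiff_union_inter]
    have e3 : ∑ x ∈ p.1 \ p.2, x = ∑ x ∈ p.2 \ p.1, x := by
      rw [inter_comm p.2 p.1] at e2
      linarith
    rw [e3]
    ring
  · intro I hI h0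
    by_contra hlt
    have hc : #I = 1 ∨ #I = 2 := by
      have := hI.card_pos
      omega
    rcases hc with hc | hc
    · obtain ⟨i, rfl⟩ := card_eq_one.1 hc
      rw [sum_singleton] at h0
      exact (mul_ne_zero (Units.ne_zero _) (Units.ne_zero _)) h0
    · obtain ⟨i, i', hne, rfl⟩ := card_eq_two.1 hc
      rw [sum_pair hne] at h0
      cases i with
      | inl i =>
        cases i' with
        | inl i' =>
          rw [vl, vl] at h0
          have hne' : en_COL j (p.1 \ p.2) i ≠ en_COL j (p.1 \ p.2) i' := by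
            intro h
            exact hne (congrArg Sum.inl (en_inj_COL hU h))
          refine g1.2 {en_COL j (p.1 \ p.2) i, en_COL j (p.1 \ p.2) i'} ?_ ⟨_, mem_insert_self _ _⟩ ?_
          · intro x hx
            rw [mem_insert, mem_singleton] at hx
            rcases hx with rfl | rfl
            · exact (mem_sdiff.1 (mU i)).1
            · exact (mem_sdiff.1 (mU i')).1
          · rw [sum_pair hne']
            exact_mod_cast h0
        | inr i' =>
          rw [vl, vr] at h0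
          have h3 : en_COL j (p.1 \ p.2) i = en_COL j (p.2 \ p.1) i' := by
            have : ((en_COL j (p.1 \ p.2) i : ℤ) : ℚ) = ((en_COL j (p.2 \ p.1) i' : ℤ) : ℚ) := by
              linarith
            exact_mod_cast this
          have h4 := (mem_sdiff.1 (mU i)).2
          rw [h3] at h4
          exact h4 (mem_sdiff.1 (mW i')).1
      | inr i =>
        cases i' with
        | inl i' =>
          rw [vl, vr] at h0
          have h3 : en_COL j (p.1 \ p.2) i' = en_COL j (p.2 \ p.1) i := by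
            have : ((en_COL j (p.1 \ p.2) i' : ℤ) : ℚ) = ((en_COL j (p.2 \ p.1) i : ℤ) : ℚ) := by
              linarith
            exact_mod_cast this
          have h4 := (mem_sdiff.1 (mU i')).2
          rw [h3] at h4
          exact h4 (mem_sdiff.1 (mW i)).1
        | inr i' =>
          rw [vr, vr] at h0
          have hne' : en_COL j (p.2 \ p.1) i ≠ en_COL j (p.2 \ p.1) i' := by
            intro h
            exact hne (congrArg Sum.inr (en_inj_COL hW h))
          refine g2.2 {en_COL j (p.2 \ p.1) i, en_COL j (p.2 \ p.1) i'} ?_ ⟨_, mem_insert_self _ _⟩ ?_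
          · intro x hx
            rw [mem_insert, mem_singleton] at hx
            rcases hx with rfl | rfl
            · exact (mem_sdiff.1 (mW i)).1
            · exact (mem_sdiff.1 (mW i')).1
          · rw [sum_pair hne']
            have : ((en_COL j (p.2 \ p.1) i : ℤ) : ℚ) + ((en_COL j (p.2 \ p.1) i' : ℤ) : ℚ) = 0 := by
              linarith
            exact_mod_cast this

theorem hCOL (hTOQ : StTOQ) : StCOL := by
  intro k A hA D hD hBR P hP
  classical
  -- the sizes of the two differences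
  have hcard : ∀ p ∈ P, #(p.1 \ p.2) = #(p.2 \ p.1) ∧ #(p.1 ∩ p.2) = k - #(p.1 \ p.2) ∧
      1 ≤ #(p.1 \ p.2) ∧ #(p.1 \ p.2) ≤ k := by
    intro p hp
    obtain ⟨_, _, g1, g2, hne, _⟩ := hP p hp
    have c1 := card_sdiff_add_card_inter p.1 p.2
    have c2 := card_sdiff_add_card_inter p.2 p.1
    rw [inter_comm p.2 p.1] at c2
    have k1 := g1.1
    have k2 := g2.1
    have hpos : 1 ≤ #(p.1 \ p.2) := by
      by_contra hlt
      have h0 : #(p.1 \ p.2) = 0 := by omega
      have h0' : #(p.2 \ p.1) = 0 := by omega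
      rw [card_eq_zero, sdiff_eq_empty_iff_subset] at h0 h0'
      exact hne (subset_antisymm h0 h0')
    refine ⟨by omega, by omega, hpos, by omega⟩
  have hfib : #P = ∑ j ∈ Icc 1 k, #(P.filter (fun p => #(p.1 \ p.2) = j)) := by
    apply card_eq_sum_card_fiberwise
    intro p hp
    obtain ⟨_, _, h3, h4⟩ := hcard p hp
    exact mem_coe.2 (mem_Icc.2 ⟨h3, h4⟩)
  rw [hfib]
  push_cast
  apply sum_le_sum
  intro j hj
  rw [mem_Icc] at hj
  set Pj := P.filter (fun p => #(p.1 \ p.2) = j) with hPj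
  have hmem : ∀ p ∈ Pj, p ∈ P ∧ #(p.1 \ p.2) = j := fun p hp => mem_filter.1 hp
  -- the set of relations
  have hrel : ∀ z ∈ Pj.image (zf_COL j), IsRel (toQ A) (af_COL j) z := by
    intro z hz
    rw [mem_image] at hz
    obtain ⟨p, hp, rfl⟩ := hz
    obtain ⟨hpP, hpj⟩ := hmem p hp
    obtain ⟨h1, h2, g1, g2, _, hs⟩ := hP p hpP
    obtain ⟨h3, _⟩ := hcard p hpP
    exact rel_COL hTOQ k A hA j p h1 h2 g1 g2 hs hpj (by omega)
  have hS : (#(Pj.image (zf_COL j)) : ℝ) ≤ D j := by
    refine hBR j hj.1 hj.2 (Fin j ⊕ Fin j) (af_COL j) ?_ _ hrel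
    rw [Fintype.card_sum, Fintype.card_fin]
    ring
  have hinj : #Pj ≤ #((A.powersetCard (k - j)) ×ˢ (Pj.image (zf_COL j))) := by
    apply card_le_card_of_injOn (fun p => (p.1 ∩ p.2, zf_COL j p))
    · intro p hp
      have hp' : p ∈ Pj := hp
      obtain ⟨hpP, hpj⟩ := hmem p hp'
      obtain ⟨h1, _⟩ := hP p hpP
      obtain ⟨_, h4, _⟩ := hcard p hpP
      rw [mem_coe, mem_product]
      refine ⟨?_, mem_image_of_mem _ hp'⟩
      rw [mem_powersetCard]
      refine ⟨inter_subset_left.trans h1, ?_⟩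
      simp only
      omega
    · intro p hp q hq hpq
      have hp' : p ∈ Pj := hp
      have hq' : q ∈ Pj := hq
      obtain ⟨hpP, hpj⟩ := hmem p hp'
      obtain ⟨hqP, hqj⟩ := hmem q hq'
      obtain ⟨a1, a2, _⟩ := hP p hpP
      obtain ⟨b1, b2, _⟩ := hP q hqP
      obtain ⟨c3, _⟩ := hcard p hpP
      obtain ⟨d3, _⟩ := hcard q hqP
      have hpj' : #(p.2 \ p.1) = j := by omega
      have hqj' : #(q.2 \ q.1) = j := by omega
      simp only [Prod.mk.injEq] at hpq
      obtain ⟨hZ, hz⟩ := hpq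
      have val : ∀ (U V : Finset ℤ), U ⊆ A → V ⊆ A → #U = j → #V = j →
          (∀ i, toU (en_COL j U i) = toU (en_COL j V i)) → U = V := by
        intro U V hU hV cU cV hUV
        rw [← en_image_COL cU, ← en_image_COL cV]
        congr 1
        funext i
        have n1 : en_COL j U i ≠ 0 := fun h => hA (h ▸ hU (en_mem_COL cU i))
        have n2 : en_COL j V i ≠ 0 := fun h => hA (h ▸ hV (en_mem_COL cV i))
        have h5 : ((toU (en_COL j U i) : ℚˣ) : ℚ) = ((toU (en_COL j V i) : ℚˣ) : ℚ) := by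
          rw [hUV i]
        rw [toU_coe_COL n1, toU_coe_COL n2] at h5
        exact_mod_cast h5
      have e1 : p.1 \ p.2 = q.1 \ q.2 := by
        apply val _ _ (sdiff_subset.trans a1) (sdiff_subset.trans b1) hpj hqj
        intro i
        exact congrFun hz (Sum.inl i)
      have e2 : p.2 \ p.1 = q.2 \ q.1 := by
        apply val _ _ (sdiff_subset.trans a2) (sdiff_subset.trans b2) hpj' hqj'
        intro i
        exact congrFun hz (Sum.inr i)
      apply Prod.ext
      · rw [← sdiff_union_inter p.1 p.2, ← sdiff_union_inter q.1 q.2, e1, hZ]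
      · rw [← sdiff_union_inter p.2 p.1, ← sdiff_union_inter q.2 q.1, e2, inter_comm p.2,
          inter_comm q.2, hZ]
  have hinj' : (#Pj : ℝ) ≤ ((#A).choose (k - j) : ℝ) * #(Pj.image (zf_COL j)) := by
    rw [card_product, card_powersetCard] at hinj
    exact_mod_cast hinj
  refine hinj'.trans ?_
  have hch : ((#A).choose (k - j) : ℝ) ≤ (#A : ℝ) ^ (k - j) := by
    exact_mod_cast Nat.choose_le_pow _ _
  exact mul_le_mul hch hS (Nat.cast_nonneg _) (by positivity)

end Pool.Agent.Helper9.FU
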