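import Mathlib
import Pool.Agent.Helper9.FU.St

set_option autoImplicit false

namespace Pool.Agent.Helper9.FU

open Finset
open scoped Pointwise Nat

private theorem maxfam_COV {α : Type} [DecidableEq α] (R : α → α → Prop)
    (hsymm : ∀ a b, R a b → R b a) (U : Finset α) :
    ∃ X ⊆ U, (∀ x ∈ X, ∀ x' ∈ X, x ≠ x' → R x x') ∧ ∀ y ∈ U, y ∈ X ∨ ∃ x ∈ X, ¬ R y x := by
  classical
  induction U using Finset.induction_on with
  | empty => exact ⟨∅, subset_rfl, by simp, by simp⟩
  | insert a U ha ih =>
    obtain ⟨X, hXU, hX, hmax⟩ := ih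
    by_cases h : ∀ x ∈ X, R a x
    · refine ⟨insert a X, insert_subset_insert a hXU, ?_, ?_⟩
      · intro x hx x' hx' hne
        rw [mem_insert] at hx hx'
        rcases hx with rfl | hx
        · rcases hx' with rfl | hx'
          · exact absurd rfl hne
          · exact h _ hx'
        · rcases hx' with rfl | hx'
          · exact hsymm _ _ (h _ hx)
          · exact hX _ hx _ hx' hne
      · intro y hy
        rw [mem_insert] at hy
        rcases hy with rfl | hy
        · exact Or.inl (mem_insert_self _ _)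
        · rcases hmax y hy with h1 | ⟨x, hx, hR⟩
          · exact Or.inl (mem_insert_of_mem h1)
          · exact Or.inr ⟨x, mem_insert_of_mem hx, hR⟩
    · push Not at h
      obtain ⟨x, hx, hR⟩ := h
      refine ⟨X, hXU.trans (subset_insert _ _), hX, ?_⟩
      intro y hy
      rw [mem_insert] at hy
      rcases hy with rfl | hy
      · exact Or.inr ⟨x, hx, hR⟩
      · exact hmax y hy

theorem hCOV : StCOV := by
  classical
  intro G _ _ l hl A B hBA hBne c r ρ τ lam hr hρ hlam hB hτ
  have hlam0 : (0 : ℝ) < lam := by exact_mod_cast hlam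
  have hsym : ∀ x y : G, l (x / y) = l (y / x) := by
    intro x y
    rw [← hl.inv (x / y), inv_div]
  have hself : ∀ x : G, l (x / x) = 0 := by
    intro x
    rw [div_self', hl.one]
  have htri : ∀ x y z : G, l (x / z) ≤ l (x / y) + l (y / z) := by
    intro x y z
    have h := hl.mul (x / y) (y / z)
    rwa [div_mul_div_cancel] at h
  obtain ⟨b₀, hb₀⟩ := hBne
  have hBc : (0 : ℝ) < #B := by exact_mod_cast card_pos.2 ⟨b₀, hb₀⟩
  have hτ0 : 0 ≤ τ := by
    have h1 := hτ b₀ (hBA hb₀)
    have h2 : (0 : ℝ) ≤ τ * #B := le_trans (Nat.cast_nonneg _) h1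
    exact nonneg_of_mul_nonneg_left h2 hBc
  -- the set `X`
  obtain ⟨X, hXU, hXR, hXmax⟩ := maxfam_COV
    (fun x x' : G => ∀ b ∈ B, ∀ b' ∈ B, x ^ lam * b ≠ x' ^ lam * b')
    (fun x x' h b hb b' hb' he => h b' hb' b hb he.symm) (ball l A c r)
  obtain ⟨A', hA'A, hA'R, hA'max⟩ := maxfam_COV
    (fun a a' : G => 2 * r + 2 * ρ / lam < l (a / a'))
    (fun a a' h => by rwa [hsym a' a]) A
  have hXA : X ⊆ A := hXU.trans (filter_subset _ _)
  have hXc : ∀ x ∈ X, l (x / c) ≤ r := fun x hx => (mem_filter.1 (hXU hx)).2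
  have hρl : 0 ≤ 2 * ρ / lam := by positivity
  refine ⟨X, hXA, ?_, ?_⟩
  · -- counting
    have h1 : A ⊆ A'.biUnion (fun a => ball l A a (2 * r + 2 * ρ / lam)) := by
      intro y hy
      rw [mem_biUnion]
      rcases hA'max y hy with h | ⟨a, ha, hR⟩
      · exact ⟨y, h, mem_filter.2 ⟨hy, by rw [hself]; positivity⟩⟩
      · exact ⟨a, ha, mem_filter.2 ⟨hy, not_lt.1 hR⟩⟩
    have h2 : (#A : ℝ) ≤ #A' * (τ * #B) := by
      have h3 : (#A : ℝ) ≤ ((∑ a ∈ A', #(ball l A a (2 * r + 2 * ρ / lam)) : ℕ) : ℝ) := by
        exact_mod_cast (card_le_card h1).trans card_biUnion_le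
      refine h3.trans ?_
      push_cast
      calc ∑ a ∈ A', (#(ball l A a (2 * r + 2 * ρ / lam)) : ℝ) ≤ ∑ _a ∈ A', τ * #B :=
            sum_le_sum fun a ha => hτ a (hA'A ha)
        _ = _ := by rw [sum_const, nsmul_eq_mul]
    have h4 : #(A' ×ˢ (X ×ˢ B)) ≤ #(pw lam A * pw lam A * A) := by
      refine card_le_card_of_injOn (fun p : G × (G × G) => p.1 ^ lam * p.2.1 ^ lam * p.2.2) ?_ ?_
      · rintro ⟨a, x, b⟩ hp
        rw [mem_coe, mem_product, mem_product] at hp
        obtain ⟨ha, hx, hb⟩ := hp
        exact mul_mem_mul (mul_mem_mul (mem_image_of_mem _ (hA'A ha))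
          (mem_image_of_mem _ (hXA hx))) (hBA hb)
      · rintro ⟨a, x, b⟩ hp ⟨a', x', b'⟩ hp' he
        rw [mem_coe, mem_product, mem_product] at hp hp'
        obtain ⟨ha, hx, hb⟩ := hp
        obtain ⟨ha', hx', hb'⟩ := hp'
        simp only at ha hx hb ha' hx' hb'
        have he : a ^ lam * x ^ lam * b = a' ^ lam * x' ^ lam * b' := he
        have e1 : (a / a') ^ lam = (x' / x) ^ lam * (b' / b) := by
          rw [div_pow, div_pow]
          calc a ^ lam / a' ^ lam
              = (a ^ lam * x ^ lam * b) / (a' ^ lam * x ^ lam * b) := by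
                rw [mul_assoc, mul_assoc, mul_div_mul_right_eq_div]
            _ = (a' ^ lam * x' ^ lam * b') / (a' ^ lam * x ^ lam * b) := by rw [he]
            _ = (x' ^ lam * b') / (x ^ lam * b) := by
                rw [mul_assoc, mul_assoc, mul_div_mul_left_eq_div]
            _ = _ := by rw [mul_div_mul_comm]
        have e2 : (lam : ℝ) * l (a / a') ≤ lam * (2 * r) + 2 * ρ := by
          rw [← hl.pow, e1]
          refine (hl.mul _ _).trans ?_
          rw [hl.pow]
          have h5 : l (x' / x) ≤ 2 * r := by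
            have := htri x' c x
            have h6 := hXc x' hx'
            have h7 := hXc x hx
            rw [hsym c x] at this
            linarith
          have h8 := hB b' hb' b hb
          have h9 := mul_le_mul_of_nonneg_left h5 hlam0.le
          linarith
        have e3 : l (a / a') ≤ 2 * r + 2 * ρ / lam := by
          have h10 : 2 * r + 2 * ρ / lam = (lam * (2 * r) + 2 * ρ) / lam := by
            field_simp
          rw [h10, le_div_iff₀ hlam0]
          linarith
        have ea : a = a' := by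
          by_contra hne
          exact absurd (hA'R a ha a' ha' hne) (not_lt.2 e3)
        subst ea
        have e4 : x ^ lam * b = x' ^ lam * b' := by
          rw [mul_assoc, mul_assoc] at he
          exact mul_left_cancel he
        have ex : x = x' := by
          by_contra hne
          exact hXR x hx x' hx' hne b hb b' hb' e4
        subst ex
        have eb : b = b' := mul_left_cancel e4
        rw [eb]
    rw [card_product, card_product] at h4
    have h5 : (#A' : ℝ) * (#X * #B) ≤ #(pw lam A * pw lam A * A) := by exact_mod_cast h4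
    calc (#X : ℝ) * #A ≤ #X * (#A' * (τ * #B)) :=
          mul_le_mul_of_nonneg_left h2 (Nat.cast_nonneg _)
      _ = τ * (#A' * (#X * #B)) := by ring
      _ ≤ _ := mul_le_mul_of_nonneg_left h5 hτ0
  · intro y hy hyc
    rcases hXmax y (mem_filter.2 ⟨hy, hyc⟩) with h | ⟨x, hx, hR⟩
    · exact ⟨y, h, by rw [hself]; exact hρl⟩
    · push Not at hR
      obtain ⟨b, hb, b', hb', he⟩ := hR
      refine ⟨x, hx, ?_⟩
      have e1 : (y / x) ^ lam = b' / b := by
        rw [div_pow, div_eq_div_iff_mul_eq_mul, he, mul_comm]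
      have e2 : (lam : ℝ) * l (y / x) ≤ 2 * ρ := by
        rw [← hl.pow, e1]
        exact hB b' hb' b hb
      rw [le_div_iff₀ hlam0]
      linarith

end Pool.Agent.Helper9.FU
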