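import Mathlib
import Pool.Agent.Helper9.FU.St

set_option autoImplicit false

/-! Module DET of project FU. -/

namespace Pool.Agent.Helper9.FU

open Finset
open scoped Pointwise Nat

private lemma bound_DET {ι : Type} [Fintype ι] [DecidableEq ι] (M : Matrix ι ι ℤ) (b : ι → ℝ)
    (hb : ∀ k j, |(M k j : ℝ)| ≤ b j) :
    |((M.det : ℤ) : ℝ)| ≤ ((Fintype.card ι)! : ℝ) * ∏ j, b j := by
  rw [Matrix.det_apply']
  push_cast
  have h1 : ∀ σ ∈ (univ : Finset (Equiv.Perm ι)),
      |((Equiv.Perm.sign σ : ℤ) : ℝ) * ∏ i, (M (σ i) i : ℝ)| ≤ ∏ j, b j := by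
    intro σ _
    rw [abs_mul, Finset.abs_prod]
    have h2 : |((Equiv.Perm.sign σ : ℤ) : ℝ)| = 1 := by
      rcases Int.units_eq_one_or (Equiv.Perm.sign σ) with h | h <;> simp [h]
    rw [h2, one_mul]
    exact Finset.prod_le_prod (fun i _ => abs_nonneg _) (fun i _ => hb _ _)
  calc |∑ σ : Equiv.Perm ι, ((Equiv.Perm.sign σ : ℤ) : ℝ) * ∏ i, (M (σ i) i : ℝ)|
      ≤ ∑ σ : Equiv.Perm ι, |((Equiv.Perm.sign σ : ℤ) : ℝ) * ∏ i, (M (σ i) i : ℝ)| :=
        Finset.abs_sum_le_sum_abs _ _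
    _ ≤ ∑ _σ : Equiv.Perm ι, ∏ j, b j := Finset.sum_le_sum h1
    _ = ((Fintype.card ι)! : ℝ) * ∏ j, b j := by
        rw [Finset.sum_const, nsmul_eq_mul, Finset.card_univ, Fintype.card_perm]

theorem hDET (hHTD : StHTD) : StDET := by
  intro ι _ _ _ a x ξ σ hσ hsum hdet k₀ i₀
  set m := Fintype.card ι with hm
  have hm1 : 1 ≤ m := Fintype.card_pos
  -- numerators and denominators
  set u : ι → ι → ℤ := fun k i => ((x k i / ξ i : ℚˣ) : ℚ).num with hu
  set v : ι → ι → ℕ := fun k i => ((x k i / ξ i : ℚˣ) : ℚ).den with hv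
  set S : ℝ := Real.exp σ with hS
  have hht : ∀ k i, (ht ((x k i / ξ i : ℚˣ) : ℚ) : ℝ) ≤ S := by
    intro k i
    have h1 := hσ k i
    unfold ell at h1
    have hpos : 0 < (ht ((x k i / ξ i : ℚˣ) : ℚ) : ℝ) := by
      have : 0 < ht ((x k i / ξ i : ℚˣ) : ℚ) := lt_of_lt_of_le (Rat.den_pos _) (le_max_right _ _)
      exact_mod_cast this
    exact (Real.log_le_iff_le_exp hpos).mp h1
  have hvpos : ∀ k i, 0 < v k i := fun k i => Rat.den_pos _
  have hvS : ∀ k i, (v k i : ℝ) ≤ S := by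
    intro k i
    refine le_trans ?_ (hht k i)
    exact_mod_cast le_max_right _ _
  have huS : ∀ k i, |(u k i : ℝ)| ≤ S := by
    intro k i
    refine le_trans ?_ (hht k i)
    have h1 : ((u k i).natAbs : ℝ) = |(u k i : ℝ)| := by
      rw [Nat.cast_natAbs, Int.cast_abs]
    rw [← h1]
    exact_mod_cast le_max_left _ _
  have hS1 : 1 ≤ S := by
    refine le_trans ?_ (hvS k₀ i₀)
    exact_mod_cast hvpos k₀ i₀
  have hS0 : 0 < S := by linarith
  have hu0 : ∀ k i, u k i ≠ 0 := by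
    intro k i
    exact Rat.num_ne_zero.mpr (Units.ne_zero _)
  set Vp : ι → ℕ := fun i => ∏ k, v k i with hVp
  have hVpos : ∀ i, 0 < Vp i := fun i => Finset.prod_pos fun k _ => hvpos k i
  set W : Matrix ι ι ℤ := Matrix.of fun k i => u k i * ∏ l ∈ univ.erase k, (v l i : ℤ) with hW
  have hWS : ∀ k i, |(W k i : ℝ)| ≤ S ^ m := by
    intro k i
    rw [hW, Matrix.of_apply]
    push_cast
    rw [abs_mul, Finset.abs_prod]
    calc |(u k i : ℝ)| * ∏ l ∈ univ.erase k, |(v l i : ℝ)|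
        ≤ S * ∏ _l ∈ univ.erase k, S := by
          refine mul_le_mul (huS k i) (Finset.prod_le_prod (fun _ _ => abs_nonneg _) fun l _ => ?_)
            (Finset.prod_nonneg fun _ _ => abs_nonneg _) hS0.le
          rw [abs_of_nonneg (Nat.cast_nonneg _)]
          exact hvS l i
      _ = S ^ m := by
          rw [Finset.prod_const, Finset.card_erase_of_mem (mem_univ k), Finset.card_univ, ← hm,
            ← pow_succ']
          congr 1
          omega
  have hW0 : ∀ k i, W k i ≠ 0 := by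
    intro k i
    rw [hW, Matrix.of_apply]
    refine mul_ne_zero (hu0 k i) (Finset.prod_ne_zero_iff.mpr fun l _ => ?_)
    exact_mod_cast (hvpos l i).ne'
  -- the relation between `x` and `W`
  have hxW : ∀ k i, (x k i : ℚ) = (ξ i : ℚ) / Vp i * (W k i : ℚ) := by
    intro k i
    have h1 : (x k i : ℚ) = (ξ i : ℚ) * ((u k i : ℚ) / (v k i : ℚ)) := by
      have h2 : ((u k i : ℚ) / (v k i : ℚ)) = ((x k i / ξ i : ℚˣ) : ℚ) := Rat.num_div_den _
      rw [h2]
      push_cast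
      field_simp
    have h3 : (Vp i : ℚ) = (v k i : ℚ) * ∏ l ∈ univ.erase k, (v l i : ℚ) := by
      rw [hVp]
      push_cast
      rw [Finset.mul_prod_erase univ (fun l => (v l i : ℚ)) (mem_univ k)]
    have h4 : (v k i : ℚ) ≠ 0 := by exact_mod_cast (hvpos k i).ne'
    have h5 : ∏ l ∈ univ.erase k, (v l i : ℚ) ≠ 0 :=
      Finset.prod_ne_zero_iff.mpr fun l _ => by exact_mod_cast (hvpos l i).ne'
    rw [h1, h3, hW, Matrix.of_apply]
    push_cast
    field_simp
  set Wq : Matrix ι ι ℚ := W.map (Int.castRingHom ℚ) with hWq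
  have hWqd : Wq.det = ((W.det : ℤ) : ℚ) := by
    rw [hWq]
    exact (RingHom.map_det (Int.castRingHom ℚ) W).symm
  have hdetW : (W.det : ℚ) ≠ 0 := by
    intro h0
    apply hdet
    have h1 : (Matrix.of fun k i => (x k i : ℚ)) =
        Matrix.of fun k i => (ξ i : ℚ) / Vp i * Wq k i := by
      ext k i
      rw [Matrix.of_apply, Matrix.of_apply, hxW, hWq, Matrix.map_apply]
      rfl
    rw [h1, Matrix.det_mul_row, hWqd, h0, mul_zero]
  -- Cramer
  set β : ι → ℚ := fun i => (a i : ℚ) * ((ξ i : ℚ) / Vp i) with hβ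
  have hWβ : Wq.mulVec β = fun _ => 1 := by
    funext k
    rw [← hsum k, Matrix.mulVec, dotProduct]
    refine Finset.sum_congr rfl fun i _ => ?_
    rw [hxW, hWq, Matrix.map_apply, hβ]
    simp only [Int.coe_castRingHom]
    ring
  have hcr : ∀ i, Wq.det * β i = (((W.updateCol i (fun _ => 1)).det : ℤ) : ℚ) := by
    intro i
    have h1 : Wq.cramer (Wq.mulVec β) = Wq.det • β := by
      rw [Matrix.cramer_eq_adjugate_mulVec, Matrix.mulVec_mulVec, Matrix.adjugate_mul,
        Matrix.smul_mulVec, Matrix.one_mulVec]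
    have h2 := congrFun h1 i
    rw [hWβ, Matrix.cramer_apply, Pi.smul_apply, smul_eq_mul] at h2
    rw [← h2]
    have h3 : Wq.updateCol i (fun _ => (1 : ℚ)) =
        (W.updateCol i (fun _ => (1 : ℤ))).map (Int.castRingHom ℚ) := by
      ext k j
      rw [Matrix.map_apply, Matrix.updateCol_apply, Matrix.updateCol_apply]
      split_ifs with h
      · simp
      · rfl
    rw [h3]
    exact (RingHom.map_det (Int.castRingHom ℚ) _).symm
  set Di : ℤ := (W.updateCol i₀ (fun _ => 1)).det with hDi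
  have hval : ((a i₀ * x k₀ i₀ : ℚˣ) : ℚ) = ((Di * W k₀ i₀ : ℤ) : ℚ) / ((W.det : ℤ) : ℚ) := by
    have h1 := hcr i₀
    rw [hWqd] at h1
    rw [Units.val_mul, hxW, Int.cast_mul, ← h1, hβ]
    field_simp
  have hD0 : Di * W k₀ i₀ ≠ 0 := by
    intro h
    rw [h] at hval
    simp only [Int.cast_zero, zero_div] at hval
    exact Units.ne_zero _ hval
  have hdW : W.det ≠ 0 := by exact_mod_cast hdetW
  have hh := hHTD (Di * W k₀ i₀) W.det hD0 hdW
  rw [← hval] at hh
  -- bounds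
  have hfac : (0 : ℝ) < ((m)! : ℝ) := by exact_mod_cast Nat.factorial_pos _
  have b1 : |((W.det : ℤ) : ℝ)| ≤ (m ! : ℝ) * (S ^ m) ^ m := by
    have := bound_DET W (fun _ => S ^ m) hWS
    rwa [Finset.prod_const, Finset.card_univ, ← hm] at this
  have b2 : |(Di : ℝ)| ≤ (m ! : ℝ) * (S ^ m) ^ (m - 1) := by
    have := bound_DET (W.updateCol i₀ (fun _ => 1)) (fun j => if j = i₀ then 1 else S ^ m) (by
      intro k j
      rw [Matrix.updateCol_apply]
      split_ifs with h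
      · simp
      · exact hWS k j)
    rw [Finset.prod_ite, Finset.prod_const_one, one_mul, Finset.prod_const] at this
    have e : #((univ : Finset ι).filter (fun j => ¬ j = i₀)) = m - 1 := by
      rw [Finset.filter_not, Finset.filter_eq' univ i₀, if_pos (mem_univ _), ← Finset.erase_eq,
        Finset.card_erase_of_mem (mem_univ _), Finset.card_univ]
    rw [e] at this
    exact this
  have hSm : 1 ≤ S ^ m := one_le_pow₀ hS1
  have b3 : |((Di * W k₀ i₀ : ℤ) : ℝ)| ≤ (m ! : ℝ) * (S ^ m) ^ m := by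
    rw [Int.cast_mul, abs_mul]
    calc |(Di : ℝ)| * |(W k₀ i₀ : ℝ)| ≤ ((m ! : ℝ) * (S ^ m) ^ (m - 1)) * S ^ m :=
          mul_le_mul b2 (hWS _ _) (abs_nonneg _) (by positivity)
      _ = (m ! : ℝ) * (S ^ m) ^ m := by
          rw [mul_assoc, ← pow_succ]
          congr 2
          omega
  have b4 : (ht ((a i₀ * x k₀ i₀ : ℚˣ) : ℚ) : ℝ) ≤ (m ! : ℝ) * (S ^ m) ^ m := by
    refine le_trans (Nat.cast_le.mpr hh) ?_
    rw [Nat.cast_max]
    refine max_le ?_ ?_
    · rw [Nat.cast_natAbs, Int.cast_abs]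
      exact b3
    · rw [Nat.cast_natAbs, Int.cast_abs]
      exact b1
  have hpos : 0 < (ht ((a i₀ * x k₀ i₀ : ℚˣ) : ℚ) : ℝ) := by
    have : 0 < ht ((a i₀ * x k₀ i₀ : ℚˣ) : ℚ) := lt_of_lt_of_le (Rat.den_pos _) (le_max_right _ _)
    exact_mod_cast this
  unfold ell
  calc Real.log (ht ((a i₀ * x k₀ i₀ : ℚˣ) : ℚ)) ≤ Real.log ((m ! : ℝ) * (S ^ m) ^ m) :=
        Real.log_le_log hpos b4
    _ = Real.log (m ! : ℝ) + (m : ℝ) ^ 2 * σ := by
        rw [Real.log_mul hfac.ne' (by positivity), Real.log_pow, Real.log_pow, hS, Real.log_exp]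
        ring

end Pool.Agent.Helper9.FU
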