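import Mathlib
import Pool.Agent.Helper9.FU.St

set_option autoImplicit false

namespace Pool.Agent.Helper9.FU

open Finset
open scoped Pointwise Nat

private theorem plu_DIL {G : Type} [CommGroup G] [DecidableEq G] (A : Finset G)
    (hA : A.Nonempty) (j : ℕ) : (#(A ^ j) : ℝ) ≤ Kd A ^ j * #A := by
  have h := Finset.pluennecke_ruzsa_inequality_pow_mul hA A j
  have h' : ((#(A ^ j) : NNRat) : ℝ) ≤ (((#(A * A) / #A : NNRat) ^ j * #A : NNRat) : ℝ) :=
    NNRat.cast_le.mpr h
  push_cast at h'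
  exact h'

private theorem inj_DIL {G : Type} [CommGroup G]
    (h3 : Function.Injective (fun x : G => x ^ 3)) (t : ℕ) :
    Function.Injective (fun x : G => x ^ (3 ^ t)) := by
  induction t with
  | zero => intro x y h; simpa using h
  | succ t ih =>
    intro x y h
    have h' : (x ^ (3 ^ t)) ^ 3 = (y ^ (3 ^ t)) ^ 3 := by
      rw [← pow_mul, ← pow_mul, ← pow_succ]; exact h
    exact ih (h3 h')

private theorem card_DIL {G : Type} [CommGroup G] [DecidableEq G]
    (h3 : Function.Injective (fun x : G => x ^ 3)) (t : ℕ) (Y : Finset G) :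
    #(pw (3 ^ t) Y) = #Y :=
  Finset.card_image_of_injective _ (inj_DIL h3 t)

private theorem mul_DIL {G : Type} [CommGroup G] [DecidableEq G] (j : ℕ) (Y Y' : Finset G) :
    pw j Y * pw j Y' = pw j (Y * Y') :=
  (Finset.image_mul (powMonoidHom j : G →* G)).symm

private theorem pw_DIL {G : Type} [CommGroup G] [DecidableEq G] (i j : ℕ) (Y : Finset G) :
    pw (i * j) Y = pw j (pw i Y) := by
  unfold pw
  rw [Finset.image_image]
  congr 1
  funext x
  simp [pow_mul]

/-- Module DIL: sums of dilates. -/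
theorem hDIL : StDIL := by
  intro G _ _ h3 A hA t ht
  have hn : (0 : ℝ) < #A := by exact_mod_cast hA.card_pos
  have hK : 0 ≤ Kd A := by unfold Kd; positivity
  have hk1 : (#(pw 3 A * A) : ℝ) ≤ Kd A ^ 4 * #A := by
    refine le_trans ?_ (plu_DIL A hA 4)
    have hsub : pw 3 A * A ⊆ A ^ 4 := by
      rw [show (4 : ℕ) = 3 + 1 from rfl, pow_succ]
      apply Finset.mul_subset_mul_right
      intro z hz
      obtain ⟨x, hx, rfl⟩ := Finset.mem_image.mp hz
      exact Finset.pow_mem_pow hx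
    exact_mod_cast Finset.card_le_card hsub
  have hkt : ∀ s : ℕ, 1 ≤ s → (#(pw (3 ^ s) A * A) : ℝ) ≤ Kd A ^ (4 * s) * #A := by
    intro s hs
    induction s, hs using Nat.le_induction with
    | base => simpa using hk1
    | succ s hs ih =>
      have r := Finset.ruzsa_triangle_inequality_mul_mul_mul (pw (3 ^ (s + 1)) A) (pw 3 A) A
      have e1 : pw (3 ^ (s + 1)) A * pw 3 A = pw 3 (pw (3 ^ s) A * A) := by
        rw [pow_succ, pw_DIL, mul_DIL]
      have e2 : #(pw 3 (pw (3 ^ s) A * A)) = #(pw (3 ^ s) A * A) := by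
        simpa using card_DIL h3 1 (pw (3 ^ s) A * A)
      have e3 : #(pw 3 A) = #A := by simpa using card_DIL h3 1 A
      rw [e1, e2, e3] at r
      have r' : (#(pw (3 ^ (s + 1)) A * A) : ℝ) * #A ≤
          #(pw (3 ^ s) A * A) * #(pw 3 A * A) := by exact_mod_cast r
      have r2 : (#(pw (3 ^ s) A * A) : ℝ) * #(pw 3 A * A) ≤
          (Kd A ^ (4 * s) * #A) * (Kd A ^ 4 * #A) :=
        mul_le_mul ih hk1 (by positivity) (by positivity)
      have r3 : (#(pw (3 ^ (s + 1)) A * A) : ℝ) * #A ≤ (Kd A ^ (4 * (s + 1)) * #A) * #A := by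
        calc _ ≤ _ := r'
          _ ≤ _ := r2
          _ = _ := by ring
      exact le_of_mul_le_mul_right r3 hn
  have r := Finset.ruzsa_triangle_inequality_mul_mul_mul (pw (3 ^ t) A * pw (3 ^ t) A)
    (pw (3 ^ t) A) A
  have e1 : pw (3 ^ t) A * pw (3 ^ t) A * pw (3 ^ t) A = pw (3 ^ t) (A * A * A) := by
    rw [mul_DIL, mul_DIL]
  have e2 : A * A * A = A ^ 3 := by rw [pow_succ, pow_two]
  rw [e1, card_DIL h3, card_DIL h3, e2] at r
  have r' : (#(pw (3 ^ t) A * pw (3 ^ t) A * A) : ℝ) * #A ≤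
      #(A ^ 3) * #(pw (3 ^ t) A * A) := by exact_mod_cast r
  have r2 : (#(A ^ 3) : ℝ) * #(pw (3 ^ t) A * A) ≤
      (Kd A ^ 3 * #A) * (Kd A ^ (4 * t) * #A) :=
    mul_le_mul (plu_DIL A hA 3) (hkt t ht) (by positivity) (by positivity)
  have r3 : (#(pw (3 ^ t) A * pw (3 ^ t) A * A) : ℝ) * #A ≤
      (Kd A ^ (4 * t + 3) * #A) * #A := by
    calc _ ≤ _ := r'
      _ ≤ _ := r2
      _ = _ := by ring
  exact le_of_mul_le_mul_right r3 hn

end Pool.Agent.Helper9.FU
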