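import Mathlib
import Pool.Agent.Helper9.FU.St

set_option autoImplicit false

namespace Pool.Agent.Helper9.FU

open Finset
open scoped Pointwise Nat

private theorem Bd_mono_DS {A : Finset ℚˣ} {j : ℕ} {N N' : ℝ} (h : Bd A j N) (hN : N ≤ N') :
    Bd A j N' := fun ι _ a hι S hS => (h ι a hι S hS).trans hN

private theorem BR_mono_DS {A : Finset ℚˣ} {j : ℕ} {N N' : ℝ} (h : BR A j N) (hN : N ≤ N') :
    BR A j N' := fun ι _ a hι S hS => (h ι a hι S hS).trans hN

private theorem BR_zero_DS (A : Finset ℚˣ) {N : ℝ} (hN : 1 ≤ N) : BR A 0 N := by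
  intro ι _ a hι S hS
  have : IsEmpty ι := Fintype.card_eq_zero_iff.1 hι
  have h1 : #S ≤ 1 := Finset.card_le_one.2 (fun x _ y _ => Subsingleton.elim x y)
  exact (by exact_mod_cast h1 : (#S : ℝ) ≤ 1).trans hN

theorem hDS (hF : StF) (hHOM : StHOM) (hBLK : StBLK) (hCX : StCX) : StDS := by
  obtain ⟨hc1, hc2, -⟩ := hCX
  have key : ∀ s : ℕ, ∃ C : ℝ, 0 < C ∧ ∀ A : Finset ℚˣ, A.Nonempty →
      BR A s (C * (#A : ℝ) ^ (s / 3) * Kd A ^ cexp (s - 1) * Ld A ^ (s - 2)) := by
    intro s
    induction s using Nat.strong_induction_on with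
    | _ s ih =>
      rcases Nat.eq_zero_or_pos s with rfl | hs
      · refine ⟨1, one_pos, fun A hA => BR_zero_DS A ?_⟩
        simp [cexp]
      · choose! cF hF1 hF2 using hF
        choose! cD hD1 hD2 using ih
        set C' : ℝ := 1 + ∑ m ∈ (range (s + 1)).filter (fun m => 1 ≤ m), cF m
          + ∑ r ∈ range s, cD r with hC'
        have hFpos : ∀ m ∈ (range (s + 1)).filter (fun m => 1 ≤ m), 0 ≤ cF m := fun m hm =>
          (hF1 m (Finset.mem_filter.1 hm).2).le
        have hDpos : ∀ r ∈ range s, 0 ≤ cD r := fun r hr => (hD1 r (Finset.mem_range.1 hr)).le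
        have hsF := Finset.sum_nonneg hFpos
        have hsD := Finset.sum_nonneg hDpos
        have hC1 : 1 ≤ C' := by rw [hC']; linarith
        have hCF : ∀ m, 1 ≤ m → m ≤ s → cF m ≤ C' := by
          intro m h1 h2
          have := Finset.single_le_sum hFpos (a := m)
            (Finset.mem_filter.2 ⟨Finset.mem_range.2 (by omega), h1⟩)
          rw [hC']; linarith
        have hCD : ∀ r, r < s → cD r ≤ C' := by
          intro r h1
          have := Finset.single_le_sum hDpos (a := r) (Finset.mem_range.2 h1)
          rw [hC']; linarith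
        have hC0 : 0 ≤ C' := by linarith
        refine ⟨2 ^ s * C' ^ 2, by positivity, fun A hA => ?_⟩
        have hn : (1 : ℝ) ≤ #A := by exact_mod_cast hA.card_pos
        have hK : 1 ≤ Kd A := by
          unfold Kd
          rw [le_div_iff₀ (by linarith), one_mul]
          exact_mod_cast Finset.card_le_card_mul_self
        have hL : 1 ≤ Ld A := by
          unfold Ld
          have : (0 : ℝ) ≤ (Nat.log 2 #A : ℝ) := Nat.cast_nonneg _
          linarith
        have hn0 : (0 : ℝ) ≤ #A := by linarith
        have hK0 : 0 ≤ Kd A := by linarith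
        have hL0 : 0 ≤ Ld A := by linarith
        have hW := hBLK A s (fun b => #A * (C' * Kd A ^ cexp (b - 1) * Ld A ^ (b - 1 - 1)))
          (fun r => C' * (#A : ℝ) ^ (r / 3) * Kd A ^ cexp (r - 1) * Ld A ^ (r - 2))
          (C' ^ 2 * (#A : ℝ) ^ (s / 3) * Kd A ^ cexp (s - 1) * Ld A ^ (s - 2)) hs (by positivity)
          (fun b => by positivity) (fun r => by positivity) ?_ ?_ ?_
        · refine BR_mono_DS hW (le_of_eq ?_)
          ring
        · intro b hb3 hbs
          have h1 := hF2 (b - 1) (by omega) A hA
          have h2 : Bd A (b - 1) (C' * Kd A ^ cexp (b - 1) * Ld A ^ (b - 1 - 1)) := by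
            refine Bd_mono_DS h1 ?_
            have := hCF (b - 1) (by omega) (by omega)
            gcongr
          have h3 := hHOM A (b - 1) _ (by omega) (by positivity) h2
          rw [show b - 1 + 1 = b by omega] at h3
          exact h3
        · intro b hb3 hbs
          have h1 := hD2 (s - b) (by omega) A hA
          refine BR_mono_DS h1 ?_
          have := hCD (s - b) (by omega)
          gcongr
        · intro b hb3 hbs
          have e1 : 1 + (s - b) / 3 ≤ s / 3 := by omega
          have e2 : cexp (b - 1) + cexp (s - b - 1) ≤ cexp (s - 1) := by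
            by_cases h : s - b ≤ 1
            · have h0 : s - b - 1 = 0 := by omega
              rw [h0]
              have : cexp 0 = 0 := rfl
              rw [this, add_zero]
              exact hc2 _ _ (by omega)
            · have h3 := hc1 (s - 2) (b - 1) (by omega) (by omega)
              have h4 : s - 2 - (b - 1) = s - b - 1 := by omega
              rw [h4] at h3
              have h5 := hc2 (s - 2) (s - 1) (by omega)
              omega
          have e3 : (b - 1 - 1) + (s - b - 2) ≤ s - 2 := by omega
          calc (#A : ℝ) * (C' * Kd A ^ cexp (b - 1) * Ld A ^ (b - 1 - 1)) *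
                (C' * (#A : ℝ) ^ ((s - b) / 3) * Kd A ^ cexp (s - b - 1) * Ld A ^ (s - b - 2))
              = C' ^ 2 * (#A : ℝ) ^ (1 + (s - b) / 3) *
                Kd A ^ (cexp (b - 1) + cexp (s - b - 1)) *
                Ld A ^ ((b - 1 - 1) + (s - b - 2)) := by
                rw [pow_add, pow_add, pow_add, pow_one]
                ring
            _ ≤ _ := by
                have i1 := pow_le_pow_right₀ hn e1
                have i2 := pow_le_pow_right₀ hK e2
                have i3 := pow_le_pow_right₀ hL e3
                gcongr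
  intro s _
  exact key s

end Pool.Agent.Helper9.FU
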