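import Mathlib
import Pool.Agent.Helper9.FU.St

set_option autoImplicit false

namespace Pool.Agent.Helper9.FU

open Finset
open scoped Pointwise Nat

/-- sums over a finite set as sums over the subtype -/
private theorem sub_ELIM {ι : Type} [DecidableEq ι] (J : Finset ι) (f : ι → ℚ) :
    ∑ i : {j // j ∈ J}, f i.1 = ∑ j ∈ J, f j := Finset.sum_coe_sort J f

private theorem map_ELIM {ι : Type} (p : ι → Prop) (I : Finset {j // p j}) (f : ι → ℚ) :
    ∑ i ∈ I, f i.1 = ∑ j ∈ I.map (Function.Embedding.subtype p), f j := by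
  rw [Finset.sum_map]
  rfl

/-- the second step: the fibre over a restriction -/
private theorem fib_ELIM (A : Finset ℚˣ) (ι : Type) [Fintype ι] [DecidableEq ι] (a : ι → ℚˣ)
    (J : Finset ι) (i0 : ι) (hi0 : i0 ∉ J) (N : ℝ) (hN : 0 ≤ N)
    (hB : Bd A (Fintype.card ι - #J) N)
    (y : {j // j ∈ J} → ℚˣ) (S : Finset (ι → ℚˣ))
    (hS : ∀ x ∈ S, IsSol A a x ∧ (fun j : {j // j ∈ J} => x j.1) = y) : (#S : ℝ) ≤ N := by
  classical
  rcases S.eq_empty_or_nonempty with rfl | ⟨x0, hx0⟩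
  · simpa using hN
  set t : ℚ := 1 - ∑ j : {j // j ∈ J}, (a j.1 : ℚ) * (y j : ℚ) with ht
  have htx : ∀ x ∈ S, ∑ i : {i // i ∉ J}, (a i.1 : ℚ) * (x i.1 : ℚ) = t := by
    intro x hx
    obtain ⟨⟨-, h1, -⟩, h2⟩ := hS x hx
    have h3 : ∑ j : {j // j ∈ J}, (a j.1 : ℚ) * (y j : ℚ) = ∑ j ∈ J, (a j : ℚ) * (x j : ℚ) := by
      rw [← sub_ELIM J (fun j => (a j : ℚ) * (x j : ℚ)), ← h2]
    have h4 : ∑ i : {i // i ∉ J}, (a i.1 : ℚ) * (x i.1 : ℚ) =
        ∑ i ∈ univ.filter (fun i => i ∉ J), (a i : ℚ) * (x i : ℚ) := by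
      rw [← Finset.sum_subtype (univ.filter (fun i => i ∉ J)) (by simp)
        (fun i => (a i : ℚ) * (x i : ℚ))]
    have h5 := Finset.sum_filter_add_sum_filter_not univ (fun i => i ∈ J)
      (fun i => (a i : ℚ) * (x i : ℚ))
    have h6 : univ.filter (fun i => i ∈ J) = J := by ext i; simp
    rw [h6, h1] at h5
    rw [ht, h3, h4]
    linarith
  have ht0 : t ≠ 0 := by
    rw [← htx x0 hx0]
    obtain ⟨⟨-, -, h1⟩, -⟩ := hS x0 hx0
    rw [map_ELIM (fun i => i ∉ J) univ (fun i => (a i : ℚ) * (x0 i : ℚ))]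
    apply h1
    exact ⟨i0, by simp [hi0]⟩
  set r : (ι → ℚˣ) → ({i // i ∉ J} → ℚˣ) := fun x i => x i.1 with hr
  have hinj : Set.InjOn r S := by
    intro x hx x' hx' hxx
    funext i
    by_cases hi : i ∈ J
    · have h1 := (hS x hx).2.trans (hS x' hx').2.symm
      exact congrFun h1 ⟨i, hi⟩
    · exact congrFun hxx ⟨i, hi⟩
  rw [← Finset.card_image_of_injOn hinj]
  refine hB {i // i ∉ J} (fun i => a i.1 / Units.mk0 t ht0) ?_ (S.image r) ?_
  · rw [Fintype.card_subtype_compl, Fintype.card_coe]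
  · intro z hz
    obtain ⟨x, hx, rfl⟩ := mem_image.1 hz
    obtain ⟨⟨hxA, h1, h2⟩, -⟩ := hS x hx
    have hcoef : ∀ i : {i // i ∉ J}, ((a i.1 / Units.mk0 t ht0 : ℚˣ) : ℚ) * (r x i : ℚ) =
        t⁻¹ * ((a i.1 : ℚ) * (x i.1 : ℚ)) := by
      intro i
      rw [Units.val_div_eq_div_val, Units.val_mk0]
      simp only [hr]
      field_simp
    refine ⟨fun i => hxA _, ?_, ?_⟩
    · rw [Finset.sum_congr rfl fun i _ => hcoef i, ← Finset.mul_sum, htx x hx,
        inv_mul_cancel₀ ht0]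
    · intro I hI
      rw [Finset.sum_congr rfl fun i _ => hcoef i, ← Finset.mul_sum]
      refine mul_ne_zero (inv_ne_zero ht0) ?_
      rw [map_ELIM (fun i => i ∉ J) I (fun i => (a i : ℚ) * (x i : ℚ))]
      exact h2 _ (hI.map)

theorem hELIM : StELIM := by
  classical
  intro A m F Z hZ hF hBd hFF ι _ a b hm hb S hS
  obtain ⟨i0, hi0⟩ : ∃ i0, b i0 ≠ 0 := Function.ne_iff.1 hb
  set c : ι → ℚ := fun j => (a j : ℚ) - (a i0 : ℚ) / b i0 * b j with hc
  have hc0 : c i0 = 0 := by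
    simp only [hc]
    field_simp
    ring
  have hsum : ∀ x ∈ S, ∑ j, c j * (x j : ℚ) = 1 := by
    intro x hx
    obtain ⟨⟨-, h1, -⟩, h2⟩ := hS x hx
    have h3 : ∑ j, c j * (x j : ℚ) = ∑ j, (a j : ℚ) * (x j : ℚ) -
        (a i0 : ℚ) / b i0 * ∑ j, b j * (x j : ℚ) := by
      rw [Finset.mul_sum, ← Finset.sum_sub_distrib]
      refine Finset.sum_congr rfl fun j _ => ?_
      simp only [hc]
      ring
    rw [h3, h1, h2, mul_zero, sub_zero]
  have hJ : ∀ x : ι → ℚˣ, ∃ J : Finset ι, x ∈ S → (∑ j ∈ J, c j * (x j : ℚ) = 1 ∧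
      ∀ J' : Finset ι, ∑ j ∈ J', c j * (x j : ℚ) = 1 → #J ≤ #J') := by
    intro x
    by_cases hx : x ∈ S
    · have hne : (univ.filter (fun J : Finset ι => ∑ j ∈ J, c j * (x j : ℚ) = 1)).Nonempty :=
        ⟨univ, mem_filter.2 ⟨mem_univ _, hsum x hx⟩⟩
      obtain ⟨J, hJ1, hJ2⟩ := exists_min_image _ (fun J : Finset ι => #J) hne
      exact ⟨J, fun _ => ⟨(mem_filter.1 hJ1).2, fun J' h => hJ2 J' (mem_filter.2 ⟨mem_univ _, h⟩)⟩⟩
    · exact ⟨∅, fun h => absurd h hx⟩
  choose J hJ using hJ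
  have key : ∀ J0 : Finset ι, (#(S.filter (fun x => J x = J0)) : ℝ) ≤ Z := by
    intro J0
    rcases (S.filter (fun x => J x = J0)).eq_empty_or_nonempty with he | ⟨x0, hx0⟩
    · rw [he]; simpa using hZ
    -- properties of the minimal sets
    have hsumJ : ∀ x ∈ S.filter (fun x => J x = J0), ∑ j ∈ J0, c j * (x j : ℚ) = 1 := by
      intro x hx
      obtain ⟨hxS, hxJ⟩ := mem_filter.1 hx
      rw [← hxJ]; exact (hJ x hxS).1
    have hmin : ∀ x ∈ S.filter (fun x => J x = J0), ∀ J' : Finset ι,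
        ∑ j ∈ J', c j * (x j : ℚ) = 1 → #J0 ≤ #J' := by
      intro x hx
      obtain ⟨hxS, hxJ⟩ := mem_filter.1 hx
      rw [← hxJ]; exact (hJ x hxS).2
    have hno : ∀ x ∈ S.filter (fun x => J x = J0), ∀ I ⊆ J0, I.Nonempty →
        ∑ j ∈ I, c j * (x j : ℚ) ≠ 0 := by
      intro x hx I hI hne h0
      have h1 : ∑ j ∈ J0 \ I, c j * (x j : ℚ) = 1 := by
        have h2 := Finset.sum_sdiff (f := fun j => c j * (x j : ℚ)) hI
        rw [h0, add_zero, hsumJ x hx] at h2
        exact h2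
      have h3 := hmin x hx _ h1
      rw [card_sdiff_of_subset hI] at h3
      have h4 := hne.card_pos
      have h5 := card_le_card hI
      omega
    have hne : J0.Nonempty := by
      rcases J0.eq_empty_or_nonempty with he | h
      · exfalso
        have := hsumJ x0 hx0
        rw [he, sum_empty] at this
        exact zero_ne_one this
      · exact h
    have hcne : ∀ j ∈ J0, c j ≠ 0 := by
      intro j hj h0
      refine hno x0 hx0 {j} (singleton_subset_iff.2 hj) (singleton_nonempty j) ?_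
      rw [sum_singleton, h0, zero_mul]
    have hi0J : i0 ∉ J0 := fun h => hcne i0 h hc0
    have hJ1 : 1 ≤ #J0 := hne.card_pos
    have hJm : #J0 < m := by
      rw [← hm]
      exact card_lt_univ_of_notMem hi0J
    set r : (ι → ℚˣ) → ({j // j ∈ J0} → ℚˣ) := fun x j => x j.1 with hr
    set T := S.filter (fun x => J x = J0) with hT
    have hT1 : (#(T.image r) : ℝ) ≤ F #J0 := by
      refine hBd #J0 hJ1 hJm {j // j ∈ J0} (fun j => Units.mk0 (c j.1) (hcne j.1 j.2))
        (Fintype.card_coe J0) (T.image r) ?_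
      intro y hy
      obtain ⟨x, hx, rfl⟩ := mem_image.1 hy
      have hxS : x ∈ S := (mem_filter.1 hx).1
      refine ⟨fun j => (hS x hxS).1.1 _, ?_, ?_⟩
      · have h1 := hsumJ x hx
        rw [← sub_ELIM J0 (fun j => c j * (x j : ℚ))] at h1
        exact h1
      · intro I hI
        have h1 := hno x hx (I.map (Function.Embedding.subtype (fun j => j ∈ J0))) (by
          intro j hj
          obtain ⟨i, -, rfl⟩ := mem_map.1 hj
          exact i.2) hI.map
        rw [← map_ELIM (fun j => j ∈ J0) I (fun j => c j * (x j : ℚ))] at h1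
        exact h1
    have hfib : ∀ y ∈ T.image r, (#(T.filter (fun x => r x = y)) : ℝ) ≤ F (m - #J0) := by
      intro y _
      refine fib_ELIM A ι a J0 i0 hi0J (F (m - #J0)) (hF _) ?_ y _ ?_
      · rw [hm]
        exact hBd (m - #J0) (by omega) (by omega)
      · intro x hx
        obtain ⟨hxT, hxy⟩ := mem_filter.1 hx
        exact ⟨(hS x (mem_filter.1 hxT).1).1, hxy⟩
    have hcount : #T = ∑ y ∈ T.image r, #(T.filter (fun x => r x = y)) :=
      card_eq_sum_card_fiberwise fun x hx => mem_image_of_mem r hx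
    have h1 : (#T : ℝ) = ∑ y ∈ T.image r, (#(T.filter (fun x => r x = y)) : ℝ) := by
      rw [hcount]; push_cast; rfl
    calc (#T : ℝ) = ∑ y ∈ T.image r, (#(T.filter (fun x => r x = y)) : ℝ) := h1
      _ ≤ ∑ y ∈ T.image r, F (m - #J0) := sum_le_sum hfib
      _ = #(T.image r) * F (m - #J0) := by rw [sum_const, nsmul_eq_mul]
      _ ≤ F #J0 * F (m - #J0) := mul_le_mul_of_nonneg_right hT1 (hF _)
      _ ≤ Z := hFF #J0 hJ1 hJm
  have hcount : #S = ∑ J0 ∈ (univ : Finset (Finset ι)), #(S.filter (fun x => J x = J0)) :=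
    card_eq_sum_card_fiberwise fun x _ => mem_univ _
  have h1 : (#S : ℝ) = ∑ J0 ∈ (univ : Finset (Finset ι)), (#(S.filter (fun x => J x = J0)) : ℝ) := by
    rw [hcount]; push_cast; rfl
  calc (#S : ℝ) = ∑ J0 ∈ (univ : Finset (Finset ι)), (#(S.filter (fun x => J x = J0)) : ℝ) := h1
    _ ≤ ∑ J0 ∈ (univ : Finset (Finset ι)), Z := sum_le_sum fun J0 _ => key J0
    _ = 2 ^ m * Z := by
        rw [sum_const, nsmul_eq_mul, card_univ, Fintype.card_finset, hm]
        push_cast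
        rfl

end Pool.Agent.Helper9.FU
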