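import Mathlib
import Pool.Agent.Helper9.FU.St

set_option autoImplicit false

/-! Project FU, module F: unit equation theorem for sets with few products. -/

namespace Pool.Agent.Helper9.FU

open Finset
open scoped Pointwise Nat

private theorem Kd_one_F {A : Finset ℚˣ} (hA : A.Nonempty) : 1 ≤ Kd A := by
  unfold Kd
  have h0 : (0 : ℝ) < #A := by exact_mod_cast hA.card_pos
  rw [le_div_iff₀ h0, one_mul]
  exact_mod_cast Finset.card_le_card_mul_left hA

private theorem Ld_one_F (A : Finset ℚˣ) : 1 ≤ Ld A := by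
  unfold Ld
  have : (0 : ℝ) ≤ (Nat.log 2 #A : ℝ) := Nat.cast_nonneg _
  linarith

private theorem Bd_mono_F {A : Finset ℚˣ} {j : ℕ} {N N' : ℝ} (h : Bd A j N) (hN : N ≤ N') :
    Bd A j N' := fun ι _ a hι S hS => (h ι a hι S hS).trans hN

private theorem one_F (A : Finset ℚˣ) : Bd A 1 1 := by
  intro ι _ a hι S hS
  have h : #S ≤ 1 := by
    rw [Finset.card_le_one]
    intro x hx y hy
    obtain ⟨i0, hi0⟩ := Fintype.card_eq_one_iff.1 hι
    have hu : (Finset.univ : Finset ι) = {i0} := by
      ext i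
      simp [hi0 i]
    have h1 := (hS x hx).2.1
    have h2 := (hS y hy).2.1
    rw [hu, Finset.sum_singleton] at h1 h2
    funext i
    rw [hi0 i]
    have h3 : (a i0 : ℚ) * (x i0 : ℚ) = (a i0 : ℚ) * (y i0 : ℚ) := h1.trans h2.symm
    have h4 := mul_left_cancel₀ (a i0).ne_zero h3
    exact Units.ext h4
  exact_mod_cast h

/-- unit equation theorem -/
theorem hF (hREC : StREC) (hCX : StCX) : StF := by
  obtain ⟨cx1, -, -⟩ := hCX
  intro m
  induction m using Nat.strong_induction_on with
  | _ m ih =>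
    intro hm
    rcases Nat.lt_or_ge m 2 with h2 | h2
    · have hm1 : m = 1 := by omega
      subst hm1
      refine ⟨1, one_pos, fun A _ => ?_⟩
      have : (1 : ℝ) * Kd A ^ cexp 1 * Ld A ^ (1 - 1) = 1 := by
        simp [cexp]
      rw [this]
      exact one_F A
    · have hex : ∀ j : ℕ, ∃ C : ℝ, 0 < C ∧ (1 ≤ j → j < m → ∀ A : Finset ℚˣ, A.Nonempty →
          Bd A j (C * Kd A ^ cexp j * Ld A ^ (j - 1))) := by
        intro j
        by_cases hj : 1 ≤ j ∧ j < m
        · obtain ⟨C, hC, h⟩ := ih j hj.2 hj.1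
          exact ⟨C, hC, fun _ _ => h⟩
        · exact ⟨1, one_pos, fun h1 h3 => absurd ⟨h1, h3⟩ hj⟩
      choose Cf hC0 hCf using hex
      obtain ⟨C', hC'⟩ : ∃ C' : ℝ, C' = 1 + ∑ j ∈ range m, Cf j := ⟨_, rfl⟩
      have hC'1 : 1 ≤ C' := by
        rw [hC']
        have : 0 ≤ ∑ j ∈ range m, Cf j := Finset.sum_nonneg fun j _ => (hC0 j).le
        linarith
      have hCle : ∀ j, j < m → Cf j ≤ C' := by
        intro j hj
        rw [hC']
        have := Finset.single_le_sum (f := Cf) (fun i _ => (hC0 i).le) (mem_range.2 hj)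
        linarith
      obtain ⟨N, hN, hrec⟩ := hREC m h2
      refine ⟨N + 4 ^ (m + 1) * C' ^ 2, by positivity, fun A hA => ?_⟩
      have hK := Kd_one_F hA
      have hL := Ld_one_F A
      obtain ⟨K, hKe⟩ : ∃ K, K = Kd A := ⟨_, rfl⟩
      obtain ⟨L, hLe⟩ : ∃ L, L = Ld A := ⟨_, rfl⟩
      have hrecA := hrec A hA
      have hCfA := fun j h1 h3 => hCf j h1 h3 A hA
      rw [← hKe] at hK hrecA hCfA ⊢
      rw [← hLe] at hL hrecA hCfA ⊢
      have hK0 : 0 ≤ K := by linarith
      have hL0 : 0 ≤ L := by linarith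
      have hcm : m * (4 * m + 7) ≤ cexp m := by
        have := cx1 m 1 le_rfl (by omega)
        omega
      have hB := hrecA (fun j => C' * K ^ cexp j * L ^ (j - 1))
        (C' ^ 2 * K ^ (cexp m - m * (4 * m + 7)) * L ^ (m - 2)) (by positivity)
        (fun j => by positivity) (fun j h1 h3 => by
          refine Bd_mono_F (hCfA j h1 h3) ?_
          have := hCle j h3
          gcongr) (fun j h1 h3 => by
          have e1 : C' * K ^ cexp j * L ^ (j - 1) * (C' * K ^ cexp (m - j) * L ^ (m - j - 1)) =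
              C' ^ 2 * K ^ (cexp j + cexp (m - j)) * L ^ (m - 2) := by
            have e2 : m - 2 = (j - 1) + (m - j - 1) := by omega
            rw [e2, pow_add, pow_add]
            ring
          rw [e1]
          have e3 : cexp j + cexp (m - j) ≤ cexp m - m * (4 * m + 7) := by
            have := cx1 m j h1 h3
            omega
          have e4 : K ^ (cexp j + cexp (m - j)) ≤ K ^ (cexp m - m * (4 * m + 7)) :=
            pow_le_pow_right₀ hK e3
          gcongr)
      refine Bd_mono_F hB ?_
      have e5 : 4 * L * ((2 * K ^ (4 * m + 7)) ^ m *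
          (2 ^ m * (C' ^ 2 * K ^ (cexp m - m * (4 * m + 7)) * L ^ (m - 2)))) =
          4 ^ (m + 1) * C' ^ 2 * K ^ cexp m * L ^ (m - 1) := by
        have e6 : K ^ cexp m = (K ^ (4 * m + 7)) ^ m * K ^ (cexp m - m * (4 * m + 7)) := by
          rw [← pow_mul, ← pow_add]
          congr 1
          have : (4 * m + 7) * m = m * (4 * m + 7) := by ring
          omega
        have e7 : L ^ (m - 1) = L * L ^ (m - 2) := by
          rw [← pow_succ']
          congr 1
          omega
        have e8 : (4 : ℝ) ^ (m + 1) = 4 * (2 ^ m * 2 ^ m) := by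
          rw [← mul_pow, pow_succ]
          norm_num
          ring
        rw [e6, e7, e8, mul_pow]
        ring
      rw [e5]
      have e9 : N ≤ N * (K ^ cexp m * L ^ (m - 1)) := by
        refine le_mul_of_one_le_right hN ?_
        exact one_le_mul_of_one_le_of_one_le (one_le_pow₀ hK) (one_le_pow₀ hL)
      nlinarith [e9]

end Pool.Agent.Helper9.FU
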