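import Mathlib
import Pool.Agent.Helper9.FU.St

/-!
# Project FU (MP_cc0731_co), module FH (helper45): finitely many rationals of bounded height
-/

set_option autoImplicit false

namespace Pool.Agent.Helper9.FU

open Finset
open scoped Pointwise Nat

theorem hFH : StFH := by
  intro h
  set H : ℕ := ⌊Real.exp h⌋₊ with hH
  refine ⟨#(Icc (-(H : ℤ)) H ×ˢ range (H + 1)), fun S hS => ?_⟩
  refine Finset.card_le_card_of_injOn (fun x : ℚˣ => ((x : ℚ).num, (x : ℚ).den)) ?_ ?_
  · intro x hx
    have h1 : ell x ≤ h := hS x (by simpa using hx)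
    have hpos : (0 : ℝ) < (ht (x : ℚ) : ℝ) := by
      have : 1 ≤ ht (x : ℚ) := le_trans (x : ℚ).pos (le_max_right _ _)
      exact_mod_cast this
    have h2 : (ht (x : ℚ) : ℝ) ≤ Real.exp h := by
      rw [← Real.log_le_iff_le_exp hpos]
      exact h1
    have h3 : ht (x : ℚ) ≤ H := Nat.le_floor h2
    have h4 : (x : ℚ).num.natAbs ≤ H := le_trans (le_max_left _ _) h3
    have h5 : (x : ℚ).den ≤ H := le_trans (le_max_right _ _) h3
    simp only [coe_product, coe_Icc, coe_range, Set.mem_prod, Set.mem_Icc, Set.mem_Iio]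
    refine ⟨⟨?_, ?_⟩, ?_⟩ <;> omega
  · intro x _ y _ hxy
    simp only [Prod.mk.injEq] at hxy
    exact Units.ext (Rat.ext hxy.1 hxy.2)

end Pool.Agent.Helper9.FU
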