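import Mathlib
import Pool.Agent.Helper9.FU.St

set_option autoImplicit false

namespace Pool.Agent.Helper9.FU

open Finset
open scoped Pointwise Nat

theorem sum_emb_FIN {k : ℕ} (X : Finset ℤ) (h : #X = k) :
    ∑ i, X.orderEmbOfFin h i = ∑ x ∈ X, x := by
  have e : univ.image (fun i => X.orderEmbOfFin h i) = X := by
    apply eq_of_subset_of_card_le
    · intro x hx
      rw [mem_image] at hx
      obtain ⟨i, _, rfl⟩ := hx
      exact orderEmbOfFin_mem X h i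
    · rw [card_image_of_injective _ (X.orderEmbOfFin h).injective, card_univ, Fintype.card_fin, h]
  conv_rhs => rw [← e]
  rw [sum_image (fun x _ y _ hxy => (X.orderEmbOfFin h).injective hxy)]

theorem image_sub_FIN (k : ℕ) (A A' : Finset ℤ) (hA' : A' ⊆ A) (T : Finset (Finset ℤ))
    (hT : ∀ X ∈ T, X ⊆ A' ∧ good k X) : T.image (fun X => ∑ x ∈ X, x) ⊆ ksum k A := by
  intro v hv
  rw [mem_image] at hv
  obtain ⟨X, hX, rfl⟩ := hv
  obtain ⟨hXA, hXk, _⟩ := hT X hX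
  unfold ksum
  rw [mem_image]
  refine ⟨fun i => X.orderEmbOfFin hXk i, ?_, sum_emb_FIN X hXk⟩
  rw [Fintype.mem_piFinset]
  intro i
  exact hA' (hXA (orderEmbOfFin_mem X hXk i))

theorem log_FIN (n n' : ℕ) (hn : 2 ≤ n) (h1 : 1 ≤ n') (h2 : n' ≤ n) :
    ((Nat.log 2 n' : ℕ) : ℝ) + 1 ≤ 3 * Real.log n := by
  have hl : (0.6931 : ℝ) < Real.log 2 := by
    have := Real.log_two_gt_d9
    linarith
  have hx : Real.log 2 ≤ Real.log n := Real.log_le_log (by norm_num) (by exact_mod_cast hn)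
  have hp : (2 : ℝ) ^ (Nat.log 2 n') ≤ n := by
    have h3 : 2 ^ (Nat.log 2 n') ≤ n := (Nat.pow_log_le_self 2 (by omega)).trans h2
    exact_mod_cast h3
  have hm : ((Nat.log 2 n' : ℕ) : ℝ) * Real.log 2 ≤ Real.log n := by
    rw [← Real.log_pow]
    exact Real.log_le_log (by positivity) hp
  have hm0 : (0 : ℝ) ≤ ((Nat.log 2 n' : ℕ) : ℝ) := Nat.cast_nonneg _
  nlinarith

theorem hFIN (hDS : StDS) (hGOOD : StGOOD) (hSUMS : StSUMS) (hTOQ : StTOQ) (hCOL : StCOL)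
    (hCH : StCH) (hCX : StCX) : StFIN := by
  intro k hk
  classical
  have hDS' : ∀ s : ℕ, ∃ C : ℝ, 0 < C ∧ (1 ≤ s → ∀ A : Finset ℚˣ, A.Nonempty →
      BR A s (C * (#A : ℝ) ^ (s / 3) * Kd A ^ cexp (s - 1) * Ld A ^ (s - 2))) := by
    intro s
    by_cases hs : 1 ≤ s
    · obtain ⟨C, hC, h⟩ := hDS s hs
      exact ⟨C, hC, fun _ => h⟩
    · exact ⟨1, one_pos, fun h => absurd h hs⟩
  choose Cd hCd hBR using hDS'
  obtain ⟨Cc, hCc, hch⟩ := hCH k (by omega)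
  set Cs : ℝ := ∑ j ∈ Icc 1 k, Cd (2 * j) with hCsdef
  have hCs : 0 ≤ Cs := sum_nonneg (fun j _ => (hCd _).le)
  have hlog2 : 0 < Real.log 2 := Real.log_pos (by norm_num)
  refine ⟨(Cc + 2 ^ k) / (Real.log 2) ^ (2 * k - 2) + Cs * (2 ^ (12 * k ^ 3) * 3 ^ (2 * k - 2)),
    by positivity, ?_⟩
  intro A hA
  set A' : Finset ℤ := A.erase 0 with hA'def
  have h0 : (0 : ℤ) ∉ A' := notMem_erase 0 A
  have hsub : A' ⊆ A := erase_subset 0 A
  have hn1 : #A ≤ #A' + 1 := by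
    have h7 : #A - 1 ≤ #A' := pred_card_le_card_erase
    omega
  have hn'1 : 1 ≤ #A' := by omega
  have hn'n : #A' ≤ #A := card_le_card hsub
  obtain ⟨c1, c2, _⟩ := hTOQ A' h0
  have hQne : (toQ A').Nonempty := by
    rw [← card_pos]
    omega
  set κ : ℝ := Kd (toQ A') with hκ
  set lam : ℝ := Ld (toQ A') with hlam
  set K : ℝ := (#(A * A) : ℝ) / #A with hK
  set x : ℝ := Real.log #A with hx
  have hnpos : (0 : ℝ) < #A := by
    have : 0 < #A := by omega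
    exact_mod_cast this
  have hn'pos : (0 : ℝ) < #A' := by exact_mod_cast hn'1
  have hn'le : (#A' : ℝ) ≤ #A := by exact_mod_cast hn'n
  have hn'1r : (1 : ℝ) ≤ #A' := by exact_mod_cast hn'1
  -- K ≥ 1
  have hK1 : 1 ≤ K := by
    rw [hK, le_div_iff₀ hnpos, one_mul]
    obtain ⟨a, ha⟩ := card_pos.1 (by omega : 0 < #A')
    have haA : a ∈ A := hsub ha
    have ha0 : a ≠ 0 := fun h => h0 (h ▸ ha)
    have h1 : A.image (fun y => a * y) ⊆ A * A := by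
      intro z hz
      rw [mem_image] at hz
      obtain ⟨y, hy, rfl⟩ := hz
      exact mul_mem_mul haA hy
    have h2 : #(A.image (fun y => a * y)) = #A :=
      card_image_of_injective _ (fun y z hyz => mul_left_cancel₀ ha0 hyz)
    have h3 := card_le_card h1
    rw [h2] at h3
    exact_mod_cast h3
  -- κ
  have hκe : κ = (#(A' * A') : ℝ) / #A' := by
    rw [hκ]
    unfold Kd
    rw [c1, c2]
  have hκ1 : 1 ≤ κ := by
    rw [hκ]
    unfold Kd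
    have hpos : (0 : ℝ) < #(toQ A') := by exact_mod_cast hQne.card_pos
    rw [le_div_iff₀ hpos, one_mul]
    exact_mod_cast card_le_card_mul_self
  have hκ2 : κ ≤ 2 * K := by
    rw [hκe, hK]
    have h1 : (#(A' * A') : ℝ) ≤ #(A * A) := by
      exact_mod_cast card_le_card (mul_subset_mul hsub hsub)
    have h2 : (#A : ℝ) ≤ 2 * #A' := by
      have : #A ≤ 2 * #A' := by omega
      exact_mod_cast this
    rw [div_le_iff₀ hn'pos]
    have h3 : (0 : ℝ) ≤ (#(A * A) : ℝ) := Nat.cast_nonneg _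
    have h4 : (#(A * A) : ℝ) = (#(A * A) : ℝ) / #A * #A := (div_mul_cancel₀ _ hnpos.ne').symm
    have h5 : (0 : ℝ) ≤ (#(A * A) : ℝ) / #A := div_nonneg h3 hnpos.le
    nlinarith
  -- lam
  have hlam0 : 1 ≤ lam := by
    rw [hlam]
    unfold Ld
    have : (0 : ℝ) ≤ ((Nat.log 2 #(toQ A') : ℕ) : ℝ) := Nat.cast_nonneg _
    linarith
  have hlam2 : lam ≤ 3 * x := by
    rw [hlam, hx]
    unfold Ld
    rw [c1]
    exact log_FIN _ _ hA hn'1 hn'n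
  have hx2 : Real.log 2 ≤ x := Real.log_le_log (by norm_num) (by exact_mod_cast hA)
  have hx0 : 0 < x := lt_of_lt_of_le hlog2 hx2
  -- the good sets
  set T : Finset (Finset ℤ) := (A'.powersetCard k).filter (fun X => good k X) with hTdef
  have hT : ∀ X, X ∈ T ↔ X ⊆ A' ∧ good k X := by
    intro X
    rw [hTdef, mem_filter, mem_powersetCard]
    constructor
    · rintro ⟨⟨h, _⟩, hg⟩
      exact ⟨h, hg⟩
    · rintro ⟨h, hg⟩
      exact ⟨⟨h, hg.1⟩, hg⟩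
  have e1 := hGOOD k (by omega) A' T hT
  set P : Finset (Finset ℤ × Finset ℤ) :=
    (T ×ˢ T).filter (fun p => p.1 ≠ p.2 ∧ ∑ y ∈ p.1, y = ∑ y ∈ p.2, y) with hPdef
  have e2 := hSUMS (Finset ℤ) ℤ T (fun X => ∑ y ∈ X, y) P (by
    intro X hX Y hY hne he
    rw [hPdef, mem_filter, mem_product]
    exact ⟨⟨hX, hY⟩, hne, he⟩)
  have e3 : (#(T.image (fun X => ∑ y ∈ X, y)) : ℝ) ≤ #(ksum k A) := by
    exact_mod_cast card_le_card (image_sub_FIN k A A' hsub T (fun X hX => (hT X).1 hX))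
  set D : ℕ → ℝ := fun j => Cd (2 * j) * (#A' : ℝ) ^ (2 * j / 3) * κ ^ cexp (2 * j - 1) *
    lam ^ (2 * j - 2) with hD
  have e4 := hCOL k A' h0 D (by
      intro j
      have := (hCd (2 * j)).le
      simp only [hD]
      positivity) (by
      intro j hj1 hj2
      have := hBR (2 * j) (by omega) (toQ A') hQne
      rw [c1] at this
      exact this) P (by
      intro p hp
      rw [hPdef, mem_filter, mem_product] at hp
      obtain ⟨⟨hp1, hp2⟩, hne, he⟩ := hp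
      have q1 := (hT _).1 hp1
      have q2 := (hT _).1 hp2
      exact ⟨q1.1, q2.1, q1.2, q2.2, hne, he⟩)
  have e5 : ∑ j ∈ Icc 1 k, (#A' : ℝ) ^ (k - j) * D j ≤
      Cs * ((#A : ℝ) ^ (k - 1) * κ ^ (12 * k ^ 3) * lam ^ (2 * k - 2)) := by
    rw [hCsdef, sum_mul]
    apply sum_le_sum
    intro j hj
    rw [mem_Icc] at hj
    have hexp : (k - j) + 2 * j / 3 ≤ k - 1 := by omega
    have hc : cexp (2 * j - 1) ≤ 12 * k ^ 3 :=
      (hCX.2.1 (2 * j - 1) (2 * k - 1) (by omega)).trans (hCX.2.2 k hk)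
    have t1 : (#A' : ℝ) ^ (k - j) * (#A' : ℝ) ^ (2 * j / 3) ≤ (#A : ℝ) ^ (k - 1) := by
      rw [← pow_add]
      exact (pow_le_pow_right₀ hn'1r hexp).trans (pow_le_pow_left₀ hn'pos.le hn'le _)
    have t2 : κ ^ cexp (2 * j - 1) ≤ κ ^ (12 * k ^ 3) := pow_le_pow_right₀ hκ1 hc
    have t3 : lam ^ (2 * j - 2) ≤ lam ^ (2 * k - 2) := pow_le_pow_right₀ hlam0 (by omega)
    have hCdp := (hCd (2 * j)).le
    have hκp : (0 : ℝ) ≤ κ := by linarith
    have hlp : (0 : ℝ) ≤ lam := by linarith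
    calc (#A' : ℝ) ^ (k - j) * D j
        = Cd (2 * j) * (((#A' : ℝ) ^ (k - j) * (#A' : ℝ) ^ (2 * j / 3)) * κ ^ cexp (2 * j - 1) *
          lam ^ (2 * j - 2)) := by
          simp only [hD]
          ring
      _ ≤ Cd (2 * j) * ((#A : ℝ) ^ (k - 1) * κ ^ (12 * k ^ 3) * lam ^ (2 * k - 2)) := by
          gcongr
  have e6 : κ ^ (12 * k ^ 3) * lam ^ (2 * k - 2) ≤
      (2 ^ (12 * k ^ 3) * 3 ^ (2 * k - 2)) * (K ^ (12 * k ^ 3) * x ^ (2 * k - 2)) := by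
    have t1 : κ ^ (12 * k ^ 3) ≤ (2 * K) ^ (12 * k ^ 3) :=
      pow_le_pow_left₀ (by linarith) hκ2 _
    have t2 : lam ^ (2 * k - 2) ≤ (3 * x) ^ (2 * k - 2) :=
      pow_le_pow_left₀ (by linarith) hlam2 _
    calc κ ^ (12 * k ^ 3) * lam ^ (2 * k - 2)
        ≤ (2 * K) ^ (12 * k ^ 3) * (3 * x) ^ (2 * k - 2) := by
          apply mul_le_mul t1 t2 (pow_nonneg (by linarith) _) (pow_nonneg (by linarith) _)
      _ = (2 ^ (12 * k ^ 3) * 3 ^ (2 * k - 2)) * (K ^ (12 * k ^ 3) * x ^ (2 * k - 2)) := by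
          rw [mul_pow, mul_pow]
          ring
  set E : ℝ := K ^ (12 * k ^ 3) * (#A : ℝ) ^ (k - 1) * x ^ (2 * k - 2) with hE
  have hNpow : (0 : ℝ) < (#A : ℝ) ^ (k - 1) := pow_pos hnpos _
  have e7 : (#A : ℝ) ^ (k - 1) ≤ E / (Real.log 2) ^ (2 * k - 2) := by
    have hl : (0 : ℝ) < (Real.log 2) ^ (2 * k - 2) := pow_pos hlog2 _
    rw [le_div_iff₀ hl, hE]
    have t1 : (1 : ℝ) ≤ K ^ (12 * k ^ 3) := one_le_pow₀ hK1
    have t2 : (Real.log 2) ^ (2 * k - 2) ≤ x ^ (2 * k - 2) := pow_le_pow_left₀ hlog2.le hx2 _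
    calc (#A : ℝ) ^ (k - 1) * (Real.log 2) ^ (2 * k - 2)
        ≤ (#A : ℝ) ^ (k - 1) * x ^ (2 * k - 2) := by gcongr
      _ = 1 * (#A : ℝ) ^ (k - 1) * x ^ (2 * k - 2) := by ring
      _ ≤ K ^ (12 * k ^ 3) * (#A : ℝ) ^ (k - 1) * x ^ (2 * k - 2) := by gcongr
  have e8 := hch #A #A' hn1
  have e9 : (#A' : ℝ) ^ (k - 1) ≤ (#A : ℝ) ^ (k - 1) := pow_le_pow_left₀ hn'pos.le hn'le _
  have e10 : (#P : ℝ) ≤ Cs * (2 ^ (12 * k ^ 3) * 3 ^ (2 * k - 2)) * E := by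
    refine e4.trans (e5.trans ?_)
    have t1 : (#A : ℝ) ^ (k - 1) * κ ^ (12 * k ^ 3) * lam ^ (2 * k - 2) ≤
        (2 ^ (12 * k ^ 3) * 3 ^ (2 * k - 2)) * E := by
      calc (#A : ℝ) ^ (k - 1) * κ ^ (12 * k ^ 3) * lam ^ (2 * k - 2)
          = (#A : ℝ) ^ (k - 1) * (κ ^ (12 * k ^ 3) * lam ^ (2 * k - 2)) := by ring
        _ ≤ (#A : ℝ) ^ (k - 1) * ((2 ^ (12 * k ^ 3) * 3 ^ (2 * k - 2)) *
            (K ^ (12 * k ^ 3) * x ^ (2 * k - 2))) := by gcongr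
        _ = (2 ^ (12 * k ^ 3) * 3 ^ (2 * k - 2)) * E := by
            rw [hE]
            ring
    calc Cs * ((#A : ℝ) ^ (k - 1) * κ ^ (12 * k ^ 3) * lam ^ (2 * k - 2))
        ≤ Cs * ((2 ^ (12 * k ^ 3) * 3 ^ (2 * k - 2)) * E) := by gcongr
      _ = Cs * (2 ^ (12 * k ^ 3) * 3 ^ (2 * k - 2)) * E := by ring
  have e11 : (Cc + 2 ^ k) * (#A : ℝ) ^ (k - 1) ≤
      (Cc + 2 ^ k) / (Real.log 2) ^ (2 * k - 2) * E := by
    calc (Cc + 2 ^ k) * (#A : ℝ) ^ (k - 1)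
        ≤ (Cc + 2 ^ k) * (E / (Real.log 2) ^ (2 * k - 2)) := by gcongr
      _ = (Cc + 2 ^ k) / (Real.log 2) ^ (2 * k - 2) * E := by ring
  have e12 : (2 : ℝ) ^ k * (#A' : ℝ) ^ (k - 1) ≤ 2 ^ k * (#A : ℝ) ^ (k - 1) := by gcongr
  have e13 : ((Cc + 2 ^ k) / (Real.log 2) ^ (2 * k - 2) +
      Cs * (2 ^ (12 * k ^ 3) * 3 ^ (2 * k - 2))) * K ^ (12 * k ^ 3) * (#A : ℝ) ^ (k - 1) *
      x ^ (2 * k - 2) = (Cc + 2 ^ k) / (Real.log 2) ^ (2 * k - 2) * E +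
      Cs * (2 ^ (12 * k ^ 3) * 3 ^ (2 * k - 2)) * E := by
    rw [hE]
    ring
  rw [e13]
  linarith

end Pool.Agent.Helper9.FU
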