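import Mathlib
import Pool.Agent.Helper9.FU.St

set_option autoImplicit false

namespace Pool.Agent.Helper9.FU

open Finset
open scoped Pointwise Nat

theorem hGOOD : StGOOD := by
  intro k hk A T hT
  classical
  have h1 : T = (A.powersetCard k).filter (fun X => good k X) := by
    ext X
    rw [hT, mem_filter, mem_powersetCard]
    constructor
    · rintro ⟨h, hg⟩
      exact ⟨⟨h, hg.1⟩, hg⟩
    · rintro ⟨⟨h, _⟩, hg⟩
      exact ⟨h, hg⟩
  have hsplit : #T + #((A.powersetCard k).filter (fun X => ¬ good k X)) = (#A).choose k := by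
    rw [h1, Finset.card_filter_add_card_filter_not, card_powersetCard]
  have hB : #((A.powersetCard k).filter (fun X => ¬ good k X)) ≤
      2 ^ (k - 1) * #A ^ (k - 1) := by
    have hsub : (A.powersetCard k).filter (fun X => ¬ good k X) ⊆
        ((A.powersetCard (k - 1)).sigma (fun X => X.powerset)).image
          (fun p => insert (- ∑ y ∈ p.2, y) p.1) := by
      intro X hX
      rw [mem_filter, mem_powersetCard] at hX
      obtain ⟨⟨hXA, hXk⟩, hng⟩ := hX
      have hex : ∃ Y ⊆ X, Y.Nonempty ∧ ∑ y ∈ Y, y = 0 := by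
        by_contra hcon
        push Not at hcon
        exact hng ⟨hXk, fun Y hY hne => hcon Y hY hne⟩
      obtain ⟨Y, hYX, hYne, hY0⟩ := hex
      obtain ⟨y0, hy0⟩ := hYne
      rw [mem_image]
      refine ⟨⟨X.erase y0, Y.erase y0⟩, ?_, ?_⟩
      · rw [mem_sigma, mem_powersetCard, mem_powerset]
        refine ⟨⟨(erase_subset _ _).trans hXA, ?_⟩, erase_subset_erase _ hYX⟩
        simp only
        rw [card_erase_of_mem (hYX hy0), hXk]
      · have hs : y0 + ∑ y ∈ Y.erase y0, y = 0 := by
          rw [add_sum_erase Y (fun y => y) hy0]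
          exact hY0
        have hneg : - ∑ y ∈ Y.erase y0, y = y0 := by linarith
        simp only
        rw [hneg, insert_erase (hYX hy0)]
    refine (card_le_card hsub).trans (card_image_le.trans ?_)
    rw [card_sigma]
    have : ∀ X ∈ A.powersetCard (k - 1), #(X.powerset) = 2 ^ (k - 1) := by
      intro X hX
      rw [card_powerset, (mem_powersetCard.1 hX).2]
    rw [sum_congr rfl this, sum_const, card_powersetCard, smul_eq_mul, mul_comm]
    exact Nat.mul_le_mul_left _ (Nat.choose_le_pow _ _)
  have hB2 : (#((A.powersetCard k).filter (fun X => ¬ good k X)) : ℝ) ≤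
      2 ^ k * (#A : ℝ) ^ (k - 1) := by
    have h2 : (#((A.powersetCard k).filter (fun X => ¬ good k X)) : ℝ) ≤
        2 ^ (k - 1) * (#A : ℝ) ^ (k - 1) := by exact_mod_cast hB
    refine h2.trans ?_
    gcongr
    · norm_num
    · omega
  have hs : (#T : ℝ) + #((A.powersetCard k).filter (fun X => ¬ good k X)) =
      ((#A).choose k : ℝ) := by exact_mod_cast hsplit
  linarith

end Pool.Agent.Helper9.FU
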