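import Mathlib
import Pool.Agent.Helper9.FU.St

set_option autoImplicit false

namespace Pool.Agent.Helper9.FU

open Finset
open scoped Pointwise Nat

private theorem coef_HOM (x y z : ℚˣ) : (((-x / (y * z) : ℚˣ)) : ℚ) = -(x : ℚ) / ((y : ℚ) * (z : ℚ)) := by
  rw [Units.val_div_eq_div_val, Units.val_neg, Units.val_mul]

theorem hHOM : StHOM := by
  intro A s N hs hN hBd ι _ a hcard S hS
  classical
  have hne : Nonempty ι := Fintype.card_pos_iff.1 (by omega)
  obtain ⟨i0⟩ := hne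
  have h1 : #S = ∑ v ∈ A, #(S.filter (fun z => z i0 = v)) :=
    Finset.card_eq_sum_card_fiberwise (fun z hz => (hS z hz).1 i0)
  have h2 : ∀ v ∈ A, (#(S.filter (fun z => z i0 = v)) : ℝ) ≤ N := by
    intro v _
    have inj : Set.InjOn (fun (z : ι → ℚˣ) (i : {i // i ≠ i0}) => z i.1)
        ((S.filter (fun z => z i0 = v) : Finset (ι → ℚˣ)) : Set (ι → ℚˣ)) := by
      intro z hz z' hz' h
      rw [Finset.mem_coe, Finset.mem_filter] at hz hz'
      funext i
      by_cases hi : i = i0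
      · rw [hi, hz.2, hz'.2]
      · exact congrFun h ⟨i, hi⟩
    rw [← Finset.card_image_of_injOn inj]
    apply hBd {i // i ≠ i0} (fun i => -(a i.1) / (a i0 * v))
    · rw [Fintype.card_subtype_compl, Fintype.card_subtype_eq]
      omega
    intro x hx
    rw [Finset.mem_image] at hx
    obtain ⟨z, hz, rfl⟩ := hx
    rw [Finset.mem_filter] at hz
    obtain ⟨hzS, hzv⟩ := hz
    obtain ⟨g1, g2, g3⟩ := hS z hzS
    have ha0 : ((a i0 : ℚˣ) : ℚ) ≠ 0 := (a i0).ne_zero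
    have hv0 : ((v : ℚˣ) : ℚ) ≠ 0 := v.ne_zero
    refine ⟨fun i => g1 i.1, ?_, ?_⟩
    · rw [Fintype.sum_eq_add_sum_subtype_ne (fun i => (a i : ℚ) * (z i : ℚ)) i0, hzv] at g2
      have e1 : ∑ i : {i // i ≠ i0}, ((-(a i.1) / (a i0 * v) : ℚˣ) : ℚ) * (z i.1 : ℚ) =
          -(∑ i : {i // i ≠ i0}, (a i.1 : ℚ) * (z i.1 : ℚ)) / ((a i0 : ℚ) * (v : ℚ)) := by
        rw [neg_div, Finset.sum_div, ← Finset.sum_neg_distrib]
        apply Finset.sum_congr rfl
        intro i _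
        rw [coef_HOM]
        ring
      have e2 : ∑ i : {i // i ≠ i0}, (a i.1 : ℚ) * (z i.1 : ℚ) = -((a i0 : ℚ) * (v : ℚ)) := by
        linarith
      show ∑ i : {i // i ≠ i0}, ((-(a i.1) / (a i0 * v) : ℚˣ) : ℚ) * (z i.1 : ℚ) = 1
      rw [e1, e2, neg_neg]
      exact div_self (mul_ne_zero ha0 hv0)
    · intro I hI
      show ∑ i ∈ I, ((-(a i.1) / (a i0 * v) : ℚˣ) : ℚ) * (z i.1 : ℚ) ≠ 0
      have e1 : ∑ i ∈ I, ((-(a i.1) / (a i0 * v) : ℚˣ) : ℚ) * (z i.1 : ℚ) =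
          -(∑ i ∈ I, (a i.1 : ℚ) * (z i.1 : ℚ)) / ((a i0 : ℚ) * (v : ℚ)) := by
        rw [neg_div, Finset.sum_div, ← Finset.sum_neg_distrib]
        apply Finset.sum_congr rfl
        intro i _
        rw [coef_HOM]
        ring
      have e2 : ∑ i ∈ I, (a i.1 : ℚ) * (z i.1 : ℚ) =
          ∑ i ∈ I.map (Function.Embedding.subtype _), (a i : ℚ) * (z i : ℚ) := by
        rw [Finset.sum_map]
        rfl
      rw [e1, e2]
      apply div_ne_zero _ (mul_ne_zero ha0 hv0)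
      apply neg_ne_zero.2
      apply g3
      · exact hI.map
      · intro h
        have h3 : i0 ∈ I.map (Function.Embedding.subtype _) := h ▸ Finset.mem_univ i0
        rw [Finset.mem_map] at h3
        obtain ⟨j, _, hj⟩ := h3
        exact j.2 hj
  rw [h1]
  push_cast
  calc ∑ v ∈ A, (#(S.filter (fun z => z i0 = v)) : ℝ) ≤ ∑ v ∈ A, N := Finset.sum_le_sum h2
    _ = #A * N := by simp

end Pool.Agent.Helper9.FU
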