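import Mathlib
import Pool.Agent.Helper9.FU.St

/-! Project FU (MP_cc0731_co), module HTD: height of a quotient of two nonzero integers. -/

set_option autoImplicit false

namespace Pool.Agent.Helper9.FU

open Finset
open scoped Pointwise Nat

theorem hHTD : StHTD := by
  intro p q hp hq
  have hpq : ((p : ℚ) / (q : ℚ)) = Rat.divInt p q := by
    rw [Rat.divInt_eq_div]
  have h1 : (((p : ℚ) / (q : ℚ)).num) ∣ p := by
    rw [hpq]; exact Rat.num_dvd p hq
  have h2 : ((((p : ℚ) / (q : ℚ)).den : ℤ)) ∣ q := by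
    rw [hpq]; exact Rat.den_dvd p q
  unfold ht
  refine max_le_max ?_ ?_
  · exact Nat.le_of_dvd (Int.natAbs_pos.2 hp) (Int.natAbs_dvd_natAbs.2 h1)
  · have h3 : ((((p : ℚ) / (q : ℚ)).den : ℤ)).natAbs ∣ q.natAbs := Int.natAbs_dvd_natAbs.2 h2
    rw [Int.natAbs_natCast] at h3
    exact Nat.le_of_dvd (Int.natAbs_pos.2 hq) h3

end Pool.Agent.Helper9.FU
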