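import Mathlib
import Pool.Agent.Helper9.FU.St

set_option autoImplicit false

namespace Pool.Agent.Helper9.FU

open Finset
open scoped Pointwise Nat

private lemma ht_pos_LEN (x : ℚ) : 1 ≤ ht x := x.den_pos.trans_le (le_max_right _ _)

private lemma ht_inv_LEN (hHTD : StHTD) {x : ℚ} (hx : x ≠ 0) : ht x⁻¹ ≤ ht x := by
  have h1 : x⁻¹ = ((x.den : ℤ) : ℚ) / (x.num : ℚ) := by
    conv_lhs => rw [← Rat.num_div_den x]
    rw [inv_div]
    push_cast
    rfl
  rw [h1]
  refine (hHTD _ _ (by exact_mod_cast x.den_pos.ne') (Rat.num_ne_zero.mpr hx)).trans ?_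
  unfold ht
  rw [max_comm]
  simp

private lemma ht_mul_LEN (hHTD : StHTD) {x y : ℚ} (hx : x ≠ 0) (hy : y ≠ 0) :
    ht (x * y) ≤ ht x * ht y := by
  have h1 : x * y = ((x.num * y.num : ℤ) : ℚ) / ((x.den * y.den : ℤ) : ℚ) := by
    conv_lhs => rw [← Rat.num_div_den x, ← Rat.num_div_den y]
    push_cast
    rw [div_mul_div_comm]
  rw [h1]
  refine (hHTD _ _ (mul_ne_zero (Rat.num_ne_zero.mpr hx) (Rat.num_ne_zero.mpr hy))
    (by exact_mod_cast (Nat.mul_pos x.den_pos y.den_pos).ne')).trans ?_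
  rw [Int.natAbs_mul, Int.natAbs_mul, Int.natAbs_natCast, Int.natAbs_natCast]
  unfold ht
  exact max_le (Nat.mul_le_mul (le_max_left _ _) (le_max_left _ _))
    (Nat.mul_le_mul (le_max_right _ _) (le_max_right _ _))

private lemma ht_pow_LEN (x : ℚ) (j : ℕ) : ht (x ^ j) = ht x ^ j := by
  unfold ht
  rw [Rat.num_pow, Rat.den_pow, Int.natAbs_pow]
  have hm : Monotone (fun a : ℕ => a ^ j) := fun a b h => Nat.pow_le_pow_left h j
  exact (hm.map_max (a := x.num.natAbs) (b := x.den)).symm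

theorem hLEN (hHTD : StHTD) : StLEN where
  nonneg x := Real.log_nonneg (by exact_mod_cast ht_pos_LEN (x : ℚ))
  one := by
    have h : ht (((1 : ℚˣ) : ℚ)) = 1 := by
      unfold ht
      simp
    unfold ell
    rw [h]
    simp
  inv x := by
    have h1 := ht_inv_LEN hHTD x.ne_zero
    have h2 := ht_inv_LEN hHTD (inv_ne_zero x.ne_zero)
    rw [inv_inv] at h2
    unfold ell
    rw [Units.val_inv_eq_inv_val, le_antisymm h1 h2]
  mul x y := by
    have h1 := ht_mul_LEN hHTD x.ne_zero y.ne_zero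
    have hx : (1 : ℝ) ≤ ht (x : ℚ) := by exact_mod_cast ht_pos_LEN (x : ℚ)
    have hy : (1 : ℝ) ≤ ht (y : ℚ) := by exact_mod_cast ht_pos_LEN (y : ℚ)
    have hxy : (1 : ℝ) ≤ ht ((x * y : ℚˣ) : ℚ) := by
      exact_mod_cast ht_pos_LEN ((x * y : ℚˣ) : ℚ)
    unfold ell
    rw [← Real.log_mul (by linarith) (by linarith)]
    refine Real.log_le_log (by linarith) ?_
    rw [Units.val_mul]
    exact_mod_cast h1
  pow x j := by
    unfold ell
    rw [Units.val_pow_eq_pow_val, ht_pow_LEN]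
    push_cast
    rw [Real.log_pow]

end Pool.Agent.Helper9.FU
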