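import Mathlib
import Pool.Agent.Helper9.FU.St

set_option autoImplicit false

namespace Pool.Agent.Helper9.FU

open Finset
open scoped Pointwise Nat

theorem hLIN : StLIN := by
  intro ι _ _ _ S hS
  by_cases htop : Submodule.span ℚ S = ⊤
  · exfalso
    obtain ⟨b, hbS, hspan, hli⟩ := exists_linearIndependent ℚ S
    have hspan' : Submodule.span ℚ b = ⊤ := by rw [hspan, htop]
    let B : Module.Basis b ℚ (ι → ℚ) := Module.Basis.mk hli (by
      rw [Subtype.range_coe, hspan'])
    have hfin : Finite b := Module.Finite.finite_basis B
    have : Fintype b := Fintype.ofFinite b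
    have hcard : Fintype.card ι = Fintype.card b := by
      rw [← Module.finrank_eq_card_basis B, Module.finrank_fintype_fun_eq_card]
    let e : ι ≃ b := Fintype.equivOfCardEq hcard
    have hli2 : LinearIndependent ℚ (fun k : ι => ((e k : ι → ℚ))) :=
      hli.comp e e.injective
    have hdet := hS (fun k => (e k : ι → ℚ)) (fun k => hbS (e k).2)
    have hunit : IsUnit (Matrix.of fun k => ((e k : ι → ℚ))) :=
      (Matrix.linearIndependent_rows_iff_isUnit).mp hli2
    rw [Matrix.isUnit_iff_isUnit_det, isUnit_iff_ne_zero] at hunit
    exact hunit hdet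
  · obtain ⟨f, hf, hf2⟩ := Submodule.exists_le_ker_of_lt_top _ (lt_top_iff_ne_top.mpr htop)
    refine ⟨fun i => f (Pi.single i 1), ?_, ?_⟩
    · intro h
      apply hf
      refine LinearMap.pi_ext' fun i => ?_
      ext
      simpa using congrFun h i
    · intro x hx
      have h1 : f x = 0 := hf2 (Submodule.subset_span hx)
      have h2 : f x = ∑ i, x i * f (Pi.single i 1) := by
        conv_lhs => rw [← Finset.univ_sum_single x]
        rw [map_sum]
        refine Finset.sum_congr rfl fun i _ => ?_
        have h3 : (Pi.single i (x i) : ι → ℚ) = x i • Pi.single i 1 := by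
          rw [← Pi.single_smul, smul_eq_mul, mul_one]
        rw [h3, map_smul, smul_eq_mul]
      rw [← h1, h2]
      exact Finset.sum_congr rfl fun i _ => mul_comm _ _

end Pool.Agent.Helper9.FU
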