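import Mathlib
import Pool.Agent.Helper9.FU.St

set_option autoImplicit false

namespace Pool.Agent.Helper9.FU

open Finset
open scoped Pointwise Nat

theorem hREC (hLEN : StLEN) (hFH : StFH) (hSC : StSC) (hELIM : StELIM) (hCL : StCL) :
    StREC := by
  classical
  intro m hm
  obtain ⟨N0, hN0⟩ := hFH (25 * Real.log (m ! : ℝ))
  refine ⟨(N0 : ℝ) ^ m, by positivity, ?_⟩
  intro A hA F Z hZ hF hB hFZ
  intro ι _ a hι S hS
  have hne : (Finset.univ : Finset ι).Nonempty := by
    rw [← Finset.card_pos, Finset.card_univ, hι]; omega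
  set h : (ι → ℚˣ) → ℝ := fun x => Finset.univ.sup' hne (fun i => ell (a i * x i)) with hh
  have hle : ∀ x i, ell (a i * x i) ≤ h x := fun x i =>
    Finset.le_sup' (fun i => ell (a i * x i)) (Finset.mem_univ i)
  have hatt : ∀ x, ∃ i, h x = ell (a i * x i) := by
    intro x
    obtain ⟨i, _, hi⟩ := Finset.exists_mem_eq_sup' hne (fun i => ell (a i * x i))
    exact ⟨i, hi⟩
  set h0 : ℝ := 25 * Real.log (m ! : ℝ) with hh0
  have hh0nn : 0 ≤ h0 := by
    have : (1 : ℝ) ≤ (m ! : ℝ) := by exact_mod_cast Nat.factorial_pos m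
    have := Real.log_nonneg this
    positivity
  have hsplit : (#S : ℝ) = #(S.filter (fun x => h x ≤ h0)) +
      #(S.filter (fun x => ¬ h x ≤ h0)) := by
    exact_mod_cast (Finset.card_filter_add_card_filter_not (s := S) (fun x => h x ≤ h0)).symm
  have hA1 : (#(S.filter (fun x => h x ≤ h0)) : ℝ) ≤ (N0 : ℝ) ^ m := by
    set T : Finset ℚˣ := (S.filter (fun x => h x ≤ h0)).biUnion
      (fun x => Finset.univ.image (fun i => a i * x i)) with hT
    have hTN : #T ≤ N0 := by
      apply hN0
      intro y hy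
      rw [hT, Finset.mem_biUnion] at hy
      obtain ⟨x, hx, hy⟩ := hy
      rw [Finset.mem_image] at hy
      obtain ⟨i, _, rfl⟩ := hy
      exact (hle x i).trans (Finset.mem_filter.1 hx).2
    have hcard : #(S.filter (fun x => h x ≤ h0)) ≤ #(Fintype.piFinset fun _ : ι => T) := by
      apply Finset.card_le_card_of_injOn (fun x i => a i * x i)
      · intro x hx
        rw [Finset.mem_coe, Fintype.mem_piFinset]
        intro i
        rw [hT, Finset.mem_biUnion]
        exact ⟨x, hx, Finset.mem_image_of_mem _ (Finset.mem_univ i)⟩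
      · intro x _ y _ hxy
        funext i
        have := congrFun hxy i
        exact mul_left_cancel this
    rw [Fintype.card_piFinset, Finset.prod_const, Finset.card_univ, hι] at hcard
    calc (#(S.filter (fun x => h x ≤ h0)) : ℝ) ≤ ((#T ^ m : ℕ) : ℝ) := by exact_mod_cast hcard
      _ ≤ (N0 : ℝ) ^ m := by
        push_cast
        have : (#T : ℝ) ≤ N0 := by exact_mod_cast hTN
        gcongr
  have hK : 0 ≤ Kd A := by unfold Kd; positivity
  have hA2 : (#(S.filter (fun x => ¬ h x ≤ h0)) : ℝ) ≤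
      4 * Ld A * ((2 * Kd A ^ (4 * m + 7)) ^ m * (2 ^ m * Z)) := by
    apply hSC ℚˣ ell hLEN A hA (ι → ℚˣ) (S.filter (fun x => ¬ h x ≤ h0)) h
      ((2 * Kd A ^ (4 * m + 7)) ^ m * (2 ^ m * Z))
    · positivity
    · intro x hx
      have := (Finset.mem_filter.1 hx).2
      push Not at this
      linarith
    · intro S' hS' h1 h2 h1pos h12 hV hex hbd
      obtain ⟨x0, hx0, hx01⟩ := hex
      have hh1 : h0 < h1 := by
        have := (Finset.mem_filter.1 (hS' hx0)).2
        push Not at this
        linarith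
      apply hCL m hm A hA ι a hι (2 ^ m * Z) (by positivity)
        (fun b hb S hS => hELIM A m F Z hZ hF hB hFZ ι a b hι hb S hS) h1 h2 h1pos hh1 h12 hV S'
      intro x hx
      refine ⟨hS x (Finset.mem_filter.1 (hS' hx)).1, fun i => (hle x i).trans (hbd x hx).2, ?_⟩
      obtain ⟨i, hi⟩ := hatt x
      exact ⟨i, by rw [← hi]; exact (hbd x hx).1⟩
  rw [hsplit]
  linarith

end Pool.Agent.Helper9.FU
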