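import Mathlib
import Pool.Agent.Helper9.FU.St

set_option autoImplicit false

namespace Pool.Agent.Helper9.FU

open Finset
open scoped Pointwise Nat

/-- a set of scales all pairs of which satisfy the condition -/
private theorem cls_SC {G : Type} [CommGroup G] (l : G → ℝ) (A : Finset G) {α : Type}
    (S : Finset α) (h : α → ℝ) (Z : ℝ) (hZ : 0 ≤ Z) (hpos : ∀ x ∈ S, 0 < h x)
    (H : ∀ S' ⊆ S, ∀ h1 h2 : ℝ, 0 < h1 → h1 ≤ h2 →
      (V l A (3 * h2) ≤ 2 * V l A h1 ∨ h2 ≤ 3 / 2 * h1) → (∃ x ∈ S', h x = h1) →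
      (∀ x ∈ S', h1 ≤ h x ∧ h x ≤ h2) → (#S' : ℝ) ≤ Z)
    (S' : Finset α) (hS' : S' ⊆ S)
    (hc : ∀ x ∈ S', ∀ x' ∈ S', V l A (3 * h x') ≤ 2 * V l A (h x) ∨ h x' ≤ 3 / 2 * h x) :
    (#S' : ℝ) ≤ Z := by
  rcases S'.eq_empty_or_nonempty with rfl | hne
  · simpa using hZ
  · obtain ⟨x, hx, hmin⟩ := S'.exists_min_image h hne
    obtain ⟨x', hx', hmax⟩ := S'.exists_max_image h hne
    exact H S' hS' (h x) (h x') (hpos x (hS' hx)) (hmin x' hx') (hc x hx x' hx') ⟨x, hx, rfl⟩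
      (fun y hy => ⟨hmin y hy, hmax y hy⟩)

/-- a set of scales of ratio less than `3` -/
private theorem three_SC {G : Type} [CommGroup G] (l : G → ℝ) (A : Finset G) {α : Type}
    (S : Finset α) (h : α → ℝ) (Z : ℝ) (hZ : 0 ≤ Z) (hpos : ∀ x ∈ S, 0 < h x)
    (H : ∀ S' ⊆ S, ∀ h1 h2 : ℝ, 0 < h1 → h1 ≤ h2 →
      (V l A (3 * h2) ≤ 2 * V l A h1 ∨ h2 ≤ 3 / 2 * h1) → (∃ x ∈ S', h x = h1) →
      (∀ x ∈ S', h1 ≤ h x ∧ h x ≤ h2) → (#S' : ℝ) ≤ Z)
    (R : Finset α) (hR : R ⊆ S) (hc : ∀ x ∈ R, ∀ x' ∈ R, h x' < 3 * h x) :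
    (#R : ℝ) ≤ 3 * Z := by
  classical
  rcases R.eq_empty_or_nonempty with rfl | hne
  · simpa using hZ
  · obtain ⟨x, hx, hmin⟩ := R.exists_min_image h hne
    have hg : 0 < h x := hpos x (hR hx)
    have h1 : (#(R.filter (fun y => h y < 3 / 2 * h x)) : ℝ) ≤ Z := by
      refine cls_SC l A S h Z hZ hpos H _ ((filter_subset _ _).trans hR) ?_
      intro y hy y' hy'
      rw [mem_filter] at hy hy'
      right
      have := hmin y hy.1
      linarith [hy'.2]
    have h2 : (#(R.filter (fun y => 3 / 2 * h x ≤ h y ∧ h y < 9 / 4 * h x)) : ℝ) ≤ Z := by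
      refine cls_SC l A S h Z hZ hpos H _ ((filter_subset _ _).trans hR) ?_
      intro y hy y' hy'
      rw [mem_filter] at hy hy'
      right
      linarith [hy'.2.2, hy.2.1]
    have h3 : (#(R.filter (fun y => 9 / 4 * h x ≤ h y)) : ℝ) ≤ Z := by
      refine cls_SC l A S h Z hZ hpos H _ ((filter_subset _ _).trans hR) ?_
      intro y hy y' hy'
      rw [mem_filter] at hy hy'
      right
      have := hc x hx y' hy'.1
      linarith [hy.2]
    have hsub : R ⊆ (R.filter (fun y => h y < 3 / 2 * h x) ∪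
        R.filter (fun y => 3 / 2 * h x ≤ h y ∧ h y < 9 / 4 * h x)) ∪
        R.filter (fun y => 9 / 4 * h x ≤ h y) := by
      intro y hy
      rw [mem_union, mem_union, mem_filter, mem_filter, mem_filter]
      by_cases c1 : h y < 3 / 2 * h x
      · exact Or.inl (Or.inl ⟨hy, c1⟩)
      · by_cases c2 : h y < 9 / 4 * h x
        · exact Or.inl (Or.inr ⟨hy, not_lt.1 c1, c2⟩)
        · exact Or.inr ⟨hy, not_lt.1 c2⟩
    have h4 : #R ≤ #(R.filter (fun y => h y < 3 / 2 * h x)) +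
        #(R.filter (fun y => 3 / 2 * h x ≤ h y ∧ h y < 9 / 4 * h x)) +
        #(R.filter (fun y => 9 / 4 * h x ≤ h y)) :=
      (card_le_card hsub).trans ((card_union_le _ _).trans
        (Nat.add_le_add_right (card_union_le _ _) _))
    have h5 : (#R : ℝ) ≤ (#(R.filter (fun y => h y < 3 / 2 * h x)) : ℝ) +
        #(R.filter (fun y => 3 / 2 * h x ≤ h y ∧ h y < 9 / 4 * h x)) +
        #(R.filter (fun y => 9 / 4 * h x ≤ h y)) := by exact_mod_cast h4
    linarith

theorem hSC (hVB : StVB) : StSC := by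
  classical
  intro G _ l hl A hA α S h Z hZ hpos H
  obtain ⟨-, -, hmono, hle, hone⟩ := hVB G l hl A
  set T := Nat.log 2 #A with hT
  set t : α → ℕ := fun x => Nat.log 2 (V l A (h x)) with ht
  set u : α → ℕ := fun x => Nat.log 2 (V l A (3 * h x)) with hu
  have htu : ∀ x ∈ S, t x ≤ u x := fun x hx =>
    Nat.log_mono_right (hmono _ _ (by have := hpos x hx; linarith))
  have huT : ∀ x, u x ≤ T := fun x => Nat.log_mono_right (hle _)
  have hVpos : ∀ r, 0 ≤ r → V l A r ≠ 0 := fun r hr => by have := hone hA r hr; omega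
  have hlow : ∀ r, 0 ≤ r → 2 ^ Nat.log 2 (V l A r) ≤ V l A r := fun r hr =>
    Nat.pow_log_le_self 2 (hVpos r hr)
  have hup : ∀ r, V l A r < 2 ^ (Nat.log 2 (V l A r) + 1) := fun r =>
    Nat.lt_pow_succ_log_self (by norm_num) _
  have ha : ∀ k, (#(S.filter (fun x => t x = k ∧ u x = k)) : ℝ) ≤ Z := by
    intro k
    refine cls_SC l A S h Z hZ hpos H _ (filter_subset _ _) ?_
    intro x hx x' hx'
    rw [mem_filter] at hx hx'
    left
    have h1 := hup (3 * h x')
    have h2 := hlow (h x) (hpos x hx.1).le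
    have e1 : Nat.log 2 (V l A (3 * h x')) = k := hx'.2.2
    have e2 : Nat.log 2 (V l A (h x)) = k := hx.2.1
    rw [e1, pow_succ] at h1
    rw [e2] at h2
    omega
  have hb : ∀ k, (#(S.filter (fun x => t x = k ∧ k < u x)) : ℝ) ≤ 3 * Z := by
    intro k
    refine three_SC l A S h Z hZ hpos H _ (filter_subset _ _) ?_
    intro x hx x' hx'
    rw [mem_filter] at hx hx'
    by_contra hcon
    push Not at hcon
    have h1 := hup (h x')
    have h2 := hlow (3 * h x) (by have := hpos x hx.1; linarith)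
    have h3 := hmono _ _ hcon
    have e1 : Nat.log 2 (V l A (h x')) = k := hx'.2.1
    rw [e1] at h1
    have h4 : 2 ^ (k + 1) ≤ 2 ^ Nat.log 2 (V l A (3 * h x)) :=
      Nat.pow_le_pow_right (by norm_num) hx.2.2
    omega
  have hsub : S ⊆ (range (T + 1)).biUnion (fun k => S.filter (fun x => t x = k ∧ u x = k)) ∪
      (range T).biUnion (fun k => S.filter (fun x => t x = k ∧ k < u x)) := by
    intro x hx
    rw [mem_union, mem_biUnion, mem_biUnion]
    rcases (htu x hx).eq_or_lt with he | hlt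
    · left
      exact ⟨t x, mem_range.2 (by have := huT x; omega), mem_filter.2 ⟨hx, rfl, he.symm⟩⟩
    · right
      exact ⟨t x, mem_range.2 (by have := huT x; omega), mem_filter.2 ⟨hx, rfl, hlt⟩⟩
  have hcard : #S ≤ ∑ k ∈ range (T + 1), #(S.filter (fun x => t x = k ∧ u x = k)) +
      ∑ k ∈ range T, #(S.filter (fun x => t x = k ∧ k < u x)) :=
    (card_le_card hsub).trans ((card_union_le _ _).trans
      (Nat.add_le_add card_biUnion_le card_biUnion_le))
  have hcard' : (#S : ℝ) ≤ ∑ k ∈ range (T + 1), (#(S.filter (fun x => t x = k ∧ u x = k)) : ℝ) +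
      ∑ k ∈ range T, (#(S.filter (fun x => t x = k ∧ k < u x)) : ℝ) := by exact_mod_cast hcard
  have s1 : ∑ k ∈ range (T + 1), (#(S.filter (fun x => t x = k ∧ u x = k)) : ℝ) ≤
      ((T : ℝ) + 1) * Z := by
    refine (sum_le_sum fun k _ => ha k).trans_eq ?_
    rw [sum_const, card_range, nsmul_eq_mul]
    push_cast
    ring
  have s2 : ∑ k ∈ range T, (#(S.filter (fun x => t x = k ∧ k < u x)) : ℝ) ≤
      (T : ℝ) * (3 * Z) := by
    refine (sum_le_sum fun k _ => hb k).trans_eq ?_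
    rw [sum_const, card_range, nsmul_eq_mul]
  have hLd : Ld A = (T : ℝ) + 1 := rfl
  rw [hLd]
  nlinarith

end Pool.Agent.Helper9.FU
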