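import Mathlib
import Pool.Agent.Helper9.FU.St

set_option autoImplicit false

namespace Pool.Agent.Helper9.FU

open Finset
open scoped Pointwise Nat

theorem hSUMS : StSUMS := by
  classical
  intro α β _ T f P h
  have hrep : ∀ v ∈ T.image f, ∃ x ∈ T, f x = v := fun v hv => by
    rw [Finset.mem_image] at hv; exact hv
  let ρ : β → Option α := fun v => if hv : v ∈ T.image f then some (hrep v hv).choose else none
  have hρ : ∀ v (hv : v ∈ T.image f), ρ v = some (hrep v hv).choose := fun v hv => by
    show (if hv : v ∈ T.image f then some (hrep v hv).choose else none) = _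
    rw [dif_pos hv]
  let R : Finset α := T.filter (fun x => ρ (f x) = some x)
  let N : Finset α := T.filter (fun x => ¬ ρ (f x) = some x)
  have h1 : #R ≤ #(T.image f) := by
    refine Finset.card_le_card_of_injOn f ?_ ?_
    · intro x hx
      exact Finset.mem_image_of_mem f (Finset.mem_filter.1 hx).1
    · intro x hx y hy hxy
      have hx2 := (Finset.mem_filter.1 hx).2
      have hy2 := (Finset.mem_filter.1 hy).2
      rw [hxy, hy2] at hx2
      exact (Option.some.inj hx2).symm
  have h2 : #N ≤ #P := by
    have hpr : ∀ x ∈ N, ∃ y : α, (x, y) ∈ P := by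
      intro x hx
      obtain ⟨hxT, hxn⟩ := Finset.mem_filter.1 hx
      have hv : f x ∈ T.image f := Finset.mem_image_of_mem f hxT
      have hs := (hrep (f x) hv).choose_spec
      rw [hρ _ hv] at hxn
      refine ⟨(hrep (f x) hv).choose, h x hxT _ hs.1 ?_ hs.2.symm⟩
      intro he
      exact hxn (by rw [← he])
    choose! g hg using hpr
    refine Finset.card_le_card_of_injOn (fun x => (x, g x)) (fun x hx => hg x hx) ?_
    intro x _ y _ hxy
    exact congrArg Prod.fst hxy
  have h3 : #R + #N = #T := Finset.card_filter_add_card_filter_not _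
  have h4 : #T ≤ #(T.image f) + #P := by omega
  have h5 : (#T : ℝ) ≤ #(T.image f) + #P := by exact_mod_cast h4
  linarith

end Pool.Agent.Helper9.FU
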