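import Mathlib
import Pool.Agent.Helper9.FU.St

set_option autoImplicit false

namespace Pool.Agent.Helper9.FU

open Finset
open scoped Pointwise Nat

private theorem toU_coe_TOQ {z : ℤ} (h : z ≠ 0) : ((toU z : ℚˣ) : ℚ) = z := by
  have h' : (z : ℚ) ≠ 0 := by exact_mod_cast h
  unfold toU
  rw [dif_pos h']
  rfl

private theorem toU_inj_TOQ {x y : ℤ} (hx : x ≠ 0) (hy : y ≠ 0) (h : toU x = toU y) : x = y := by
  have h1 : ((toU x : ℚˣ) : ℚ) = ((toU y : ℚˣ) : ℚ) := by rw [h]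
  rw [toU_coe_TOQ hx, toU_coe_TOQ hy] at h1
  exact_mod_cast h1

private theorem toU_mul_TOQ {x y : ℤ} (hx : x ≠ 0) (hy : y ≠ 0) :
    toU (x * y) = toU x * toU y := by
  apply Units.ext
  rw [Units.val_mul, toU_coe_TOQ hx, toU_coe_TOQ hy, toU_coe_TOQ (mul_ne_zero hx hy)]
  push_cast
  rfl

theorem hTOQ : StTOQ := by
  intro A hA
  have hne : ∀ x ∈ A, x ≠ 0 := by
    intro x hx h
    exact hA (h ▸ hx)
  have hne2 : ∀ x ∈ A * A, x ≠ 0 := by
    intro x hx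
    obtain ⟨a, ha, b, hb, rfl⟩ := Finset.mem_mul.mp hx
    exact mul_ne_zero (hne a ha) (hne b hb)
  refine ⟨?_, ?_, ?_⟩
  · unfold toQ
    apply Finset.card_image_of_injOn
    intro x hx y hy h
    exact toU_inj_TOQ (hne x hx) (hne y hy) h
  · have hEq : toQ A * toQ A = (A * A).image toU := by
      ext u
      simp only [toQ, Finset.mem_mul, Finset.mem_image]
      constructor
      · rintro ⟨v, ⟨a, ha, rfl⟩, w, ⟨b, hb, rfl⟩, rfl⟩
        exact ⟨a * b, ⟨a, ha, b, hb, rfl⟩, toU_mul_TOQ (hne a ha) (hne b hb)⟩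
      · rintro ⟨c, ⟨a, ha, b, hb, rfl⟩, rfl⟩
        exact ⟨toU a, ⟨a, ha, rfl⟩, toU b, ⟨b, hb, rfl⟩, (toU_mul_TOQ (hne a ha) (hne b hb)).symm⟩
    rw [hEq]
    apply Finset.card_image_of_injOn
    intro x hx y hy h
    exact toU_inj_TOQ (hne2 x hx) (hne2 y hy) h
  · intro z hz
    exact ⟨Finset.mem_image_of_mem _ hz, toU_coe_TOQ (hne z hz)⟩

end Pool.Agent.Helper9.FU
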