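import Mathlib
import Pool.Agent.Helper9.FU.St

set_option autoImplicit false

namespace Pool.Agent.Helper9.FU

open Finset
open scoped Pointwise Nat

/-- Module VB: basic properties of the fullest ball number. -/
theorem hVB : StVB := by
  intro G _ l hl A
  have hcard : ∀ r c, #(ball l A c r) ≤ #A := fun r c => Finset.card_filter_le _ _
  have hbdd : ∀ r, BddAbove (Set.range fun c : G => #(ball l A c r)) := by
    intro r
    refine ⟨#A, ?_⟩
    rintro _ ⟨c, rfl⟩
    exact hcard r c
  have hle : ∀ r c, #(ball l A c r) ≤ V l A r := fun r c =>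
    le_ciSup (f := fun c : G => #(ball l A c r)) (hbdd r) c
  have hatt : ∀ r, ∃ c, #(ball l A c r) = V l A r := by
    intro r
    have h := Nat.sSup_mem (Set.range_nonempty fun c : G => #(ball l A c r)) (hbdd r)
    exact h
  refine ⟨hle, hatt, ?_, ?_, ?_⟩
  · intro r r' hrr
    obtain ⟨c, hc⟩ := hatt r
    rw [← hc]
    refine le_trans (Finset.card_le_card ?_) (hle r' c)
    intro y hy
    simp only [ball, Finset.mem_filter] at hy ⊢
    exact ⟨hy.1, le_trans hy.2 hrr⟩
  · intro r
    obtain ⟨c, hc⟩ := hatt r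
    rw [← hc]
    exact hcard r c
  · rintro ⟨a, ha⟩ r hr
    refine le_trans ?_ (hle r a)
    rw [Nat.succ_le_iff, Finset.card_pos]
    refine ⟨a, ?_⟩
    simp only [ball, Finset.mem_filter]
    refine ⟨ha, ?_⟩
    rw [div_self', hl.one]
    exact hr

end Pool.Agent.Helper9.FU
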