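import Mathlib
import Pool.Agent.Helper9.FU.M_HTD
import Pool.Agent.Helper9.FU.M_LEN
import Pool.Agent.Helper9.FU.M_FH
import Pool.Agent.Helper9.FU.M_VB
import Pool.Agent.Helper9.FU.M_COV
import Pool.Agent.Helper9.FU.M_CLS
import Pool.Agent.Helper9.FU.M_SC
import Pool.Agent.Helper9.FU.M_DIL
import Pool.Agent.Helper9.FU.M_DET
import Pool.Agent.Helper9.FU.M_LIN
import Pool.Agent.Helper9.FU.M_ELIM
import Pool.Agent.Helper9.FU.M_CL
import Pool.Agent.Helper9.FU.M_REC
import Pool.Agent.Helper9.FU.M_CX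
import Pool.Agent.Helper9.FU.M_F
import Pool.Agent.Helper9.FU.M_HOM
import Pool.Agent.Helper9.FU.M_BLK
import Pool.Agent.Helper9.FU.M_DS
import Pool.Agent.Helper9.FU.M_GOOD
import Pool.Agent.Helper9.FU.M_SUMS
import Pool.Agent.Helper9.FU.M_TOQ
import Pool.Agent.Helper9.FU.M_COL
import Pool.Agent.Helper9.FU.M_CH
import Pool.Agent.Helper9.FU.M_FIN

set_option autoImplicit false

namespace Pool.Agent.Helper9.FU

theorem len' : StLEN := hLEN hHTD
theorem cls' : StCLS := hCLS hVB hCOV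
theorem sc' : StSC := hSC hVB
theorem det' : StDET := hDET hHTD
theorem cl' : StCL := hCL len' cls' hDIL det' hLIN
theorem rec' : StREC := hREC len' hFH sc' hELIM cl'
theorem f' : StF := hF rec' hCX
theorem ds' : StDS := hDS f' hHOM hBLK hCX
theorem col' : StCOL := hCOL hTOQ

/-- The sharp few-products theorem. -/
theorem final : StFIN := hFIN ds' hGOOD hSUMS hTOQ col' hCH hCX

end Pool.Agent.Helper9.FU
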