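import Mathlib
import Pool.Agent.Helper9.FU.St

set_option autoImplicit false

namespace Pool.Agent.Helper9.FU

open Finset
open scoped Pointwise Nat

private theorem cexp_formula_CX (m : ℕ) :
    (6 * cexp (m + 1) : ℤ) = 8 * (m + 1 : ℤ) ^ 3 + 33 * (m + 1 : ℤ) ^ 2 + 25 * (m + 1) - 66 := by
  induction m with
  | zero => norm_num [cexp]
  | succ m ih =>
    have h : cexp (m + 1 + 1) = cexp (m + 1) + (m + 2) * (4 * (m + 2) + 7) := rfl
    rw [h]
    push_cast
    linarith

theorem hCX : StCX := by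
  refine ⟨?_, ?_, ?_⟩
  · intro m j h1 h2
    obtain ⟨j, rfl⟩ : ∃ j', j = j' + 1 := ⟨j - 1, by omega⟩
    obtain ⟨i, hi⟩ : ∃ i, m = (j + 1) + (i + 1) := ⟨m - (j + 1) - 1, by omega⟩
    subst hi
    have e1 : j + 1 + (i + 1) - (j + 1) = i + 1 := by omega
    rw [e1]
    have f1 := cexp_formula_CX j
    have f2 := cexp_formula_CX i
    have f3 := cexp_formula_CX (j + i + 1)
    have e2 : j + i + 1 + 1 = j + 1 + (i + 1) := by ring
    rw [e2] at f3
    have hj : (0 : ℤ) ≤ j := Int.natCast_nonneg j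
    have hi : (0 : ℤ) ≤ i := Int.natCast_nonneg i
    have hij : (0 : ℤ) ≤ (i : ℤ) * j := mul_nonneg hi hj
    have key : (6 * (cexp (j + 1) + cexp (i + 1) +
        (j + 1 + (i + 1)) * (4 * (j + 1 + (i + 1)) + 7)) : ℤ) ≤ 6 * cexp (j + 1 + (i + 1)) := by
      push_cast at f1 f2 f3 ⊢
      nlinarith [mul_nonneg hij hi, mul_nonneg hij hj]
    have : (6 * (cexp (j + 1) + cexp (i + 1) +
        (j + 1 + (i + 1)) * (4 * (j + 1 + (i + 1)) + 7)) : ℕ) ≤ 6 * cexp (j + 1 + (i + 1)) := by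
      exact_mod_cast key
    omega
  · intro i j hij
    have : Monotone cexp := by
      apply monotone_nat_of_le_succ
      intro n
      rcases n with _ | n
      · simp [cexp]
      · show cexp (n + 1) ≤ cexp (n + 1) + (n + 2) * (4 * (n + 2) + 7)
        omega
    exact this hij
  · intro k hk
    obtain ⟨k, rfl⟩ : ∃ k', k = k' + 2 := ⟨k - 2, by omega⟩
    have e : 2 * (k + 2) - 1 = (2 * k + 2) + 1 := by omega
    rw [e]
    have f := cexp_formula_CX (2 * k + 2)
    have hk : (0 : ℤ) ≤ k := Int.natCast_nonneg k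
    have key : (6 * cexp (2 * k + 2 + 1) : ℤ) ≤ 6 * (12 * (k + 2) ^ 3) := by
      rw [f]
      push_cast
      nlinarith [mul_nonneg hk hk, mul_nonneg (mul_nonneg hk hk) hk]
    have : (6 * cexp (2 * k + 2 + 1) : ℕ) ≤ 6 * (12 * (k + 2) ^ 3) := by exact_mod_cast key
    omega

end Pool.Agent.Helper9.FU
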